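import Pool.Agent.Work.MP_ff0f6a_lc.HookAlg

-- merged part: Pool.Agent.Work.MP_ff0f6a_lc.HookA
section
/-!
Counting tools, and the first step of the counting argument: for most pairs `d < c` there is a
lost hook whose two rows are equal.
-/

namespace Pool.Agent.Chomp

open Finset

/-- at most `x` objects satisfy `p` -/
def AtMost {α : Type} (p : α → Prop) (x : ℕ) : Prop := ∀ u : Finset α, (∀ a ∈ u, p a) → #u ≤ x

lemma AtMost.or {α : Type} {p q : α → Prop} {x y : ℕ} (hp : AtMost p x) (hq : AtMost q y) :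
    AtMost (fun a => p a ∨ q a) (x + y) := by
  classical
  intro u hu
  rw [← card_filter_add_card_filter_not (s := u) p]
  exact Nat.add_le_add (hp _ fun a ha => (mem_filter.1 ha).2)
    (hq _ fun a ha => (hu a (mem_filter.1 ha).1).resolve_left (mem_filter.1 ha).2)

lemma AtMost.rel {α β : Type} (t : Finset β) (r : α → β → Prop)
    (h : ∀ b ∈ t, ∀ a a', r a b → r a' b → a = a') : AtMost (fun a => ∃ b ∈ t, r a b) #t :=
  fun _ hu => card_le_card_of_forall_subsingleton r hu fun b hb _ ha _ ha' =>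
    h b hb _ _ ha.2 ha'.2

lemma AtMost.mem {α : Type} (t : Finset α) : AtMost (· ∈ t) #t := fun _ hu => card_le_card hu

/-- triangular numbers -/
def tri (n : ℕ) : ℕ := ∑ i ∈ range n, i

lemma tri_two (n : ℕ) : 2 * tri n + n = n * n := by
  induction n with
  | zero => rfl
  | succ n ih => rw [tri, sum_range_succ, ← tri]; nlinarith

lemma tri_le_sum (s : Finset ℕ) : tri #s ≤ ∑ x ∈ s, x := by
  induction s using Finset.induction_on_max with
  | empty => simp [tri]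
  | insert a s h ih =>
    have ha : a ∉ s := fun k => lt_irrefl _ (h a k)
    have : #s ≤ a := by simpa using card_le_card (t := range a) fun x hx => mem_range.2 (h x hx)
    rw [card_insert_of_notMem ha, sum_insert ha, tri, sum_range_succ, ← tri]
    omega

lemma tri_le_add {N g x : ℕ} (h1 : N ≤ g + x) (h2 : g ≤ N) : tri N ≤ tri g + x * N := by
  obtain ⟨y, rfl⟩ := Nat.exists_eq_add_of_le h2
  obtain ⟨z, rfl⟩ : ∃ z, x = y + z := ⟨x - y, by omega⟩
  linarith only [tri_two g, tri_two (g + y), Nat.zero_le (z * (g + y)), Nat.zero_le (y * y), mul_self_nonneg ↑y]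

lemma sum_tri (M : ℕ) : 6 * ∑ N ∈ Icc 1 M, tri N + M = M * M * M := by
  induction M with
  | zero => rfl
  | succ n ih => rw [sum_Icc_succ_top (by omega)]; nlinarith [tri_two (n + 1)]

variable {Q : ℕ → ℕ → ℕ → ℕ → Prop}

lemma HookRule.fst (h : HookRule Q) {a a' b c d : ℕ} (k : Q a b c d) (k' : Q a' b c d) :
    a = a' := by
  rcases lt_trichotomy a a' with l | l | l
  · exact absurd (by rwa [min_eq_left (h.le k)]) (h.row k' l)
  · exact l
  · exact absurd (by rwa [min_eq_left (h.le k')]) (h.row k l)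

lemma HookRule.thd (h : HookRule Q) {a b c c' d : ℕ} (k : Q a b c d) (k' : Q a b c' d) :
    c = c' := h.fst (h.symm k) (h.symm k')

lemma HookRule.fth (h : HookRule Q) {a b c d d' : ℕ} (k : Q a b c d) (k' : Q a b c d') :
    d = d' := h.snd (h.symm k) (h.symm k')

lemma HookRule.top (h : HookRule Q) {k a b c d : ℕ} (e : Q k k c d) (e' : Q a b c d)
    (hk : k ≤ b) : a ≤ k := by
  by_contra l
  exact h.row e' (not_le.1 l) (by rwa [min_eq_right hk])

lemma HookRule.dia (h : HookRule Q) {k k' c d : ℕ} (e : Q k k c d) (e' : Q k' k' c d) :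
    k = k' := by
  rcases le_total k k' with l | l
  · exact le_antisymm l (h.top e e' l)
  · exact le_antisymm (h.top e' e l) l

open Classical in
/-- the pairs `(k, m)` below `M` with both rows equal, both columns equal, and a lost hook -/
noncomputable def setE (Q : ℕ → ℕ → ℕ → ℕ → Prop) (M : ℕ) : Finset (ℕ × ℕ) :=
  (range M ×ˢ range M).filter fun p => Q p.1 p.1 p.2 p.2

lemma mem_setE {M k m : ℕ} : (k, m) ∈ setE Q M ↔ k < M ∧ m < M ∧ Q k k m m := by
  simp only [setE, mem_filter, mem_product, mem_range, and_assoc]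

lemma stepA (h : HookRule Q) {M N : ℕ} (hN : N ≤ M) :
    AtMost (fun p : ℕ × ℕ => p.2 < p.1 ∧ p.1 < N ∧ ¬ ∃ k < N, Q k k p.1 p.2)
      (#(setE Q M) * N) := by
  classical
  intro u hu
  set G := (range N ×ˢ range N).filter fun p : ℕ × ℕ => p.2 < p.1 ∧ ∃ k < N, Q k k p.1 p.2
    with hG
  have mG : ∀ {c d}, (c, d) ∈ G ↔ c < N ∧ d < c ∧ ∃ k < N, Q k k c d := by
    intro c d
    simp only [hG, mem_filter, mem_product, mem_range]
    constructor
    · exact fun k => ⟨k.1.1, k.2⟩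
    · exact fun k => ⟨⟨k.1, by omega⟩, k.2⟩
  have h1 : #u + #G ≤ tri N := by
    rw [← card_union_of_disjoint (disjoint_left.2 fun ⟨c, d⟩ k k' => (hu _ k).2.2 (mG.1 k').2.2)]
    have := AtMost.rel ((range N).sigma fun c => range c)
      (fun (p : ℕ × ℕ) q => p = (q.1, q.2)) (fun _ _ _ _ k k' => k.trans k'.symm) (u ∪ G)
      fun ⟨c, d⟩ k => ⟨⟨c, d⟩, by
        rw [mem_sigma, mem_range, mem_range]
        rcases mem_union.1 k with k | k
        · exact ⟨(hu _ k).2.1, (hu _ k).1⟩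
        · exact ⟨(mG.1 k).1, (mG.1 k).2.1⟩, rfl⟩
    simpa [tri] using this
  have a1 := AtMost.rel G (fun (p : ℕ × ℕ) q => p.2 = q.1 ∧ Q p.1 p.1 q.1 q.2)
    fun _ _ _ _ k k' => Prod.ext (h.dia k.2 k'.2) (k.1.trans k'.1.symm)
  have a2 := AtMost.rel G (fun (p : ℕ × ℕ) q => p.1 = q.1 ∧ Q p.2 p.2 q.1 q.2)
    fun _ _ _ _ k k' => Prod.ext (k.1.trans k'.1.symm) (h.dia k.2 k'.2)
  have a3 := AtMost.rel (range N) (fun (p : ℕ × ℕ) q => p = (q, q))
    fun _ _ _ _ k k' => k.trans k'.symm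
  have a4 := AtMost.rel (setE Q M ×ˢ range N) (fun (p : ℕ × ℕ) q => p = (q.1.1, q.2))
    fun _ _ _ _ k k' => k.trans k'.symm
  have a5 := AtMost.rel (setE Q M ×ˢ range N) (fun (p : ℕ × ℕ) q => p = (q.2, q.1.2))
    fun _ _ _ _ k k' => k.trans k'.symm
  have h2 := (a1.or (a2.or (a3.or (a4.or a5)))) (range N ×ˢ range N) fun ⟨k, m⟩ hp => by
    obtain ⟨hk, hm⟩ : k < N ∧ m < N := by simpa using hp
    have e4 : ∀ i ≤ m, Q k k i i → ∃ b ∈ setE Q M ×ˢ range N, (k, m) = (b.1.1, b.2) :=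
      fun i hi e => ⟨((k, i), m), mem_product.2 ⟨mem_setE.2 ⟨by omega, by omega, e⟩,
        mem_range.2 hm⟩, rfl⟩
    by_cases e : k = m
    · exact .inr (.inr (.inl ⟨k, mem_range.2 hk, by rw [e]⟩))
    by_cases e' : Q k k m m
    · exact .inr (.inr (.inr (.inl (e4 m le_rfl e'))))
    rcases h.opt le_rfl le_rfl e e' with ⟨j, hj, l⟩ | ⟨j, hj, l⟩ | ⟨j, hj, l⟩ | ⟨j, hj, l⟩
    · rw [min_eq_right hj.le] at l
      exact .inr (.inr (.inr (.inr ⟨((j, m), k), mem_product.2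
        ⟨mem_setE.2 ⟨by omega, by omega, l⟩, mem_range.2 hk⟩, rfl⟩)))
    · exact .inr (.inl ⟨(k, j), mG.2 ⟨hk, hj, m, hm, h.symm l⟩, rfl, h.symm l⟩)
    · rw [min_eq_right hj.le] at l
      exact .inr (.inr (.inr (.inl (e4 j hj.le l))))
    · exact .inl ⟨(m, j), mG.2 ⟨hm, hj, k, hk, l⟩, rfl, l⟩
  simp only [card_product, card_range] at h2
  have := tri_two N
  omega

end Pool.Agent.Chomp
end

-- merged part: Pool.Agent.Work.MP_ff0f6a_lc.HookC
section
/-!
The second step of the counting argument: for a fixed last parameter `d` the lost hooks with equal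
rows cannot stay close to the diagonal.
-/

namespace Pool.Agent.Chomp

open Finset

variable {Q : ℕ → ℕ → ℕ → ℕ → Prop}

open Classical in
/-- the lost hooks with last parameter `d` and unequal rows -/
noncomputable def setT (Q : ℕ → ℕ → ℕ → ℕ → Prop) (d M : ℕ) : Finset (ℕ × ℕ × ℕ) :=
  (range M ×ˢ range M ×ˢ range M).filter fun t => t.2.1 < t.1 ∧ d < t.2.2 ∧ Q t.1 t.2.1 t.2.2 d

lemma mem_setT {d M a b c : ℕ} :
    (a, b, c) ∈ setT Q d M ↔ a < M ∧ c < M ∧ b < a ∧ d < c ∧ Q a b c d := by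
  simp only [setT, mem_filter, mem_product, mem_range]
  exact ⟨fun k => ⟨k.1.1, k.1.2.2, k.2⟩, fun k => ⟨⟨k.1, by omega, k.2.1⟩, k.2.2⟩⟩

variable {d M : ℕ} {κ : ℕ → ℕ}

lemma col_bound (h : HookRule Q) {c k N : ℕ} (e : Q k k c d) (hN : N ≤ M) (hc : c < N)
    (hd : d < c) (hk : k < N) :
    k ≤ 2 * d + 1 + #{t ∈ {t ∈ setT Q d M | t.1 < t.2.2 ∧ t.2.2 < N} | t.2.2 = c} +
      #{t ∈ {t ∈ setT Q d M | t.2.2 < t.1 ∧ t.1 < N} | t.1 = k} + (k - c) + (c - k) := by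
  have a1 := AtMost.rel (range d) (fun b i => Q k b c i) fun _ _ _ _ => h.snd
  have a2 := AtMost.rel (range (d + 1)) (fun b i => Q k b i i) fun _ _ _ _ => h.snd
  have a3 := AtMost.rel {t ∈ {t ∈ setT Q d M | t.1 < t.2.2 ∧ t.2.2 < N} | t.2.2 = c}
    (fun b t => b = t.2.1) fun _ _ _ _ l l' => l.trans l'.symm
  have a4 := AtMost.rel {t ∈ {t ∈ setT Q d M | t.2.2 < t.1 ∧ t.1 < N} | t.1 = k}
    (fun b t => b = t.2.1) fun _ _ _ _ l l' => l.trans l'.symm
  have a5 := AtMost.rel (Ico c k) (fun b a => Q a b c d) fun _ _ _ _ => h.snd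
  have a6 := AtMost.rel (Ico k c) (fun b i => Q k b i d) fun _ _ _ _ => h.snd
  have := (a1.or (a2.or (a3.or (a4.or (a5.or a6))))) (range k) fun b hb => by
    rw [mem_range] at hb
    rcases h.opt hb.le hd.le (h.ne e) (fun l => hb.ne (h.snd l e)) with
      ⟨j, hj, l⟩ | ⟨j, hj, l⟩ | ⟨j, hj, l⟩ | ⟨j, hj, l⟩
    · by_cases e1 : j ≤ b
      · rw [min_eq_right e1] at l
        exact absurd (h.dia l e) hj.ne
      rw [min_eq_left (by omega)] at l
      by_cases e2 : j < c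
      · exact .inr (.inr (.inl ⟨(j, b, c), mem_filter.2 ⟨mem_filter.2
          ⟨mem_setT.2 ⟨by omega, by omega, by omega, hd, l⟩, e2, hc⟩, rfl⟩, rfl⟩))
      · exact .inr (.inr (.inr (.inr (.inl ⟨j, mem_Ico.2 ⟨by omega, hj⟩, l⟩))))
    · have := h.snd l e
      omega
    · by_cases e1 : j ≤ d
      · rw [min_eq_right e1] at l
        exact .inr (.inl ⟨j, mem_range.2 (by omega), l⟩)
      rw [min_eq_left (by omega)] at l
      by_cases e2 : j < k
      · exact .inr (.inr (.inr (.inl ⟨(k, b, j), mem_filter.2 ⟨mem_filter.2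
          ⟨mem_setT.2 ⟨by omega, by omega, hb, by omega, l⟩, e2, hk⟩, rfl⟩, rfl⟩)))
      · exact .inr (.inr (.inr (.inr (.inr ⟨j, mem_Ico.2 ⟨by omega, hj⟩, l⟩))))
    · exact .inl ⟨j, mem_range.2 hj, l⟩
  simp only [card_range, Nat.card_Ico] at this
  omega

lemma level (h : HookRule Q) (k2 : ∀ c, κ c < M → Q (κ c) (κ c) c d) {N : ℕ} (hN : N ≤ M) :
    tri N ≤ #{t ∈ setT Q d M | t.1 < t.2.2 ∧ t.2.2 < N} +
      #{t ∈ setT Q d M | t.2.2 < t.1 ∧ t.1 < N} +
      (2 * (∑ c ∈ range M, if d < c then κ c - c else 0) + (4 * d + 3) * M +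
        2 * M * #{c ∈ range M | c < N ∧ d < c ∧ N ≤ κ c}) := by
  set G := {c ∈ range N | d < c ∧ κ c < N} with hG
  have mG : ∀ {c}, c ∈ G ↔ c < N ∧ d < c ∧ κ c < N := by simp [hG]
  have hx := ((AtMost.mem G).or ((AtMost.mem (range (d + 1))).or
    (AtMost.mem {c ∈ range M | c < N ∧ d < c ∧ N ≤ κ c}))) (range N) fun c hc => by
      simp only [mG, mem_range, mem_filter] at hc ⊢
      omega
  rw [card_range, card_range] at hx
  have hg : #G ≤ N := (card_filter_le _ _).trans (card_range N).le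
  have inj : Set.InjOn κ G := fun c hc c' hc' e =>
    h.thd (k2 c ((mG.1 hc).2.2.trans_le hN)) (e ▸ k2 c' ((mG.1 hc').2.2.trans_le hN))
  have s1 := tri_le_sum (G.image κ)
  rw [card_image_of_injOn inj, sum_image inj] at s1
  have s2 : ∑ c ∈ G, (κ c - c) ≤ ∑ c ∈ range M, if d < c then κ c - c else 0 := by
    refine le_trans (sum_congr rfl fun c hc => ?_).le (sum_le_sum_of_subset (s := G) fun c hc =>
      mem_range.2 ((mG.1 hc).1.trans_le hN))
    rw [if_pos (mG.1 hc).2.1]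
  have s3 : ∑ c ∈ G, c ≤ tri N := sum_le_sum_of_subset (filter_subset _ _)
  have s4 : ∑ c ∈ G, (c - κ c) + ∑ c ∈ G, κ c = ∑ c ∈ G, (κ c - c) + ∑ c ∈ G, c := by
    rw [← sum_add_distrib, ← sum_add_distrib]
    exact sum_congr rfl fun c _ => by omega
  have s5 := (sum_card_fiberwise_eq_card_filter {t ∈ setT Q d M | t.1 < t.2.2 ∧ t.2.2 < N} G
    (fun t => t.2.2)).le.trans (card_filter_le _ _)
  have s6 := (sum_card_fiberwise_eq_card_filter {t ∈ setT Q d M | t.2.2 < t.1 ∧ t.1 < N}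
    (G.image κ) (fun t => t.1)).le.trans (card_filter_le _ _)
  rw [sum_image inj] at s6
  have s7 := sum_le_sum (s := G) fun c hc => col_bound (M := M) h
    (k2 c ((mG.1 hc).2.2.trans_le hN)) hN (mG.1 hc).1 (mG.1 hc).2.1 (mG.1 hc).2.2
  simp only [sum_add_distrib, sum_const, smul_eq_mul] at s7
  have s8 := tri_le_add hx hg
  have s9 := Nat.mul_le_mul_left (d + 1 + #{c ∈ range M | c < N ∧ d < c ∧ N ≤ κ c}) hN
  have s10 := Nat.mul_le_mul_right (2 * d + 1) (hg.trans hN)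
  linarith only [s1, s2, s3, s4, s5, s6, s7, s8, s9, s10]

lemma upper_fst (h : HookRule Q) (N : ℕ) : #{t ∈ setT Q d M | t.1 < N} ≤ tri N := by
  have := AtMost.rel ((range N).sigma fun a => range a)
    (fun (t : ℕ × ℕ × ℕ) q => Q q.1 q.2 t.2.2 d ∧ t.1 = q.1 ∧ t.2.1 = q.2)
    (fun _ _ _ _ k k' => Prod.ext (k.2.1.trans k'.2.1.symm)
      (Prod.ext (k.2.2.trans k'.2.2.symm) (h.thd k.1 k'.1))) {t ∈ setT Q d M | t.1 < N}
    fun ⟨a, b, c⟩ ht => by
      obtain ⟨k, l⟩ := mem_filter.1 ht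
      rw [mem_setT] at k
      exact ⟨⟨a, b⟩, mem_sigma.2 ⟨mem_range.2 l, mem_range.2 k.2.2.1⟩, k.2.2.2.2, rfl, rfl⟩
  simpa [tri] using this

lemma upper_thd (h : HookRule Q) (k2 : ∀ c, κ c < M → Q (κ c) (κ c) c d) {N : ℕ} (hN : N ≤ M) :
    #{t ∈ setT Q d M | t.2.2 < N} ≤ tri N + ∑ c ∈ range M, if d < c then κ c - c else 0 := by
  have := AtMost.rel ((range N).sigma fun c => range (if d < c then κ c else 0))
    (fun (t : ℕ × ℕ × ℕ) q => Q t.1 q.2 q.1 d ∧ t.2.2 = q.1 ∧ t.2.1 = q.2)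
    (fun _ _ _ _ k k' => Prod.ext (h.fst k.1 k'.1)
      (Prod.ext (k.2.2.trans k'.2.2.symm) (k.2.1.trans k'.2.1.symm))) {t ∈ setT Q d M | t.2.2 < N}
    fun ⟨a, b, c⟩ ht => by
      obtain ⟨k, l⟩ := mem_filter.1 ht
      rw [mem_setT] at k
      refine ⟨⟨c, b⟩, mem_sigma.2 ⟨mem_range.2 l, mem_range.2 ?_⟩, k.2.2.2.2, rfl, rfl⟩
      show b < if d < c then κ c else 0
      rw [if_pos k.2.2.2.1]
      by_contra e
      have := h.top (k2 c (by omega)) k.2.2.2.2 (by omega)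
      omega
  rw [card_sigma] at this
  refine this.trans (le_trans ?_ (Nat.add_le_add_left
    (sum_le_sum_of_subset (range_subset_range.2 hN)) _))
  rw [tri, ← sum_add_distrib]
  refine sum_le_sum fun c _ => ?_
  rw [card_range]
  split_ifs <;> omega

lemma sum_bad (k1 : ∀ c, κ c ≤ M) : ∑ N ∈ Icc 1 M, #{c ∈ range M | c < N ∧ d < c ∧ N ≤ κ c} =
    ∑ c ∈ range M, if d < c then κ c - c else 0 := by
  simp only [card_filter]
  rw [sum_comm]
  refine sum_congr rfl fun c _ => ?_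
  rw [← card_filter]
  have := k1 c
  split_ifs with e
  · rw [← Nat.card_Ioc]
    congr 1
    ext N
    simp only [mem_filter, mem_Icc, mem_Ioc]
    omega
  · simp [e]

theorem stepC (h : HookRule Q) (k1 : ∀ c, κ c ≤ M) (k2 : ∀ c, κ c < M → Q (κ c) (κ c) c d)
    {g : ℕ} (hg : 0 < g) (hM : M = 24 * g) :
    288 * (g * g) ≤ 1 + 1320 * (∑ c ∈ range M, if d < c then κ c - c else 0) +
      7056 * ((4 * d + 3) * g) := by
  set W := ∑ c ∈ range M, if d < c then κ c - c else 0 with hW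
  set T := setT Q d M with hT
  set E : ℕ → ℕ := fun N => 2 * W + (4 * d + 3) * M +
    2 * M * #{c ∈ range M | c < N ∧ d < c ∧ N ≤ κ c} with hE
  set O : ℕ → ℕ := fun N => #{t ∈ T | (t.1 < N ∧ N ≤ t.2.2) ∨ (t.2.2 < N ∧ N ≤ t.1)} with hO
  have sE : ∑ N ∈ Icc 1 M, E N = M * (4 * W + (4 * d + 3) * M) := by
    simp only [hE, sum_add_distrib, ← mul_sum, sum_bad k1, ← hW, sum_const, smul_eq_mul,
      Nat.card_Icc, Nat.add_sub_cancel]
    ring
  have p1 : ∀ N ∈ Icc 1 M, tri N ≤ #T + E N ∧ O N ≤ 2 * E N + W := fun N hN => by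
    have hN' := (mem_Icc.1 hN).2
    have l1 := level h k2 hN'
    have l2 := upper_fst (d := d) (M := M) h N
    have l3 := upper_thd h k2 hN'
    have l4 : #{t ∈ T | t.1 < t.2.2 ∧ t.2.2 < N} + #{t ∈ T | t.2.2 < t.1 ∧ t.1 < N} ≤ #T := by
      rw [card_filter, card_filter, card_eq_sum_ones, ← sum_add_distrib]
      exact sum_le_sum fun t _ => by split_ifs <;> omega
    have l5 : 2 * (#{t ∈ T | t.1 < t.2.2 ∧ t.2.2 < N} + #{t ∈ T | t.2.2 < t.1 ∧ t.1 < N}) + O N ≤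
        #{t ∈ T | t.1 < N} + #{t ∈ T | t.2.2 < N} := by
      simp only [hO, card_filter, ← sum_add_distrib, mul_sum]
      exact sum_le_sum fun t _ => by split_ifs <;> omega
    simp only [hE]
    rw [← hT, ← hW] at l1 l3
    rw [← hT] at l2
    omega
  have p2 := sum_le_sum fun N hN => (p1 N hN).1
  have p3 := sum_le_sum fun N hN => (p1 N hN).2
  simp only [sum_add_distrib, ← mul_sum, sE, sum_const, smul_eq_mul, Nat.card_Icc,
    Nat.add_sub_cancel] at p2 p3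
  have p4 : g * #T ≤ ∑ N ∈ Icc 1 M, O N + g * #{t ∈ T | t.2.2 < t.1 + g ∧ t.1 < t.2.2 + g} := by
    simp only [hO, card_filter]
    rw [sum_comm, card_eq_sum_ones, mul_sum, mul_sum, ← sum_add_distrib]
    refine sum_le_sum fun ⟨a, b, c⟩ ht => ?_
    rw [← card_filter]
    obtain ⟨ha, hc, -⟩ := mem_setT.1 ht
    have : Ioc (min a c) (max a c) ⊆
        {N ∈ Icc 1 M | (a < N ∧ N ≤ c) ∨ (c < N ∧ N ≤ a)} := fun N hN => by
      simp only [mem_filter, mem_Icc, mem_Ioc] at hN ⊢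
      omega
    have := card_le_card this
    rw [Nat.card_Ioc] at this
    dsimp only
    split_ifs <;> omega
  have p5 := AtMost.rel (range M ×ˢ range (2 * g))
    (fun (t : ℕ × ℕ × ℕ) q => Q t.1 t.2.1 t.2.2 d ∧ t.1 = q.1 ∧ t.2.2 + g = q.2 + q.1)
    (fun _ _ ⟨a, b, c⟩ ⟨a', b', c'⟩ k k' => by
      obtain rfl : a = a' := k.2.1.trans k'.2.1.symm
      obtain rfl : c = c' := Nat.add_right_cancel (k.2.2.trans k'.2.2.symm)
      obtain rfl : b = b' := h.snd k.1 k'.1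
      rfl) {t ∈ T | t.2.2 < t.1 + g ∧ t.1 < t.2.2 + g} fun ⟨a, b, c⟩ ht => by
      obtain ⟨k, l⟩ := mem_filter.1 ht
      rw [mem_setT] at k
      dsimp only at l
      exact ⟨(a, c + g - a), mem_product.2 ⟨mem_range.2 k.1, mem_range.2 (by dsimp only; omega)⟩,
        k.2.2.2.2, rfl, by dsimp only; omega⟩
  rw [card_product, card_range, card_range] at p5
  have p6 := sum_tri M
  have p7 := Nat.mul_le_mul_left g p5
  have p8 := p4.trans (Nat.add_le_add p3 p7)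
  set R := 4 * W + (4 * d + 3) * M with hR
  have q2 : M * M ≤ 1 + 6 * (#T + R) :=
    Nat.le_of_mul_le_mul_left (c := M) (by linarith only [p6, p2]) (by omega)
  clear_value R T W
  subst hM
  have q1 : #T ≤ 24 * (2 * R + W) + 48 * (g * g) :=
    Nat.le_of_mul_le_mul_left (c := g) (p8.trans_eq (by ring)) hg
  linarith only [hR, q2, q1]

end Pool.Agent.Chomp
end

-- merged part: Pool.Agent.Work.MP_ff0f6a_lc.HookCount
section
/-!
The move `(2, 2)` wins on linearly many boards.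
-/

namespace Pool.Agent.Chomp

open Finset

theorem HookRule.count {Q : ℕ → ℕ → ℕ → ℕ → Prop} (h : HookRule Q) (D : ℕ) :
    D ≤ 5177 * #(setE Q (4800 * D)) := by
  classical
  rcases D.eq_zero_or_pos with rfl | hD
  · simp
  set M := 4800 * D with hM
  have hκ : ∀ d c, ∃ k ≤ M, (k < M → Q k k c d) ∧ ∀ j < M, Q j j c d → j = k := fun d c => by
    by_cases e : ∃ k < M, Q k k c d
    · obtain ⟨k, hk, e⟩ := e
      exact ⟨k, hk.le, fun _ => e, fun j _ l => h.dia l e⟩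
    · exact ⟨M, le_rfl, fun l => absurd l (lt_irrefl _), fun j hj l => absurd ⟨j, hj, l⟩ e⟩
  choose κ k1 k2 k3 using hκ
  have b1 : ∀ N ∈ Icc 1 M, ∑ d ∈ range D, #{c ∈ range M | c < N ∧ d < c ∧ N ≤ κ d c} ≤
      #(setE Q M) * M := fun N hN => by
    have hN' := (mem_Icc.1 hN).2
    have inj : Function.Injective fun q : (_ : ℕ) × ℕ => (q.2, q.1) := by
      rintro ⟨a, b⟩ ⟨a', b'⟩ e
      obtain ⟨rfl, rfl⟩ := Prod.mk.inj e
      rfl
    rw [← card_sigma, ← card_image_of_injective _ inj]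
    refine (stepA h hN' _ fun p hp => ?_).trans (Nat.mul_le_mul_left _ hN')
    obtain ⟨⟨d, c⟩, hq, rfl⟩ := mem_image.1 hp
    obtain ⟨l1, l2, l3⟩ := (mem_filter.1 (mem_sigma.1 hq).2).2
    refine ⟨l2, l1, fun ⟨k, hk, e⟩ => ?_⟩
    have := k3 d c k (by omega) e
    dsimp only at l3
    omega
  have b2 := sum_le_sum b1
  rw [sum_comm] at b2
  simp only [sum_bad (k1 _), sum_const, smul_eq_mul, Nat.card_Icc, Nat.add_sub_cancel] at b2
  obtain ⟨d, hd, b3⟩ := exists_le_of_sum_le (s := range D)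
    (f := fun d => D * ∑ c ∈ range M, if d < c then κ d c - c else 0)
    (g := fun _ => M * (#(setE Q M) * M)) ⟨0, mem_range.2 hD⟩ (by
      rw [← mul_sum, sum_const, card_range, smul_eq_mul]
      exact Nat.mul_le_mul_left _ b2)
  have b4 := stepC h (k1 d) (k2 d) (g := 200 * D) (by omega) (by omega)
  rw [mem_range] at hd
  generalize (∑ c ∈ range M, if d < c then κ d c - c else 0) = W at b3 b4
  generalize #(setE Q M) = e at b3 ⊢
  rw [hM] at b3
  have b5 : 5875200 * (D * D) ≤ 1320 * W := by linarith only [hD, b4, hd, Nat.mul_le_mul_right D hd]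
  have b6 : D * D * (5875200 * D) ≤ D * D * (30412800000 * e) := by
    linarith only [b3, b5, Nat.mul_le_mul_left D b5]
  have := Nat.le_of_mul_le_mul_left b6 (Nat.mul_pos hD hD)
  omega

theorem many_boards {R : ℕ → ℕ → Prop} (hR : ∀ m n, WinMove m n (2, 2) → R m n) (N : ℕ) :
    N ≤ 10 ^ 9 * (Set.ncard {p : ℕ × ℕ | p.1 ≤ N ∧ p.2 ≤ N ∧
      N ≤ 10 ^ 9 * p.1 ∧ N ≤ 10 ^ 9 * p.2 ∧ p.1 ≠ p.2 ∧ R p.1 p.2} + 1) := by
  have h := hookRule
  have h1 := h.count (N / 4800)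
  set Q := fun a b c d => b ≤ a ∧ d ≤ c ∧ HP a b c d with hQ
  set E := setE Q (4800 * (N / 4800)) with hE
  set s := N / 10 ^ 9 + 1 with hs
  have a1 := AtMost.rel (range s) (fun (p : ℕ × ℕ) i => p.1 = i ∧ Q p.2 p.2 i i)
    fun _ _ _ _ k k' => Prod.ext (k.1.trans k'.1.symm) (h.dia k.2 k'.2)
  have a2 := AtMost.rel (range s) (fun (p : ℕ × ℕ) i => p.2 = i ∧ Q p.1 p.1 i i)
    fun _ _ _ _ k k' => Prod.ext (h.dia k.2 k'.2) (k.1.trans k'.1.symm)
  have h2 := ((AtMost.mem {p ∈ E | s ≤ p.1 ∧ s ≤ p.2}).or (a1.or a2)) E fun ⟨k, m⟩ hp => by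
    have e := (mem_setE.1 hp).2.2
    by_cases e1 : k < s
    · exact .inr (.inl ⟨k, mem_range.2 e1, rfl, h.symm e⟩)
    by_cases e2 : m < s
    · exact .inr (.inr ⟨m, mem_range.2 e2, rfl, e⟩)
    · exact .inl (mem_filter.2 ⟨hp, not_lt.1 e1, not_lt.1 e2⟩)
  rw [card_range] at h2
  have h3 : #{p ∈ E | s ≤ p.1 ∧ s ≤ p.2} ≤ Set.ncard {p : ℕ × ℕ | p.1 ≤ N ∧ p.2 ≤ N ∧
      N ≤ 10 ^ 9 * p.1 ∧ N ≤ 10 ^ 9 * p.2 ∧ p.1 ≠ p.2 ∧ R p.1 p.2} := by
    rw [← Set.ncard_coe_finset]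
    refine Set.ncard_le_ncard_of_injOn (fun p => (p.2 + 1, p.1 + 1)) (fun ⟨k, m⟩ hp => ?_)
      (fun ⟨k, m⟩ _ ⟨k', m'⟩ _ e => by simp only [Prod.mk.injEq] at e ⊢; omega)
      ((range (N + 1) ×ˢ range (N + 1)).finite_toSet.subset fun ⟨m, n⟩ hp => by
        have := hp.1
        have := hp.2.1
        simp only [coe_product, coe_range, Set.mem_prod, Set.mem_Iio]
        omega)
    obtain ⟨l, l1, l2⟩ := mem_filter.1 (mem_coe.1 hp)
    obtain ⟨l3, l4, l5⟩ := mem_setE.1 l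
    have := h.ne l5
    dsimp only at l1 l2
    refine ⟨?_, ?_, ?_, ?_, ?_, hR _ _ (winMove_two (by omega) (by omega) l5.2.2)⟩ <;>
      dsimp only <;> omega
  omega

end Pool.Agent.Chomp
end
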