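import Pool.Agent.Work.MP_ff0f6a_lc.Defs

/-!
Three-rowed positions and the recurrence of their outcomes.
-/

namespace Pool.Agent.Chomp

open Finset

lemma card_bite_lt {S : Finset (ℕ × ℕ)} {c : ℕ × ℕ} (h : c ∈ S) : (bite S c).card < S.card :=
  card_lt_card (filter_ssubset.2 ⟨c, h, fun k => k ⟨le_rfl, le_rfl⟩⟩)

lemma out_det (S : Finset (ℕ × ℕ)) : Out true S ↔ ¬ Out false S := by
  induction h : S.card using Nat.strong_induction_on generalizing S with
  | _ n ih =>
    have ih' : ∀ c ∈ S, (Out true (bite S c) ↔ ¬ Out false (bite S c)) := fun c hc =>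
      ih _ (h ▸ card_bite_lt hc) _ rfl
    constructor
    · intro h1 h2
      cases h1 with
      | win _ c hc k =>
        cases h2 with
        | lose _ k' => exact (ih' c hc).1 (k' c hc) k
    · intro h1
      by_contra h2
      exact h1 (.lose S fun c hc => (ih' c hc).2 fun k => h2 (.win S c hc k))

lemma out_false_iff (S : Finset (ℕ × ℕ)) : Out false S ↔ ∀ c ∈ S, ¬ Out false (bite S c) := by
  constructor
  · intro h c hc
    cases h with
    | lose _ k => exact (out_det _).1 (k c hc)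
  · exact fun h => .lose S fun c hc => (out_det _).2 (h c hc)

/-- the position with rows of lengths `p`, `q`, `r` -/
def pos (p q r : ℕ) : Finset (ℕ × ℕ) :=
  (range 3 ×ˢ range (p + q + r)).filter fun x =>
    x ≠ (0, 0) ∧ ((x.1 = 0 ∧ x.2 < p) ∨ (x.1 = 1 ∧ x.2 < q) ∨ (x.1 = 2 ∧ x.2 < r))

lemma mem_pos {p q r i j : ℕ} : (i, j) ∈ pos p q r ↔
    ¬ (i = 0 ∧ j = 0) ∧ ((i = 0 ∧ j < p) ∨ (i = 1 ∧ j < q) ∨ (i = 2 ∧ j < r)) := by
  simp only [pos, mem_filter, mem_product, mem_range, ne_eq, Prod.mk.injEq]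
  omega

lemma bite0 (p q r j : ℕ) : bite (pos p q r) (0, j) = pos (min p j) (min q j) (min r j) := by
  ext ⟨a, b⟩
  simp only [bite, mem_filter, mem_pos]
  omega

lemma bite1 (p q r j : ℕ) : bite (pos p q r) (1, j) = pos p (min q j) (min r j) := by
  ext ⟨a, b⟩
  simp only [bite, mem_filter, mem_pos]
  omega

lemma bite2 (p q r j : ℕ) : bite (pos p q r) (2, j) = pos p q (min r j) := by
  ext ⟨a, b⟩
  simp only [bite, mem_filter, mem_pos]
  omega

lemma board_eq (n : ℕ) : board 2 n = pos (n + 1) (n + 1) (n + 1) := by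
  ext ⟨a, b⟩
  simp only [board, mem_erase, mem_product, mem_range, mem_pos, ne_eq, Prod.mk.injEq]
  omega

/-- the previous player wins -/
def PP (p q r : ℕ) : Prop := Out false (pos p q r)

lemma pp_iff (p q r : ℕ) : PP p q r ↔ (∀ j, 1 ≤ j → j < p → ¬ PP j (min q j) (min r j)) ∧
    (∀ j < q, ¬ PP p j (min r j)) ∧ ∀ j < r, ¬ PP p q j := by
  rw [PP, out_false_iff]
  constructor
  · intro h
    refine ⟨fun j h1 h2 => ?_, fun j h1 => ?_, fun j h1 => ?_⟩
    · have := h (0, j) (mem_pos.2 (by omega))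
      rwa [bite0, min_eq_right h2.le] at this
    · have := h (1, j) (mem_pos.2 (by omega))
      rwa [bite1, min_eq_right h1.le] at this
    · have := h (2, j) (mem_pos.2 (by omega))
      rwa [bite2, min_eq_right h1.le] at this
  · rintro ⟨h0, h1, h2⟩ ⟨i, j⟩ hc
    obtain ⟨k, ⟨rfl, k'⟩ | ⟨rfl, k'⟩ | ⟨rfl, k'⟩⟩ := mem_pos.1 hc
    · rw [bite0, min_eq_right k'.le]
      exact h0 j (by omega) k'
    · rw [bite1, min_eq_right k'.le]
      exact h1 j k'
    · rw [bite2, min_eq_right k'.le]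
      exact h2 j k'

lemma not_pp {p q r : ℕ} (h : ¬ PP p q r) : (∃ j, 1 ≤ j ∧ j < p ∧ PP j (min q j) (min r j)) ∨
    (∃ j < q, PP p j (min r j)) ∨ ∃ j < r, PP p q j := by
  rw [pp_iff] at h
  by_contra k
  push Not at k
  exact h k

/-- strategy stealing -/
lemma not_pp_rect {s : ℕ} (hs : 1 ≤ s) : ¬ PP s s s := by
  intro h
  obtain ⟨h0, h1, h2⟩ := (pp_iff _ _ _).1 h
  rcases not_pp (h2 (s - 1) (by omega)) with ⟨j, k1, k2, k⟩ | ⟨j, k1, k⟩ | ⟨j, k1, k⟩
  · rw [min_eq_right (show j ≤ s - 1 by omega)] at k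
    refine h0 j k1 k2 ?_
    rw [min_eq_right k2.le] at k ⊢
    exact k
  · rw [min_eq_right (show j ≤ s - 1 by omega)] at k
    refine h1 j k1 ?_
    rwa [min_eq_right k1.le]
  · exact h2 j (by omega) k

/-- `p` completes the two lower rows to a lost position -/
def FF (q r p : ℕ) : Prop := 1 ≤ p ∧ r ≤ p ∧ PP p (min q p) r

lemma FF.uniq {q r p p' : ℕ} (h : FF q r p) (h' : FF q r p') : p = p' := by
  wlog k : p < p' generalizing p p'
  · rcases (not_lt.1 k).lt_or_eq with k | k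
    exacts [(this h' h k).symm, k.symm]
  exfalso
  refine ((pp_iff _ _ _).1 h'.2.2).1 p h.1 k ?_
  rw [min_eq_left h.2.1, min_assoc, min_eq_right k.le]
  exact h.2.2

lemma FF.ex {q r : ℕ} (hr : r ≤ q) : ∃ p, FF q r p := by
  classical
  by_contra hn
  push Not at hn
  have key : ∀ p ∈ Icc (q + 1) (q + 1 + (q + r)), ∃ j < q + r,
      if j < q then FF j (min r j) p else FF q (j - q) p := by
    intro p hp
    have hp' := (mem_Icc.1 hp).1
    have h1 : ¬ PP p q r := fun k => hn p ⟨by omega, by omega, by rwa [min_eq_left (by omega)]⟩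
    rcases not_pp h1 with ⟨j, k1, k2, k⟩ | ⟨j, k1, k⟩ | ⟨j, k1, k⟩
    · by_cases e : r ≤ j
      · exact absurd ⟨k1, e, by rwa [min_eq_left e] at k⟩ (hn j)
      · rw [min_eq_right (by omega), min_eq_right (by omega)] at k
        exact absurd k (not_pp_rect k1)
    · exact ⟨j, by omega, by
        rw [if_pos k1]
        exact ⟨by omega, by omega, by rwa [min_eq_left (by omega)]⟩⟩
    · exact ⟨q + j, by omega, by
        rw [if_neg (by omega), Nat.add_sub_cancel_left]
        exact ⟨by omega, by omega, by rwa [min_eq_left (by omega)]⟩⟩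
  choose! g hg1 hg2 using key
  have := card_le_card_of_injOn (t := range (q + r)) g (fun p hp => mem_range.2 (hg1 p hp))
    fun p hp p' hp' e => by
      have k1 := hg2 p hp
      have k2 := hg2 p' hp'
      rw [← e] at k2
      split_ifs at k1 k2 <;> exact k1.uniq k2
  simp at this
  omega

/-- the properties of the table of first rows -/
structure Mex (f : ℕ → ℕ → ℕ) : Prop where
  pos : ∀ {q r}, r ≤ q → 1 ≤ f q r
  ge : ∀ {q r}, r ≤ q → r ≤ f q r
  diag : ∀ r, r < f r r
  stay : ∀ {q q' r}, r ≤ q → r ≤ q' → f q r ≤ q → f q r ≤ q' → f q' r = f q r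
  row : ∀ {q q' r}, r ≤ q → q < q' → f q r = f q' r → f q r ≤ q
  col : ∀ {q r r'}, r < r' → r' ≤ q → f q r ≠ f q r'
  dd : ∀ {q r a}, a < r → r ≤ q → f q r ≠ f a a
  mex : ∀ {q r s}, r ≤ q → 1 ≤ s → s < f q r →
    (∃ a < r, f a a = s) ∨ (∃ q', r ≤ q' ∧ q' < q ∧ f q' r = s) ∨ ∃ b < r, f q b = s

theorem exists_mex : ∃ f, Mex f ∧ ∀ p b, b ≤ p → 1 ≤ p → (f p b = p ↔ PP p p b) := by
  choose! f hf using fun q r => FF.ex (q := q) (r := r)
  have e : ∀ {q r p}, r ≤ q → FF q r p → f q r = p := fun h k => (hf _ _ h).uniq k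
  refine ⟨f, ⟨fun h => (hf _ _ h).1, fun h => (hf _ _ h).2.1, fun r => ?_, ?_, ?_, ?_, ?_, ?_⟩,
    fun p b h1 h2 => ⟨fun k => ?_, fun k => e h1 ⟨h2, h1, by rwa [min_self]⟩⟩⟩
  · obtain ⟨h1, h2, h3⟩ := hf r r le_rfl
    refine lt_of_le_of_ne h2 fun k => ?_
    rw [← k, min_self] at h3
    exact not_pp_rect (k ▸ h1) h3
  · intro q q' r h h' k k'
    obtain ⟨h1, h2, h3⟩ := hf q r h
    exact e h' ⟨h1, h2, by rw [min_eq_right k] at h3; rwa [min_eq_right k']⟩
  · intro q q' r h h' k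
    by_contra k'
    obtain ⟨h1, h2, h3⟩ := hf q r h
    obtain ⟨-, -, h4⟩ := hf q' r (by omega)
    rw [← k] at h4
    refine ((pp_iff _ _ _).1 h4).2.1 q (by omega) ?_
    rw [min_eq_left (show q ≤ f q r by omega)] at h3
    rwa [min_eq_left h]
  · intro q r r' h h' k
    obtain ⟨-, -, h3⟩ := hf q r (by omega)
    obtain ⟨-, -, h4⟩ := hf q r' h'
    exact ((pp_iff _ _ _).1 h4).2.2 r h (k ▸ h3)
  · intro q r a h h' k
    obtain ⟨-, h2, h3⟩ := hf q r h'
    obtain ⟨-, h5, h4⟩ := hf a a le_rfl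
    refine ((pp_iff _ _ _).1 h3).2.1 a (by omega) ?_
    rw [min_eq_left h5] at h4
    rwa [min_eq_right h.le, k]
  · intro q r s h h1 h2
    have h3 : ¬ PP s (min q s) (min r s) := by
      intro k
      by_cases e' : r ≤ s
      · have := e h ⟨h1, e', by rwa [min_eq_left e'] at k⟩
        omega
      · rw [min_eq_right (by omega), min_eq_right (by omega)] at k
        exact not_pp_rect h1 k
    rcases not_pp h3 with ⟨j, k1, k2, k⟩ | ⟨j, k1, k⟩ | ⟨j, k1, k⟩
    · by_cases e' : r ≤ j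
      · rw [show min (min q s) j = min q j by omega, show min (min r s) j = r by omega] at k
        have := e h ⟨k1, e', k⟩
        omega
      · rw [show min (min q s) j = j by omega, show min (min r s) j = j by omega] at k
        exact absurd k (not_pp_rect k1)
    · by_cases e' : r ≤ j
      · rw [show min (min r s) j = r by omega] at k
        exact .inr (.inl ⟨j, e', by omega, e e' ⟨h1, by omega, by rwa [min_eq_left (by omega)]⟩⟩)
      · rw [show min (min r s) j = j by omega] at k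
        exact .inl ⟨j, by omega, e le_rfl ⟨h1, by omega, by rwa [min_eq_left (by omega)]⟩⟩
    · exact .inr (.inr ⟨j, by omega, e (by omega) ⟨h1, by omega, k⟩⟩)
  · obtain ⟨-, -, h3⟩ := hf p b h1
    rwa [k, min_self] at h3

lemma winMove_iff (n : ℕ) : (∃ j, WinMove 2 n (2, j)) ↔ ∃ b ≤ n, PP (n + 1) (n + 1) b := by
  simp only [WinMove, board_eq, bite2, mem_pos]
  constructor
  · rintro ⟨j, h1, h2⟩
    exact ⟨j, by omega, by rwa [min_eq_right (by omega)] at h2⟩
  · rintro ⟨j, h1, h2⟩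
    exact ⟨j, ⟨by omega, .inr (.inr ⟨trivial, by omega⟩)⟩, by rwa [min_eq_right (by omega)]⟩

end Pool.Agent.Chomp
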