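import Mathlib
import Pool.Agent.Work.MP_ff0f6a_lc.Game

-- merged part: Pool.Agent.Work.MP_ff0f6a_lc.Cnt
section
/-!
Counting functions.
-/

namespace Pool.Agent.Chomp

open Finset

open Classical in
/-- the number of `b < x` with `P b` -/
noncomputable def cnt (P : ℕ → Prop) (x : ℕ) : ℕ := ((range x).filter P).card

variable {P Q R S : ℕ → Prop} {x y : ℕ}

lemma cnt_zero : cnt P 0 = 0 := by simp [cnt]

open Classical in
lemma cnt_succ (P : ℕ → Prop) (x : ℕ) : cnt P (x + 1) = cnt P x + if P x then 1 else 0 := by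
  rw [cnt, cnt, card_filter, card_filter, sum_range_succ]

lemma cnt_pos (h : P x) : cnt P (x + 1) = cnt P x + 1 := by rw [cnt_succ, if_pos h]

lemma cnt_neg (h : ¬ P x) : cnt P (x + 1) = cnt P x := by rw [cnt_succ, if_neg h, add_zero]

lemma cnt_succ_le : cnt P (x + 1) ≤ cnt P x + 1 := by
  rw [cnt_succ]
  split_ifs <;> omega

lemma cnt22 (h : ∀ b < x, (P b → R b ∨ S b) ∧ (Q b → R b ∨ S b) ∧ (P b → Q b → R b ∧ S b)) :
    cnt P x + cnt Q x ≤ cnt R x + cnt S x := by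
  induction x with
  | zero => simp [cnt_zero]
  | succ x ih =>
    have h1 := ih fun b hb => h b (by omega)
    have h2 := h x (by omega)
    simp only [cnt_succ]
    split_ifs <;> first | omega | tauto

lemma cnt_false (h : ∀ b < x, ¬ P b) : cnt P x = 0 := by
  classical
  rw [cnt, card_eq_zero, filter_eq_empty_iff]
  exact fun b hb => h b (mem_range.1 hb)

lemma cnt_true (h : ∀ b < x, P b) : cnt P x = x := by
  classical
  rw [cnt, filter_true_of_mem fun b hb => h b (mem_range.1 hb), card_range]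

lemma cnt12 (h : ∀ b < x, P b → R b ∨ S b) : cnt P x ≤ cnt R x + cnt S x := by
  have := cnt22 (P := P) (Q := fun _ => False) (R := R) (S := S) (x := x) fun b hb =>
    ⟨h b hb, False.elim, fun _ => False.elim⟩
  omega

lemma cnt21 (h : ∀ b < x, (P b → R b) ∧ (Q b → R b) ∧ (P b → ¬ Q b)) :
    cnt P x + cnt Q x ≤ cnt R x := by
  have h1 := cnt22 (P := P) (Q := Q) (R := R) (S := fun _ => False) (x := x) fun b hb =>
    ⟨fun k => .inl ((h b hb).1 k), fun k => .inl ((h b hb).2.1 k),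
      fun k k' => absurd k' ((h b hb).2.2 k)⟩
  have h2 : cnt (fun _ => False) x = 0 := cnt_false fun _ _ => id
  omega

lemma cnt11 (h : ∀ b < x, P b → R b) : cnt P x ≤ cnt R x := by
  have h1 := cnt12 (P := P) (R := R) (S := fun _ => False) fun b hb k => .inl (h b hb k)
  have h2 : cnt (fun _ => False) x = 0 := cnt_false fun _ _ => id
  omega

lemma cnt_le : cnt P x ≤ x := (cnt11 fun _ _ _ => trivial).trans (cnt_true fun _ _ => trivial).le

lemma cnt_not (P : ℕ → Prop) (x : ℕ) : cnt P x + cnt (fun b => ¬ P b) x = x := by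
  induction x with
  | zero => simp [cnt_zero]
  | succ x ih =>
    simp only [cnt_succ]
    split_ifs <;> omega

lemma cnt_disj (h : ∀ b < x, P b → ¬ Q b) : cnt P x + cnt Q x ≤ x :=
  (cnt21 (R := fun _ => True) fun b hb => ⟨fun _ => trivial, fun _ => trivial, h b hb⟩).trans cnt_le

lemma cnt_mono (h : x ≤ y) : cnt P x ≤ cnt P y := by
  induction y, h using Nat.le_induction with
  | base => rfl
  | succ y _ ih => exact ih.trans (by rw [cnt_succ]; omega)

lemma cnt_stable (h : x ≤ y) (h' : ∀ b, x ≤ b → b < y → ¬ P b) : cnt P y = cnt P x := by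
  induction y, h using Nat.le_induction with
  | base => rfl
  | succ y hy ih => rw [cnt_neg (h' y hy (by omega)), ih fun b h1 h2 => h' b h1 (by omega)]

/-- increments -/
lemma cnt_incr (h : x ≤ y) (h' : ∀ b, x ≤ b → b < y → P b → Q b) :
    cnt P y + cnt Q x ≤ cnt P x + cnt Q y := by
  induction y, h using Nat.le_induction with
  | base => rfl
  | succ y hy ih =>
    have h1 := ih fun b h1 h2 => h' b h1 (by omega)
    have h2 := h' y hy (by omega)
    simp only [cnt_succ]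
    split_ifs <;> first | omega | tauto

lemma cnt_incr_disj (h : x ≤ y) (h' : ∀ b, x ≤ b → b < y → P b → ¬ Q b) :
    cnt P y + cnt Q y + x ≤ cnt P x + cnt Q x + y := by
  have h1 := cnt_incr (Q := fun b => ¬ Q b) h h'
  have h2 := cnt_not Q x
  have h3 := cnt_not Q y
  omega

lemma cnt_inj (g : ℕ → ℕ) (h : ∀ b < x, P b → g b < y ∧ Q (g b))
    (hi : ∀ b < x, ∀ b' < b, P b → P b' → g b' ≠ g b) : cnt P x ≤ cnt Q y := by
  classical
  refine card_le_card_of_injOn g (fun b hb => ?_) fun b hb b' hb' e => ?_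
  · simp only [coe_filter, mem_range, Set.mem_ofPred_eq] at hb ⊢
    exact h b hb.1 hb.2
  · simp only [coe_filter, mem_range, Set.mem_ofPred_eq] at hb hb'
    rcases lt_trichotomy b b' with k | k | k
    · exact absurd e (hi b' hb'.1 b k hb'.2 hb.2)
    · exact k
    · exact absurd e.symm (hi b hb.1 b' k hb.2 hb'.2)

lemma cnt_surj (g : ℕ → ℕ) (h : ∀ s < y, Q s → ∃ b < x, P b ∧ g b = s) : cnt Q y ≤ cnt P x := by
  choose! k hk using h
  refine cnt_inj k (fun s hs hq => ⟨(hk s hs hq).1, (hk s hs hq).2.1⟩) fun s hs s' hs' hq hq' e => ?_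
  have h1 := (hk s hs hq).2.2
  have h2 := (hk s' (by omega) hq').2.2
  rw [e] at h2
  omega

lemma cnt_rel (r : ℕ → ℕ → Prop) (h : ∀ b < x, P b → ∃ s < y, Q s ∧ r b s)
    (hi : ∀ b b' s, b' < b → r b s → ¬ r b' s) : cnt P x ≤ cnt Q y := by
  choose! g hg using h
  exact cnt_inj g (fun b hb k => ⟨(hg b hb k).1, (hg b hb k).2.1⟩) fun b hb b' hb' k k' e =>
    hi b b' _ hb' (hg b hb k).2.2 (e ▸ (hg b' (by omega) k').2.2)

lemma cnt_Ico (a c : ℕ) : cnt (fun b => a ≤ b ∧ b < c) x = min c x - a := by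
  induction x with
  | zero => simp [cnt_zero]
  | succ x ih =>
    rw [cnt_succ, ih]
    split_ifs <;> omega

lemma cnt_ne (h : y < x) : cnt (fun b => b ≠ y) x + 1 = x := by
  have h1 := cnt_not (fun b => b ≠ y) x
  have h2 : cnt (fun b => ¬ b ≠ y) x = cnt (fun b => y ≤ b ∧ b < y + 1) x := by
    congr 1
    funext b
    exact propext (by omega)
  rw [cnt_Ico] at h2
  omega

lemma exists_first (h : 1 ≤ cnt P x) : ∃ b < x, P b ∧ cnt P b = 0 := by
  classical
  have h1 : ∃ b, b < x ∧ P b := by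
    by_contra k
    rw [cnt_false fun b hb hp => k ⟨b, hb, hp⟩] at h
    omega
  exact ⟨Nat.find h1, (Nat.find_spec h1).1, (Nat.find_spec h1).2, cnt_false fun b hb hp =>
    Nat.find_min h1 hb ⟨hb.trans (Nat.find_spec h1).1, hp⟩⟩

lemma exists_last (h : 1 ≤ cnt P x) : ∃ b < x, P b ∧ cnt P x = cnt P b + 1 := by
  induction x with
  | zero => simp [cnt_zero] at h
  | succ x ih =>
    by_cases k : P x
    · exact ⟨x, by omega, k, cnt_pos k⟩
    · rw [cnt_neg k] at h ⊢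
      obtain ⟨b, h1, h2⟩ := ih h
      exact ⟨b, by omega, h2⟩

end Pool.Agent.Chomp
end

-- merged part: Pool.Agent.Work.MP_ff0f6a_lc.Basic
section
/-!
Structure of the table: the diagonal entry is the largest of its column, a terminal value has
filled its whole line, and the basic counting inequalities.
-/

namespace Pool.Agent.Chomp

section
variable (f : ℕ → ℕ → ℕ)

/-- `s` is a diagonal value of a row before `x` -/
def DD (x s : ℕ) : Prop := ∃ a < x, f a a = s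

/-- `s` is the terminal value of a row before `x` -/
def Dead (x s : ℕ) : Prop := ∃ b < x, b ≤ s ∧ f s b = s

/-- the row `b` has the value `p` in a column `≤ C` -/
def U (p C b : ℕ) : Prop := ∃ q, b ≤ q ∧ q ≤ C ∧ q ≤ p ∧ f q b = p

/-- the cell `(q, p)` is filled by a row before `x` -/
def Fl (p x q : ℕ) : Prop := q ≤ p ∧ ∃ b < x, b ≤ q ∧ f q b = p

/-- the row `b` ends at a column `≤ y` -/
def Sh (y b : ℕ) : Prop := b ≤ y ∧ f y b ≤ y

def Term (b : ℕ) : Prop := ∃ y, Sh f y b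

/-- all values of the row `b` are below `p` -/
def Low (p b : ℕ) : Prop := ∀ q, b ≤ q → f q b < p

/-- skipped values -/
def Sk (C x s : ℕ) : Prop := 1 ≤ s ∧ ¬ DD f x s ∧ ¬ U f s C x

noncomputable def th (y : ℕ) : ℕ := cnt (Sh f y) (y + 1)

noncomputable def de (y : ℕ) : ℕ := cnt (fun a => f a a ≤ y) y

noncomputable def tm (b : ℕ) : ℕ := sInf {y | Sh f y b}

end

variable {f : ℕ → ℕ → ℕ} {a b c p q r s t x y C : ℕ}

lemma U.mono {C' : ℕ} (h : U f p C b) (k : C ≤ C') : U f p C' b :=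
  let ⟨q, h1, h2, h3⟩ := h
  ⟨q, h1, h2.trans k, h3⟩

lemma U.top (h : U f p C b) : U f p p b :=
  let ⟨q, h1, _, h3, h4⟩ := h
  ⟨q, h1, h3, h3, h4⟩

lemma U.not_low (h : U f p C b) (k : s ≤ p) : ¬ Low f s b := fun l =>
  let ⟨q, h1, _, _, h4⟩ := h
  by have := l q h1; omega

lemma DD.mono (h : DD f x s) (k : x ≤ y) : DD f y s :=
  let ⟨a, h1, h2⟩ := h
  ⟨a, by omega, h2⟩

lemma Dead.mono (h : Dead f x s) (k : x ≤ y) : Dead f y s :=
  let ⟨a, h1, h2⟩ := h
  ⟨a, by omega, h2⟩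

lemma Low.term (h : Low f p b) : Term f b :=
  ⟨max b p, le_max_left _ _, (h _ (le_max_left _ _)).le.trans (le_max_right _ _)⟩

lemma cnt_sh_le : cnt (Sh f y) x ≤ th f y := by
  rcases le_total x (y + 1) with h | h
  · exact cnt_mono h
  · exact (cnt_stable h fun b h1 _ k => by have := k.1; omega).le

namespace Mex

variable (H : Mex f)
include H

lemma sh_mono {y' : ℕ} (h : Sh f y b) (k : y ≤ y') : Sh f y' b ∧ f y' b = f y b := by
  have := H.stay h.1 (h.1.trans k) h.2 (h.2.trans k)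
  exact ⟨⟨h.1.trans k, this ▸ h.2.trans k⟩, this⟩

lemma sh_val (h : Sh f y b) : b ≤ f y b ∧ f (f y b) b = f y b :=
  ⟨H.ge h.1, H.stay h.1 (H.ge h.1) h.2 le_rfl⟩

lemma tm_spec (h : Term f b) : b < tm f b ∧ f (tm f b) b = tm f b := by
  have h1 : Sh f (tm f b) b := Nat.sInf_mem (s := {y | Sh f y b}) h
  have h2 := H.sh_val h1
  have h3 : tm f b ≤ f (tm f b) b := Nat.sInf_le (s := {y | Sh f y b}) ⟨h2.1, h2.2.le⟩
  have h4 := le_antisymm h1.2 h3
  refine ⟨lt_of_le_of_ne h1.1 fun k => ?_, h4⟩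
  have := H.diag b
  rw [← k] at h4
  omega

lemma sh_iff : Sh f y b ↔ Term f b ∧ tm f b ≤ y :=
  ⟨fun h => ⟨⟨y, h⟩, Nat.sInf_le (s := {y | Sh f y b}) h⟩, fun h =>
    (H.sh_mono ⟨(H.tm_spec h.1).1.le, (H.tm_spec h.1).2.le⟩ h.2).1⟩

lemma sh_eq (h : Sh f y b) : f y b = tm f b := by
  obtain ⟨h1, h2⟩ := H.sh_iff.1 h
  obtain ⟨h3, h4⟩ := H.tm_spec h1
  rw [(H.sh_mono ⟨h3.le, h4.le⟩ h2).2, h4]

lemma tm_eq (h : b ≤ t) (k : f t b = t) : Term f b ∧ tm f b = t :=
  ⟨⟨t, h, k.le⟩, (H.sh_eq ⟨h, k.le⟩).symm.trans k⟩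

lemma tm_inj (h : Term f b) (h' : Term f c) (k : b < c) : tm f b ≠ tm f c := fun e =>
  H.col k (H.tm_spec h').1.le (by rw [(H.tm_spec h').2, ← e, (H.tm_spec h).2])

lemma diag_inj (h : a < b) : f a a ≠ f b b := (H.dd h le_rfl).symm

lemma alive_mono (h : C ≤ f C x) (h1 : x ≤ q) (h2 : q ≤ C) : q ≤ f q x := by
  by_contra k
  have := H.stay h1 (h1.trans h2) (by omega) (show f q x ≤ C by omega)
  omega

lemma alive_inj {q' : ℕ} (h : C ≤ f C x) (h1 : x ≤ q) (h2 : q < q') (h3 : q' ≤ C) :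
    f q x ≠ f q' x := fun e => by
  have k1 := H.row h1 h2 e
  have k2 := H.alive_mono h (h1.trans h2.le) h3
  omega

/-- the diagonal entry is the largest entry of its column -/
theorem colmax (h : b < q) : f q b < f q q := by
  classical
  by_contra h0
  obtain ⟨b, hb, h1, h2⟩ : ∃ b < q, f q q < f q b ∧ ∀ b', b < b' → b' < q → f q b' < f q q := by
    have e : ∃ b < q, f q q < f q b :=
      ⟨b, h, lt_of_le_of_ne (not_lt.1 h0) (H.col h le_rfl).symm⟩
    obtain ⟨b0, k1, k2⟩ := e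
    have k3 := Nat.findGreatest_spec (P := fun b => b < q ∧ f q q < f q b) k1.le ⟨k1, k2⟩
    refine ⟨_, k3.1, k3.2, fun b' k4 k5 => lt_of_le_of_ne (not_lt.1 fun k6 => ?_) (H.col k5 le_rfl)⟩
    exact Nat.findGreatest_is_greatest k4 k5.le ⟨k5, k6⟩
  have := cnt_rel (P := fun c => b + 1 ≤ c ∧ c < q + 1) (x := q + 1)
    (Q := fun c => b + 1 ≤ c ∧ c < q) (y := q) (fun c q' => c ≤ q ∧ f q' b = f q c)
    (fun c _ hc => by
      have k1 : f q c < f q b := by
        rcases (show c < q ∨ c = q by omega) with k | rfl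
        exacts [(h2 c (by omega) k).trans h1, h1]
      rcases H.mex hb.le (H.pos (show c ≤ q by omega)) k1 with ⟨a, k2, k⟩ | ⟨q', k2, k3, k⟩ |
        ⟨b', k2, k⟩
      · exact absurd k.symm (H.dd (by omega) (by omega))
      · refine ⟨q', k3, ⟨lt_of_le_of_ne k2 fun e => ?_, k3⟩, by omega, k⟩
        exact H.dd (show b < c by omega) (show c ≤ q by omega) (by rw [← k, ← e])
      · exact absurd k (H.col (by omega) (by omega)))
    fun c c' s k k1 k2 => H.col k k1.1 (k2.2.symm.trans k1.2)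
  rw [cnt_Ico, cnt_Ico] at this
  omega

lemma fl_lt (h : Fl f p x q) (hD : ¬ DD f x p) : p < f q q := by
  obtain ⟨-, b, h1, h2, h3⟩ := h
  rcases h2.lt_or_eq with k | rfl
  · exact h3 ▸ H.colmax k
  · exact absurd ⟨b, h1, h3⟩ hD

lemma fl_of_lt (h : p < f q q) (h1 : 1 ≤ p) (h2 : q ≤ p) (hD : ¬ DD f q p) : Fl f p q q := by
  rcases H.mex le_rfl h1 h with k | ⟨q', k1, k2, -⟩ | ⟨b, k1, k2⟩
  · exact absurd k hD
  · omega
  · exact ⟨h2, b, k1, k1.le, k2⟩

/-- a terminal value has filled its line -/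
theorem sat (h : b ≤ p) (e : f p b = p) (h1 : b ≤ q) (h2 : q ≤ p) : Fl f p (b + 1) q := by
  classical
  by_contra h0
  obtain ⟨q, hq, h1, h0, h3⟩ : ∃ q < p, b ≤ q ∧ ¬ Fl f p (b + 1) q ∧
      ∀ q', q < q' → q' ≤ p → Fl f p (b + 1) q' := by
    have k3 := Nat.findGreatest_spec (P := fun q => b ≤ q ∧ ¬ Fl f p (b + 1) q) h2 ⟨h1, h0⟩
    refine ⟨_, lt_of_le_of_ne (Nat.findGreatest_le p) fun k => k3.2 ?_, k3.1, k3.2,
      fun q' k4 k5 => by_contra fun k6 => Nat.findGreatest_is_greatest k4 k5 ⟨by omega, k6⟩⟩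
    rw [k]
    exact ⟨le_rfl, b, by omega, h, e⟩
  have := cnt_rel (P := fun c => q + 1 ≤ c ∧ c < p + 1) (x := p + 1)
    (Q := fun c => q + 1 ≤ c ∧ c < p) (y := p)
    (fun q' v => q < q' ∧ q' ≤ p ∧ ∃ c ≤ b, f q' c = p ∧ f q c = v)
    (fun q' _ hc => by
      obtain ⟨-, c, k1, k2, k3⟩ := h3 q' (by omega) (by omega)
      have k4 : q < f q c := by
        by_contra k
        have := H.stay (show c ≤ q by omega) k2 (by omega) (by omega)
        omega
      have k5 : f q c < p := by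
        refine lt_of_le_of_ne (not_lt.1 fun k => ?_) fun k => h0 ⟨hq.le, c, k1, by omega, k⟩
        rcases H.mex (show c ≤ q by omega) (by omega) k with ⟨a, k6, k⟩ | ⟨q'', k6, k7, k⟩ |
          ⟨b', k6, k⟩
        · exact H.dd k6 k2 (k3.trans k.symm)
        · have := H.row k6 (show q'' < q' by omega) (k.trans k3.symm)
          omega
        · exact h0 ⟨hq.le, b', by omega, by omega, k⟩
      exact ⟨_, k5, ⟨k4, k5⟩, by omega, by omega, c, by omega, k3, rfl⟩)
    fun q1 q2 s k ⟨_, k1, c, k2, k3, k4⟩ ⟨k5, _, c', k6, k7, k8⟩ => by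
      rcases lt_trichotomy c c' with e' | rfl | e'
      · exact H.col e' (by omega) (k4.trans k8.symm)
      · have := H.row (show c ≤ q2 by omega) k (k7.trans k3.symm)
        omega
      · exact H.col e' (by omega) (k8.trans k4.symm)
  rw [cnt_Ico, cnt_Ico] at this
  omega

lemma dead_ne (h : Dead f r s) (k : r ≤ q) : f q r ≠ s := by
  obtain ⟨b, h1, h2, h3⟩ := h
  have key : ∀ q, r ≤ q → q ≤ s → f q r ≠ s := fun q k k' e => by
    obtain ⟨-, c, k1, k2, k3⟩ := H.sat h2 h3 (show b ≤ q by omega) k'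
    exact H.col (show c < r by omega) k (k3.trans e.symm)
  intro e
  rcases le_total q s with k' | k'
  · exact key q k k' e
  · have k1 := H.ge k
    exact key s (by omega) le_rfl ((H.stay k (by omega) (by omega) e.le).trans e)

lemma dead_not_U (h : Dead f r s) : ¬ U f s C r := fun ⟨_, k, _, _, e⟩ => H.dead_ne h k e

lemma dead_not_dd (h : Dead f x s) : ¬ DD f y s := by
  obtain ⟨b, h1, h2, h3⟩ := h
  rintro ⟨a, -, e⟩
  rcases lt_trichotomy a b with k | rfl | k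
  · exact H.dd k h2 (h3.trans e.symm)
  · have k1 := H.diag a
    have := H.row le_rfl (show a < s by omega) (e.trans h3.symm)
    omega
  · exact H.dead_ne ⟨b, k, h2, h3⟩ le_rfl e

lemma dd_or_dead (h : 1 ≤ s) : DD f s s ∨ Dead f s s := by
  rcases H.mex le_rfl h (H.diag s) with k | ⟨q', k1, k2, -⟩ | ⟨b, k1, k2⟩
  · exact .inl k
  · omega
  · exact .inr ⟨b, k1, k1.le, k2⟩

lemma dead_tm (h : Term f b) (k : b < x) : Dead f x (tm f b) :=
  ⟨b, k, (H.tm_spec h).1.le, (H.tm_spec h).2⟩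

lemma th_eq (y : ℕ) : th f y = cnt (fun p => Dead f p p) (y + 1) := by
  refine le_antisymm (cnt_inj (tm f) (fun b _ k => ?_) fun b _ b' k h h' => ?_)
    (cnt_surj (tm f) fun s hs ⟨b, k1, k2, k3⟩ => ?_)
  · obtain ⟨k1, k2⟩ := H.sh_iff.1 k
    exact ⟨by omega, H.dead_tm k1 (H.tm_spec k1).1⟩
  · exact H.tm_inj ⟨_, h'⟩ ⟨_, h⟩ k
  · obtain ⟨k4, k5⟩ := H.tm_eq k2 k3
    exact ⟨b, by omega, H.sh_iff.2 ⟨k4, by omega⟩, k5⟩

lemma de_eq (y : ℕ) : de f y = cnt (fun p => DD f p p) (y + 1) := by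
  refine le_antisymm (cnt_inj (fun a => f a a) (fun b _ k => ?_) fun b _ b' k _ _ => ?_)
    (cnt_surj (fun a => f a a) fun s hs ⟨b, k1, k2⟩ => ?_)
  · exact ⟨by omega, b, H.diag b, rfl⟩
  · exact H.diag_inj k
  · exact ⟨b, by omega, by omega, k2⟩

theorem th_add_de (y : ℕ) : th f y + de f y = y := by
  rw [H.th_eq, H.de_eq]
  induction y with
  | zero =>
    rw [cnt_false, cnt_false]
    · rintro b hb ⟨a, k, -⟩
      omega
    · rintro b hb ⟨a, k, -⟩
      omega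
  | succ y ih =>
    rcases H.dd_or_dead (show 1 ≤ y + 1 by omega) with k | k
    · rw [cnt_neg (P := fun p => Dead f p p) fun k' => H.dead_not_dd k' k,
        cnt_pos (P := fun p => DD f p p) k]
      omega
    · rw [cnt_pos (P := fun p => Dead f p p) k,
        cnt_neg (P := fun p => DD f p p) (H.dead_not_dd k)]
      omega

lemma th_mono {y' : ℕ} (h : y ≤ y') : th f y ≤ th f y' := by
  rw [H.th_eq, H.th_eq]
  exact cnt_mono (by omega)

lemma sh_diff {y' : ℕ} (h : y ≤ y') (x : ℕ) :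
    cnt (Sh f y') x + th f y ≤ cnt (Sh f y) x + th f y' := by
  have h1 := cnt_incr (P := Sh f y) (Q := Sh f y') (le_max_left x (y' + 1))
    fun b _ _ k => (H.sh_mono k h).1
  have h2 : cnt (Sh f y) (max x (y' + 1)) = th f y :=
    cnt_stable (by omega) fun b k _ k' => by have := k'.1; omega
  have h3 := cnt_sh_le (f := f) (y := y') (x := max x (y' + 1))
  omega

lemma kfill (p C x : ℕ) : cnt (U f p C) x = cnt (Fl f p x) (C + 1) := by
  refine le_antisymm (cnt_rel (fun b q => b ≤ q ∧ f q b = p) ?_ ?_)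
    (cnt_rel (fun q b => b ≤ q ∧ q ≤ p ∧ f q b = p) ?_ ?_)
  · rintro b hb ⟨q, k1, k2, k3, k4⟩
    exact ⟨q, by omega, ⟨k3, b, hb, k1, k4⟩, k1, k4⟩
  · exact fun b b' q k k1 k2 => H.col k k1.1 (k2.2.trans k1.2.symm)
  · rintro q hq ⟨k1, b, k2, k3, k4⟩
    exact ⟨b, k2, ⟨q, k3, by omega, k1, k4⟩, k3, k1, k4⟩
  · intro q q' b k k1 k2
    have := H.row k2.1 k (k2.2.2.trans k1.2.2.symm)
    omega

/-- the inequality at a miss -/
theorem miss (hx : x ≤ C) (hp : C ≤ p) (ha : C ≤ f C x) (h : Sk f C x p) :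
    C + 2 + cnt (Sk f C x) p ≤ p + cnt (U f p C) x := by
  obtain ⟨h1, hD, hU⟩ := h
  have k1 := cnt_inj (P := fun q => ¬ Fl f p x q) (x := C + 1)
    (Q := fun s => s ≠ 0 ∧ ¬ Sk f C x s) (y := p) (fun q => f q (min q x))
    (fun q hq hf => by
      have := H.pos (min_le_left q x)
      rcases lt_or_ge q x with e | e
      · rw [min_eq_left e.le] at this ⊢
        refine ⟨lt_of_le_of_ne (not_lt.1 fun k => ?_) fun k => hD ⟨q, e, k⟩, by omega,
          fun k => k.2.1 ⟨q, e, rfl⟩⟩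
        obtain ⟨k2, b, k3, k4⟩ := H.fl_of_lt k h1 (by omega) fun k' => hD (k'.mono e.le)
        exact hf ⟨k2, b, by omega, k4⟩
      · rw [min_eq_right e] at this ⊢
        refine ⟨lt_of_le_of_ne (not_lt.1 fun k => ?_) fun k => hU ⟨q, e, by omega, by omega, k⟩,
          by omega, fun k => k.2.2 ⟨q, e, by omega, H.alive_mono ha e (by omega), rfl⟩⟩
        rcases H.mex e h1 k with k' | ⟨q', k2, k3, k'⟩ | ⟨b, k2, k'⟩
        · exact hD k'
        · exact hU ⟨q', k2, by omega, by omega, k'⟩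
        · exact hf ⟨by omega, b, k2, by omega, k'⟩)
    fun q hq q' k _ _ => by
      rcases lt_or_ge q' x with e | e
      · rw [min_eq_left e.le]
        exact (H.dd (lt_min k e) (min_le_left _ _)).symm
      · rw [min_eq_right e, min_eq_right (by omega)]
        exact H.alive_inj ha e k (by omega)
  have k2 := cnt_not (Fl f p x) (C + 1)
  have k3 := cnt21 (P := fun s => s ≠ 0 ∧ ¬ Sk f C x s) (Q := Sk f C x) (R := fun s => s ≠ 0)
    (x := p) fun s _ => ⟨fun k => k.1, fun k => by have := k.1; omega, fun k => k.2⟩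
  have k4 := cnt_ne (show 0 < p by omega)
  rw [H.kfill]
  omega

/-- the inequality at a use -/
lemma use (h : U f p C x) : p ≤ 1 + cnt (Sk f C x) p + C := by
  obtain ⟨q, h1, h2, h3, h4⟩ := h
  have k1 := cnt_surj (P := fun q' => q' ≠ q) (x := C + 1)
    (Q := fun s => s ≠ 0 ∧ ¬ Sk f C x s) (y := p) (fun q => f q (min q x)) fun s hs k => by
      by_cases e : DD f x s
      · obtain ⟨a, e1, e2⟩ := e
        exact ⟨a, by omega, by omega, by rwa [min_eq_left e1.le]⟩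
      · obtain ⟨q', e1, e2, -, e3⟩ : U f s C x := by_contra fun e' => k.2 ⟨by omega, e, e'⟩
        exact ⟨q', by omega, by rintro rfl; omega, by rwa [min_eq_right e1]⟩
  have k2 := cnt12 (P := fun s => s ≠ 0) (R := fun s => s ≠ 0 ∧ ¬ Sk f C x s) (S := Sk f C x)
    (x := p) fun s _ k => by tauto
  have k3 := cnt_ne (show 0 < p from h4 ▸ H.pos h1)
  have k4 := cnt_ne (show q < C + 1 by omega)
  omega

lemma ustep' (ha : C ≤ f C x) (h : U f p C x) :
    p ≤ C + 1 + cnt (Sh f C) x ∨ ∃ s < p, p ≤ s + cnt (U f s C) x := by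
  have h1 := H.use h
  have hx : x ≤ C := by
    obtain ⟨q, k1, k2, -⟩ := h
    omega
  rcases Nat.eq_zero_or_pos (cnt (Sk f C x) p) with e | e
  · omega
  obtain ⟨s, k1, k2, k3⟩ := exists_last e
  rcases le_or_gt C s with e' | e'
  · have := H.miss hx e' ha k2
    exact .inr ⟨s, k1, by omega⟩
  · have := cnt_surj (P := Sh f C) (x := x) (Q := Sk f C x) (y := s + 1) (f C) fun s' hs k => by
      rcases H.mex hx k.1 (show s' < f C x by omega) with k' | ⟨q', k4, k5, k'⟩ | ⟨b, k4, k'⟩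
      · exact absurd k' k.2.1
      · exact absurd ⟨q', k4, k5.le, k' ▸ H.alive_mono ha k4 k5.le, k'⟩ k.2.2
      · exact ⟨b, k4, ⟨by omega, by omega⟩, k'⟩
    rw [cnt_pos k2] at this
    omega

lemma ustep (h : U f p C x) :
    p ≤ C + 1 + cnt (Sh f C) x ∨ ∃ s < p, p ≤ s + cnt (U f s C) x := by
  by_cases ha : C ≤ f C x
  · exact H.ustep' ha h
  obtain ⟨q, h1, h2, h3, h4⟩ := h
  have k1 := H.sh_val (y := C) (b := x) ⟨by omega, by omega⟩
  have k2 : q ≤ f C x := by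
    by_contra k
    have := H.stay (q := f C x) (q' := q) k1.1 h1 k1.2.le (by omega)
    omega
  rcases H.ustep' (C := f C x) k1.2.ge ⟨q, h1, k2, h3, h4⟩ with k | ⟨s, k3, k⟩
  · have := cnt11 (P := Sh f (f C x)) (R := Sh f C) (x := x) fun b _ k =>
      (H.sh_mono k (by omega)).1
    omega
  · have := cnt11 (P := U f s (f C x)) (R := U f s C) (x := x) fun b _ k => k.mono (by omega)
    exact .inr ⟨s, k3, by omega⟩

/-- the upper chain -/
theorem uchain (h : U f p C x) : ∃ p1 ≤ p, ∃ x1 ≤ x, p1 ≤ C + 1 + cnt (Sh f C) x1 ∧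
    p + cnt (fun b => ¬ Term f b) x1 + cnt (Low f p1) x ≤ p1 + x := by
  induction p using Nat.strong_induction_on generalizing x with
  | _ p ih =>
    rcases H.ustep h with k | ⟨s, k1, k⟩
    · have := cnt_disj (P := fun b => ¬ Term f b) (Q := Low f p) (x := x) fun b _ k k' => k k'.term
      exact ⟨p, le_rfl, x, le_rfl, k, by omega⟩
    · obtain ⟨x', k2, k3, k4⟩ := exists_first (show 1 ≤ cnt (U f s C) x by omega)
      obtain ⟨p1, k5, x1, k6, k7, k8⟩ := ih s k1 k3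
      have := cnt_incr_disj (P := U f s C) (Q := Low f p1) k2.le fun b _ _ k => k.not_low k5
      exact ⟨p1, by omega, x1, by omega, k7, by omega⟩

end Mex

end Pool.Agent.Chomp
end

-- merged part: Pool.Agent.Work.MP_ff0f6a_lc.Sum
section
/-!
A double counting argument with exponential weights.
-/

namespace Pool.Agent.Chomp

open Finset Real

lemma geo_le {r : ℝ} (h0 : 0 ≤ r) (h1 : r < 1) {A : Finset ℕ} {g : ℕ → ℕ} (hg : Set.InjOn g A) :
    ∑ c ∈ A, r ^ g c ≤ (1 - r)⁻¹ := by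
  rw [← sum_image (f := fun k => r ^ k) hg, ← tsum_geometric_of_lt_one h0 h1]
  exact (summable_geometric_of_lt_one h0 h1).sum_le_tsum _ fun _ _ => pow_nonneg h0 _

lemma exists_weights {δ K : ℝ} (hδ : 0 < δ) (hK : 0 ≤ K) : ∃ β > (0 : ℝ), ∃ m : ℕ,
    exp (β * K) * (1 - exp (-(β * (1 + δ))))⁻¹ < ∑ k ∈ range m, exp (-β) ^ k := by
  obtain ⟨β, h0, h1⟩ : ∃ β > (0 : ℝ), β * ((1 + δ) * (1 + K)) < δ :=
    ⟨δ / (2 * ((1 + δ) * (1 + K))), by positivity, by field_simp; linarith only []⟩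
  have e1 : exp (-β) < 1 := exp_lt_one_iff.2 (by linarith)
  have e2 : exp (-(β * (1 + δ))) < 1 := exp_lt_one_iff.2 (by linarith only [h0, hδ, mul_pos_of_neg_of_neg (Mathlib.Tactic.Linarith.sub_neg_of_lt hδ) (Mathlib.Tactic.Linarith.sub_neg_of_lt h0)])
  have key : exp (β * K) * (1 - exp (-(β * (1 + δ))))⁻¹ < (1 - exp (-β))⁻¹ := by
    have k1 : 1 - exp (-β) ≤ β := by linarith [add_one_le_exp (-β)]
    have k2 : exp (-(β * (1 + δ))) * (1 + β * (1 + δ)) ≤ 1 := by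
      rw [exp_neg, inv_mul_le_iff₀ (exp_pos _)]
      linarith [add_one_le_exp (β * (1 + δ))]
    have k3 : exp (β * K) * (1 - β * K) ≤ 1 := by
      have := add_one_le_exp (-(β * K))
      rw [exp_neg] at this
      calc exp (β * K) * (1 - β * K) ≤ exp (β * K) * (exp (β * K))⁻¹ := by
            gcongr
            linarith only [this]
        _ = 1 := mul_inv_cancel₀ (exp_pos _).ne'
    have k4 : 0 < β * (1 + δ) := by positivity
    have k5 : 0 ≤ β * K := by positivity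
    have k6 : 1 + β * (1 + δ) < (1 + δ) * (1 - β * K) := by linarith only [h1]
    have k7 : 0 < 1 - β * K := by (refine lt_of_not_ge fun h_nl => ?_; linarith only [h_nl, h0, h1, hδ, mul_pos_of_neg_of_neg (Mathlib.Tactic.Linarith.sub_neg_of_lt hδ) (Mathlib.Tactic.Linarith.sub_neg_of_lt h0), mul_nonneg_of_nonpos_of_nonpos (le_of_lt (Mathlib.Tactic.Linarith.sub_neg_of_lt hδ)) (Mathlib.Tactic.Linarith.sub_nonpos_of_le h_nl)])
    rw [mul_inv_lt_iff₀ (by linarith only [e2]), lt_inv_mul_iff₀ (by linarith only [e1])]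
    have k8 : exp (β * K) * (1 + β * (1 + δ)) < 1 + δ := by
      have := exp_pos (β * K)
      linarith only [k3, hδ, h1, this, mul_nonneg_of_nonpos_of_nonpos (le_of_lt (Mathlib.Tactic.Linarith.sub_neg_of_lt hδ)) (Mathlib.Tactic.Linarith.sub_nonpos_of_le k3), mul_pos_of_neg_of_neg (Mathlib.Tactic.Linarith.sub_neg_of_lt h1) (Mathlib.Tactic.Linarith.sub_neg_of_lt this)]
    have k9 : β * (1 + δ) ≤ (1 - exp (-(β * (1 + δ)))) * (1 + β * (1 + δ)) := by linarith only [k2]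
    have k10 : (1 - exp (-β)) * exp (β * K) ≤ β * exp (β * K) := by
      gcongr
    refine k10.trans_lt (lt_of_mul_lt_mul_right (lt_of_lt_of_le ?_ k9) (by linarith only [k4]))
    rw [mul_assoc]
    gcongr
  have := (hasSum_geometric_of_lt_one (exp_pos (-β)).le e1).tendsto_sum_nat
  exact ⟨β, h0, (this.eventually_const_lt key).exists⟩

theorem dbound {δ K ρ δ' : ℝ} (hδ : 0 < δ) (hK : 0 ≤ K) (hρ : ρ < 1) (hδ' : 0 < δ') :
    ∃ m : ℕ, ∀ K2 : ℝ, ∃ B : ℝ, ∀ (A : Finset ℕ) (φ : ℕ → ℝ) (t : ℕ → ℕ) (Z : ℕ → ℕ → Prop)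
      (κ z : ℕ → ℕ → ℕ), Set.InjOn t A →
      (∀ b, ∀ c ∈ A, ∀ c' ∈ A, Z b c → Z b c' → z b c = z b c' → c = c') →
      (∀ M, 0 ≤ M → (∀ b ∈ A, φ b ≤ M) → ∀ c ∈ A, φ c ≤ K2 + ρ * M - δ' * t c ∨
        ∀ k < m, ∃ b ∈ A, Z b c ∧ κ b c = k ∧ φ c ≤ φ b + K + k - (1 + δ) * z b c) →
      ∀ c ∈ A, φ c ≤ B := by
  classical
  obtain ⟨β, hβ, m, hm⟩ := exists_weights hδ hK
  set v := exp (-(β * (1 + δ))) with hv
  set a := ∑ k ∈ range m, exp (-β) ^ k with ha
  set q := exp (β * K) * (1 - v)⁻¹ with hq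
  have v1 : v < 1 := exp_lt_one_iff.2 (by linarith only [hβ, hδ, mul_pos_of_neg_of_neg (Mathlib.Tactic.Linarith.sub_neg_of_lt hδ) (Mathlib.Tactic.Linarith.sub_neg_of_lt hβ)])
  have v0 : 0 < v := exp_pos _
  have q0 : 0 < q := mul_pos (exp_pos _) (inv_pos.2 (by linarith only [v1]))
  set r := exp (-(β * δ')) with hr
  have r1 : r < 1 := exp_lt_one_iff.2 (by linarith only [hδ', hβ, mul_pos_of_neg_of_neg (Mathlib.Tactic.Linarith.sub_neg_of_lt hδ') (Mathlib.Tactic.Linarith.sub_neg_of_lt hβ)])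
  have r0 : 0 < r := exp_pos _
  have Q0 : 0 < a / (a - q) * (1 - r)⁻¹ :=
    mul_pos (div_pos (by linarith only [hm, q0]) (by linarith only [hm])) (inv_pos.2 (by linarith only [r1]))
  refine ⟨m, fun K2 => ⟨max 0 ((log (a / (a - q) * (1 - r)⁻¹) / β + K2) / (1 - ρ)), ?_⟩⟩
  intro A φ t Z κ z ht hz h c hc
  obtain ⟨c0, hc0, hmax⟩ := A.exists_max_image φ ⟨c, hc⟩
  refine (hmax c hc).trans ?_
  rcases le_or_gt (φ c0) 0 with e | e
  · exact e.trans (le_max_left _ _)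
  refine le_max_of_le_right ?_
  replace h := h (φ c0) e.le hmax
  set G := fun c => φ c ≤ K2 + ρ * φ c0 - δ' * t c with hG
  have h1 : ∀ c ∈ A.filter fun c => ¬ G c, a * exp (β * φ c) ≤
      exp (β * K) * ∑ b ∈ A, if Z b c then exp (β * φ b) * v ^ z b c else 0 := by
    intro c hc
    obtain ⟨hc, hg⟩ := mem_filter.1 hc
    choose! g hg1 hg2 hg3 hg4 using (h c hc).resolve_left hg
    rw [ha, sum_mul, ← sum_filter, mul_sum]
    calc ∑ k ∈ range m, exp (-β) ^ k * exp (β * φ c)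
        ≤ ∑ k ∈ range m, exp (β * K) * (exp (β * φ (g k)) * v ^ z (g k) c) := by
          refine sum_le_sum fun k hk => ?_
          rw [hv, ← exp_nat_mul, ← exp_nat_mul, ← exp_add, ← exp_add, ← exp_add, exp_le_exp]
          have := mul_le_mul_of_nonneg_left (hg4 k (mem_range.1 hk)) hβ.le
          linarith only [this]
      _ = ∑ b ∈ (range m).image g, exp (β * K) * (exp (β * φ b) * v ^ z b c) :=
          (sum_image (f := fun b => exp (β * K) * (exp (β * φ b) * v ^ z b c))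
            fun k hk k' hk' e => by
              rw [← hg3 k (mem_range.1 hk), e, hg3 k' (mem_range.1 hk')]).symm
      _ ≤ _ := sum_le_sum_of_subset_of_nonneg (fun b hb => by
          obtain ⟨k, hk, rfl⟩ := mem_image.1 hb
          exact mem_filter.2 ⟨hg1 k (mem_range.1 hk), hg2 k (mem_range.1 hk)⟩)
          fun _ _ _ => by positivity
  have h2 : a * ∑ c ∈ A with ¬ G c, exp (β * φ c) ≤ q * ∑ b ∈ A, exp (β * φ b) := by
    rw [mul_sum]
    refine (sum_le_sum h1).trans ?_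
    rw [← mul_sum, sum_comm, hq, mul_assoc, mul_sum A _ (1 - v)⁻¹]
    gcongr with b hb
    rw [← sum_filter, ← mul_sum, mul_comm]
    gcongr
    refine geo_le v0.le v1 fun c hc c' hc' e => ?_
    simp only [coe_filter, mem_filter, Set.mem_ofPred_eq] at hc hc'
    exact hz b c hc.1.1 c' hc'.1.1 hc.2 hc'.2 e
  have h3 : ∑ c ∈ A with G c, exp (β * φ c) ≤ exp (β * (K2 + ρ * φ c0)) * (1 - r)⁻¹ := by
    calc ∑ c ∈ A with G c, exp (β * φ c)
        ≤ ∑ c ∈ A with G c, exp (β * (K2 + ρ * φ c0)) * r ^ t c := by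
          refine sum_le_sum fun c hc => ?_
          rw [hr, ← exp_nat_mul, ← exp_add, exp_le_exp]
          have := mul_le_mul_of_nonneg_left (mem_filter.1 hc).2 hβ.le
          linarith only [this]
      _ ≤ _ := by
          rw [← mul_sum]
          gcongr
          exact geo_le r0.le r1 (ht.mono (coe_subset.2 (filter_subset _ _)))
  have h4 := sum_filter_add_sum_filter_not A G fun c => exp (β * φ c)
  have h5 : exp (β * φ c0) ≤ ∑ b ∈ A, exp (β * φ b) :=
    single_le_sum (f := fun b => exp (β * φ b)) (fun _ _ => (exp_pos _).le) hc0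
  have h6 : exp (β * φ c0) ≤ a / (a - q) * (1 - r)⁻¹ * exp (β * (K2 + ρ * φ c0)) := by
    refine h5.trans ?_
    rw [mul_assoc, div_mul_eq_mul_div, le_div_iff₀ (by linarith only [hm])]
    have : a * ∑ c ∈ A with G c, exp (β * φ c) ≤ a * ((1 - r)⁻¹ * exp (β * (K2 + ρ * φ c0))) := by
      rw [mul_comm (1 - r)⁻¹]
      gcongr
    (refine le_of_not_gt fun h_nl => ?_; linarith only [h_nl, h2, this, hm, h4, v1, v0, q0, Mathlib.Tactic.Linarith.mul_zero_eq (Mathlib.Tactic.Linarith.sub_neg_of_lt hm) (sub_eq_zero_of_eq h4), mul_pos_of_neg_of_neg (Mathlib.Tactic.Linarith.sub_neg_of_lt v1) (Mathlib.Tactic.Linarith.sub_neg_of_lt h_nl), mul_pos_of_neg_of_neg (Mathlib.Tactic.Linarith.sub_neg_of_lt v0) (Mathlib.Tactic.Linarith.sub_neg_of_lt h_nl), Mathlib.Tactic.Linarith.mul_zero_eq (Mathlib.Tactic.Linarith.sub_neg_of_lt q0) (sub_eq_zero_of_eq h4)])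
  have h7 := log_le_log (exp_pos _) h6
  rw [log_mul Q0.ne' (exp_pos _).ne', log_exp, log_exp] at h7
  rw [le_div_iff₀ (by linarith only [hρ]), ← sub_le_iff_le_add, le_div_iff₀ hβ]
  linarith only [h7]

end Pool.Agent.Chomp
end

-- merged part: Pool.Agent.Work.MP_ff0f6a_lc.Vb
section
/-!
An upper bound for the number of rows that outlast a terminated row.
-/

namespace Pool.Agent.Chomp

variable {f : ℕ → ℕ → ℕ} {b c p q s t x y C : ℕ} {P Q R : ℕ → Prop}

lemma cnt_split (P : ℕ → Prop) (b x : ℕ) :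
    cnt P x ≤ cnt P b + 1 + cnt (fun b' => b < b' ∧ P b') x := by
  have h1 := cnt_succ_le (P := P) (x := b)
  rcases le_total x (b + 1) with h | h
  · have := cnt_mono (P := P) h
    omega
  · have := cnt_incr (P := P) (Q := fun b' => b < b' ∧ P b') h fun b' k _ k' => ⟨k, k'⟩
    omega

lemma cnt_join (h : c ≤ x) (h1 : ∀ b < c, P b → R b) (h2 : ∀ b < x, c < b → Q b → R b) :
    cnt P c + cnt (fun b => c < b ∧ Q b) x ≤ cnt R x := by
  have k1 := cnt_incr (P := fun b => c < b ∧ Q b) (Q := R) h fun b _ k k' => h2 b k k'.1 k'.2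
  have k2 := cnt11 h1
  have k3 : cnt (fun b => c < b ∧ Q b) c = 0 := cnt_false fun b hb k => by omega
  omega

lemma exists_rank {k : ℕ} (h : k < cnt P x) :
    ∃ b < x, P b ∧ cnt (fun b' => b < b' ∧ P b') x = k := by
  induction x generalizing k with
  | zero => simp [cnt_zero] at h
  | succ x ih =>
    by_cases e : P x
    · rw [cnt_pos e] at h
      rcases k with _ | k
      · exact ⟨x, by omega, e, cnt_false fun b hb k => by omega⟩
      · obtain ⟨b, h1, h2, h3⟩ := ih (show k < cnt P x by omega)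
        exact ⟨b, by omega, h2, by rw [cnt_pos (P := fun b' => b < b' ∧ P b') ⟨h1, e⟩, h3]⟩
    · rw [cnt_neg e] at h
      obtain ⟨b, h1, h2, h3⟩ := ih h
      exact ⟨b, by omega, h2, by rw [cnt_neg (P := fun b' => b < b' ∧ P b') fun k => e k.2, h3]⟩

/-- the number of rows before `b` that outlast the row `b` -/
noncomputable def V (f : ℕ → ℕ → ℕ) (b : ℕ) : ℕ := cnt (fun b' => ¬ Sh f (tm f b) b') b

/-- linear bounds -/
structure Par (f : ℕ → ℕ → ℕ) (θ a c K : ℝ) : Prop where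
  hK : 0 ≤ K
  t0 : 0 ≤ θ
  c0 : 0 < c
  a0 : 0 ≤ a
  ac : a + c ≤ 1
  ca : c * θ ≤ a
  th : ∀ y, (th f y : ℝ) ≤ θ * y + K
  low : ∀ p, ∃ y ≤ p, (∀ b, Sh f y b → Low f p b) ∧ a * p ≤ Chomp.th f y + K

namespace Mex

variable (H : Mex f)
include H

lemma cnt_gt (p : ℕ) : cnt (fun q => ¬ f q q ≤ p) (p + 1) = th f p + 1 := by
  have h1 := cnt_not (fun q => f q q ≤ p) (p + 1)
  rw [cnt_neg (P := fun q => f q q ≤ p) (not_le.2 (H.diag p))] at h1
  have h2 := H.th_add_de p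
  rw [de] at h2
  omega

lemma uses_ge (h : Dead f x p) : th f p + 1 ≤ cnt (U f p p) x := by
  rw [H.kfill, ← H.cnt_gt]
  refine cnt11 fun q hq k => ?_
  obtain ⟨b, h1, h2, h3⟩ := h
  obtain ⟨k1, b', k2, k3, k4⟩ := H.fl_of_lt (not_le.1 k) (h3 ▸ H.pos h2) (by omega)
    (H.dead_not_dd ⟨b, h1, h2, h3⟩)
  refine ⟨k1, b', lt_of_not_ge fun e => H.dead_ne ⟨b, by omega, h2, h3⟩ k3 k4, k3, k4⟩

lemma uses_le (h : ¬ DD f x p) : cnt (U f p p) x ≤ th f p + 1 := by
  rw [H.kfill, ← H.cnt_gt]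
  exact cnt11 fun q _ k => not_le.2 (H.fl_lt k h)

lemma sh_of_not_U (h1 : 1 ≤ p) (hD : ¬ DD f b p) (hT : ¬ Dead f b p) (h : ¬ U f p p b) :
    Sh f p b := by
  by_contra k
  rcases le_or_gt b p with e | e
  · rcases H.mex e h1 (lt_of_not_ge fun k' => k ⟨e, k'⟩) with k' | ⟨q', k2, k3, k'⟩ | ⟨b', k2, k'⟩
    · exact hD k'
    · exact h ⟨q', k2, k3.le, k3.le, k'⟩
    · exact hT ⟨b', k2, by omega, k'⟩
  · exact (H.dd_or_dead h1).elim (fun k => hD (k.mono e.le)) fun k => hT (k.mono e.le)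

lemma use_tm (h : Term f b) : U f (tm f b) (tm f b) b :=
  ⟨_, (H.tm_spec h).1.le, le_rfl, le_rfl, (H.tm_spec h).2⟩

lemma not_dead_tm (h : Term f b) : ¬ Dead f b (tm f b) := fun k => H.dead_not_U k (H.use_tm h)

variable {θ a e K : ℝ} (W : Par f θ a e K)
include W

lemma nu (x : ℕ) : ∃ p, (∀ b < x, Term f b → Sh f p b) ∧
    a * p ≤ cnt (fun b => ¬ Term f b) x + K := by
  classical
  by_cases h : ∃ b < x, Term f b
  · obtain ⟨b, hb, hm⟩ := ((Finset.range x).filter (Term f)).exists_max_image (tm f)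
      (let ⟨b, h1, h2⟩ := h; ⟨b, Finset.mem_filter.2 ⟨Finset.mem_range.2 h1, h2⟩⟩)
    obtain ⟨h1, h2⟩ := Finset.mem_filter.1 hb
    have h3 : ∀ b' < x, Term f b' → Sh f (tm f b) b' := fun b' k k' =>
      H.sh_iff.2 ⟨k', hm b' (Finset.mem_filter.2 ⟨Finset.mem_range.2 k, k'⟩)⟩
    obtain ⟨y, k1, k2, k3⟩ := W.low (tm f b)
    have k4 := H.uses_ge (H.dead_tm h2 (Finset.mem_range.1 h1))
    have k5 := cnt_disj (P := U f (tm f b) (tm f b)) (Q := Sh f y) (x := x) fun b' _ k k' =>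
      k.not_low le_rfl (k2 b' k')
    have k6 := H.sh_diff k1 x
    have k7 := cnt11 h3
    have k8 := cnt_not (Term f) x
    have k9 : (th f y : ℝ) ≤ cnt (fun b => ¬ Term f b) x := by exact_mod_cast (by omega)
    exact ⟨_, h3, by linarith only [k3, k9]⟩
  · refine ⟨0, fun b k k' => absurd ⟨b, k, k'⟩ h, ?_⟩
    have := W.hK
    simp only [Nat.cast_zero, mul_zero]
    positivity

omit H in
lemma th_le (p : ℕ) : e * th f p ≤ a * p + K := by
  have h1 := mul_le_mul_of_nonneg_left (W.th p) W.c0.le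
  have h2 := mul_le_mul_of_nonneg_right W.ca (Nat.cast_nonneg (α := ℝ) p)
  have h3 := W.hK
  have h4 := W.ac
  have h5 := W.a0
  linarith only [h1, h2, h3, h4, h5, mul_nonneg_of_nonpos_of_nonpos (Mathlib.Tactic.Linarith.sub_nonpos_of_le h3) (Mathlib.Tactic.Linarith.sub_nonpos_of_le h4), mul_nonneg_of_nonpos_of_nonpos (Mathlib.Tactic.Linarith.sub_nonpos_of_le h3) (Mathlib.Tactic.Linarith.sub_nonpos_of_le h5)]

lemma nu' (x : ℕ) : e * cnt (Term f) x ≤ cnt (fun b => ¬ Term f b) x + 2 * K := by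
  obtain ⟨p, h1, h2⟩ := H.nu W x
  have h3 : (cnt (Term f) x : ℝ) ≤ th f p := by exact_mod_cast (cnt11 h1).trans cnt_sh_le
  have h4 := th_le W p
  have h5 := mul_le_mul_of_nonneg_left h3 W.c0.le
  linarith only [h2, h4, h5]

lemma first_use (hD : ¬ DD f x p) (hT : ¬ Dead f x p) (ht : t < p) (hU : U f p t x)
    (hn : (1 - a) * (p - t) ≤ a * t) : e * (p - t) ≤ cnt (U f p p) x + 3 * K + 1 := by
  obtain ⟨p', h1, h2⟩ := H.nu W x
  have h3 : ∀ b < x, ¬ U f p p b → Term f b := fun b k k' =>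
    ⟨p, H.sh_of_not_U (by omega) (fun e => hD (e.mono k.le)) (fun e => hT (e.mono k.le)) k'⟩
  have hK := W.hK
  have c0 := W.c0
  have ac := W.ac
  have a0 := W.a0
  rcases le_or_gt p (t + th f p') with k | k
  · have k1 : (cnt (fun b => ¬ Term f b) x : ℝ) ≤ cnt (U f p p) x := by
      exact_mod_cast cnt11 (P := fun b => ¬ Term f b) fun b k k' =>
        by_contra fun e => k' (h3 b k e)
    have k2 : (p : ℝ) ≤ t + th f p' := by exact_mod_cast k
    have k3 := th_le W p'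
    linarith only [h2, hK, k1, k3, c0, k2, mul_nonneg_of_nonpos_of_nonpos (le_of_lt (Mathlib.Tactic.Linarith.sub_neg_of_lt c0)) (Mathlib.Tactic.Linarith.sub_nonpos_of_le k2)]
  obtain ⟨p1, -, x1, k1, k2, k3⟩ := H.uchain hU
  obtain ⟨y, -, k4, k5⟩ := W.low p1
  have k6 := cnt11 (x := x) fun b _ => k4 b
  have k7 := cnt11 (x := x) fun b k k' => h1 b k (h3 b k k')
  have k8 := cnt_not (U f p p) x
  have k9 := H.nu' W x1
  have k10 := cnt11 (P := Sh f t) (R := Term f) (x := x1) fun b _ k => ⟨t, k⟩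
  have k11 := (cnt_mono k1).trans ((cnt11 h1).trans cnt_sh_le)
  have k12 : (p1 : ℝ) ≤ t + 1 + cnt (Term f) x1 := by exact_mod_cast (by omega)
  have k13 : (t : ℝ) + cnt (Term f) x1 ≤ p := by exact_mod_cast (by omega)
  rcases le_total p' y with e' | e'
  · have k14 := cnt11 (P := Sh f p') (R := Sh f y) (x := x) fun b _ k => (H.sh_mono k e').1
    have k15 : (p : ℝ) + cnt (fun b => ¬ Term f b) x1 ≤ p1 + cnt (U f p p) x := by
      exact_mod_cast (by omega)
    linarith only [hK, k9, k12, k15, ac, k13, a0, mul_nonneg_of_nonpos_of_nonpos (Mathlib.Tactic.Linarith.sub_nonpos_of_le ac) (Mathlib.Tactic.Linarith.sub_nonpos_of_le k13), mul_nonneg_of_nonpos_of_nonpos (Mathlib.Tactic.Linarith.sub_nonpos_of_le a0) (Mathlib.Tactic.Linarith.sub_nonpos_of_le k13)]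
  · have k14 := H.sh_diff e' x
    have k15 : (t : ℝ) + cnt (fun b => ¬ Term f b) x1 + th f y ≤ p1 + cnt (U f p p) x := by
      exact_mod_cast (by omega)
    linarith only [hn, a0, k5, k9, k15, c0, k12, ac, k13, mul_nonneg_of_nonpos_of_nonpos (le_of_lt (Mathlib.Tactic.Linarith.sub_neg_of_lt c0)) (Mathlib.Tactic.Linarith.sub_nonpos_of_le k12), mul_nonneg_of_nonpos_of_nonpos (Mathlib.Tactic.Linarith.sub_nonpos_of_le ac) (Mathlib.Tactic.Linarith.sub_nonpos_of_le k12), mul_nonneg_of_nonpos_of_nonpos (Mathlib.Tactic.Linarith.sub_nonpos_of_le ac) (Mathlib.Tactic.Linarith.sub_nonpos_of_le k13)]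

lemma near {E : ℕ} (hb : Term f b) (ht : tm f b < p) (hD : ¬ DD f b p) (hT : ¬ Dead f b p)
    (hU : ¬ U f p p b) (hE : cnt (Sh f (tm f b)) b + E ≤ cnt (Sk f (tm f b) b) p)
    (hn : (1 - a) * (p - tm f b) ≤ a * tm f b) :
    (cnt (fun b' => ¬ U f p p b') b : ℝ) + E ≤ V f b + (1 - e) * (p - tm f b) + 3 * K := by
  obtain ⟨h1, h2⟩ := H.tm_spec hb
  have h3 := H.miss h1.le ht.le h2.ge ⟨by omega, hD, fun k => hU k.top⟩
  have h4 := cnt_not (Sh f (tm f b)) b
  rw [← V] at h4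
  have hK := W.hK
  rcases Nat.eq_zero_or_pos (cnt (U f p (tm f b)) b) with k | k
  · obtain ⟨p', k1, k2⟩ := H.nu W (b + 1)
    rw [cnt_neg (P := fun b => ¬ Term f b) (not_not.2 hb)] at k2
    have k3 : (tm f b : ℝ) ≤ p' := by exact_mod_cast (H.sh_iff.1 (k1 b (by omega) hb)).2
    have k4 := cnt22 (P := fun b' => ¬ U f p p b') (Q := fun b => ¬ Term f b)
      (R := Sh f (tm f b)) (S := fun b' => ¬ Sh f (tm f b) b') (x := b) fun b' k =>
      ⟨fun _ => em _, fun _ => em _, fun k1 k2 => absurd ⟨p, H.sh_of_not_U (by omega)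
        (fun e => hD (e.mono k.le)) (fun e => hT (e.mono k.le)) k1⟩ k2⟩
    rw [← V] at k4
    have k5 : (cnt (fun b' => ¬ U f p p b') b : ℝ) + E + cnt (fun b => ¬ Term f b) b + tm f b ≤
      V f b + p := by exact_mod_cast (by omega)
    have k6 : (tm f b : ℝ) ≤ p := by exact_mod_cast ht.le
    have := W.ac
    have := W.a0
    nlinarith
  · obtain ⟨x, k1, k2, k3⟩ := exists_first k
    have k4 := H.first_use W (fun e => hD (e.mono k1.le)) (fun e => hT (e.mono k1.le)) ht k2 hn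
    have k5 := cnt_incr (P := U f p (tm f b)) (Q := U f p p) k1.le fun b' _ _ k => k.top
    have k6 := cnt_not (U f p p) b
    have k7 : (cnt (fun b' => ¬ U f p p b') b : ℝ) + E + cnt (U f p p) x + tm f b + 2 ≤
      V f b + p := by exact_mod_cast (by omega)
    linarith only [k4, k7]

lemma far (hD : ¬ DD f b p) (hT : ¬ Dead f b p) (h1 : 1 ≤ p) {l M : ℝ} (hl : 0 ≤ l)
    (hV : (V f b : ℝ) ≤ l * tm f b + M) (hn : a * tm f b ≤ (1 - a) * (p - tm f b)) :
    (1 + e) * cnt (fun b' => ¬ U f p p b') b ≤ (θ + l) * (1 - a) * p + M + 3 * K := by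
  have k1 : (cnt (fun b' => ¬ U f p p b') b : ℝ) ≤ cnt (Term f) b := by
    exact_mod_cast cnt11 (R := Term f) fun b' k k' =>
      ⟨p, H.sh_of_not_U h1 (fun e => hD (e.mono k.le)) (fun e => hT (e.mono k.le)) k'⟩
  have k2 := H.nu' W b
  have k3 := cnt_not (Term f) b
  have k4 := cnt_not (Sh f (tm f b)) b
  rw [← V] at k4
  have k5 := cnt_sh_le (f := f) (y := tm f b) (x := b)
  have k6 : (cnt (Term f) b : ℝ) + cnt (fun b => ¬ Term f b) b ≤ th f (tm f b) + V f b := by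
    exact_mod_cast (by omega)
  have k7 := W.th (tm f b)
  have k8 := mul_le_mul_of_nonneg_left (show (tm f b : ℝ) ≤ (1 - a) * p by linarith only [hn])
    (add_nonneg W.t0 hl)
  have := W.c0
  linarith only [hV, k1, k2, k6, k7, k8, this, mul_nonneg_of_nonpos_of_nonpos (Mathlib.Tactic.Linarith.sub_nonpos_of_le k1) (le_of_lt (Mathlib.Tactic.Linarith.sub_neg_of_lt this))]

omit W

/-- the row `b` ends before the terminal value of the row `c` and does not use it -/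
def Z (f : ℕ → ℕ → ℕ) (b c : ℕ) : Prop :=
  Term f b ∧ tm f b < tm f c ∧ ¬ U f (tm f c) (tm f c) b

lemma V_le (hc : Term f c) : V f c ≤ cnt (fun b => Z f b c) (tm f c) + 1 := by
  obtain ⟨h1, h2⟩ := H.tm_spec hc
  have hT := H.dead_tm hc (Nat.lt_succ_self c)
  have k1 := H.uses_le (H.dead_not_dd (y := c + 1) hT)
  rw [cnt_pos (H.use_tm hc), th, cnt_neg (P := Sh f (tm f c)) fun k => by
    have := H.diag (tm f c); have := k.2; omega] at k1
  have k2 := cnt_split (Sh f (tm f c)) c (tm f c)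
  have k3 := cnt_join (P := fun b => ¬ U f (tm f c) (tm f c) b) (Q := Sh f (tm f c))
    (R := fun b => Z f b c) h1.le
    (fun b k k' => by
      have := H.sh_iff.1 (H.sh_of_not_U (by omega) (H.dead_not_dd hT)
        (fun e => H.not_dead_tm hc (e.mono k.le)) k')
      exact ⟨this.1, lt_of_le_of_ne this.2 (H.tm_inj this.1 hc k), k'⟩)
    fun b _ k k' => by
      have := H.sh_iff.1 k'
      exact ⟨this.1, lt_of_le_of_ne this.2 (H.tm_inj hc this.1 k).symm,
        H.dead_not_U (H.dead_tm hc k)⟩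
  have k4 := cnt_not (U f (tm f c) (tm f c)) c
  have k5 := cnt_not (Sh f (tm f c)) c
  rw [V]
  omega

/-- the number of terminal values between those of `b` and `c` that the row `b` does not use -/
noncomputable def zr (f : ℕ → ℕ → ℕ) (b c : ℕ) : ℕ :=
  cnt (fun s => tm f b < s ∧ Dead f s s ∧ ¬ U f s s b) (tm f c)

lemma zr_sk (ht : tm f b < tm f c) :
    cnt (Sh f (tm f b)) b + zr f b c ≤ cnt (Sk f (tm f b) b) (tm f c) := by
  have k1 := cnt_inj (P := Sh f (tm f b)) (x := b) (Q := fun s => s ≤ tm f b ∧ Sk f (tm f b) b s)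
    (y := tm f c) (tm f)
    (fun b' k k' => by
      obtain ⟨k2, k3⟩ := H.sh_iff.1 k'
      have := (H.tm_spec k2).1
      exact ⟨by omega, k3, by omega, H.dead_not_dd (H.dead_tm k2 k),
        H.dead_not_U (H.dead_tm k2 k)⟩)
    fun b' _ b'' k k1 k2 => H.tm_inj ⟨_, k2⟩ ⟨_, k1⟩ k
  have k2 := cnt21 (P := fun s => s ≤ tm f b ∧ Sk f (tm f b) b s)
    (Q := fun s => tm f b < s ∧ Dead f s s ∧ ¬ U f s s b) (R := Sk f (tm f b) b) (x := tm f c)
    fun s _ => ⟨fun k => k.2, fun k => ⟨by omega, H.dead_not_dd k.2.1, fun e => k.2.2 e.top⟩,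
      fun k k' => by omega⟩
  rw [zr]
  omega

lemma virt (hc : Term f c) (ht : tm f b < tm f c) (h : c < b) :
    V f c + zr f b c ≤ V f b + cnt (fun b' => b < b' ∧ Z f b' c) (tm f c) := by
  have k1 := cnt12 (P := fun s => tm f b < s ∧ Dead f s s ∧ ¬ U f s s b)
    (R := fun s => tm f b < s ∧ Dead f b s) (S := fun s => tm f b < s ∧ Dead f s s ∧ ¬ Dead f b s)
    (x := tm f c) fun s _ k => by tauto
  have k2 := cnt_surj (P := fun b' => Sh f (tm f c) b' ∧ ¬ Sh f (tm f b) b') (x := b)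
    (Q := fun s => tm f b < s ∧ Dead f b s) (y := tm f c) (tm f) fun s hs ⟨k, b', k1, k2, k3⟩ => by
      obtain ⟨k4, k5⟩ := H.tm_eq k2 k3
      exact ⟨b', k1, ⟨H.sh_iff.2 ⟨k4, by omega⟩, fun e => by have := (H.sh_iff.1 e).2; omega⟩, k5⟩
  have k3 := cnt_surj (P := fun b' => b < b' ∧ Z f b' c) (x := tm f c)
    (Q := fun s => tm f b < s ∧ Dead f s s ∧ ¬ Dead f b s) (y := tm f c) (tm f)
    fun s hs ⟨k, ⟨b', k1, k2, k3⟩, k6⟩ => by
      obtain ⟨k4, k5⟩ := H.tm_eq k2 k3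
      have k7 : b < b' := lt_of_le_of_ne (not_lt.1 fun e => k6 ⟨b', e, k2, k3⟩) (by
        rintro rfl
        omega)
      exact ⟨b', by omega, ⟨k7, k4, by omega, H.dead_not_U (H.dead_tm hc (by omega))⟩, k5⟩
  have k4 := cnt21 (P := fun b' => ¬ Sh f (tm f c) b')
    (Q := fun b' => Sh f (tm f c) b' ∧ ¬ Sh f (tm f b) b') (R := fun b' => ¬ Sh f (tm f b) b')
    (x := b) fun b' _ => ⟨fun k e => k (H.sh_mono e ht.le).1, fun k => k.2, fun k k' => k k'.1⟩
  have k5 := cnt_mono (P := fun b' => ¬ Sh f (tm f c) b') h.le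
  rw [V, V, zr]
  omega

include W in
theorem vbound {l : ℝ} (h1 : 1 - e < l) (h2 : (θ + l) * (1 - a) < l * (1 + e)) :
    ∃ B, ∀ b, Term f b → (V f b : ℝ) ≤ l * tm f b + B := by
  classical
  have c0 := W.c0
  have hK := W.hK
  have l0 : 0 ≤ l := by linarith only [h1, W, W.ac, W.a0]
  obtain ⟨m, hm⟩ := dbound (δ := l - (1 - e)) (K := 3 * K + 2) (ρ := 1 / (1 + e))
    (δ' := l - (θ + l) * (1 - a) / (1 + e)) (by linarith) (by linarith only [hK])
    (by rw [div_lt_one (by linarith)]; linarith)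
    (by rw [sub_pos, div_lt_iff₀ (by linarith)]; exact h2)
  obtain ⟨B, hB⟩ := hm (m + 2 + 3 * K / (1 + e))
  refine ⟨B, fun c0 hc0 => ?_⟩
  have hA : ∀ {b}, b ∈ (Finset.range (tm f c0)).filter (Sh f (tm f c0)) ↔
      Term f b ∧ tm f b ≤ tm f c0 := by
    intro b
    rw [Finset.mem_filter, Finset.mem_range, H.sh_iff]
    exact ⟨fun k => k.2, fun k => ⟨(H.tm_spec k.1).1.trans_le k.2, k⟩⟩
  have := hB ((Finset.range (tm f c0)).filter (Sh f (tm f c0))) (fun b => V f b - l * tm f b) (tm f)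
    (Z f) (fun b c => cnt (fun b' => b < b' ∧ Z f b' c) (tm f c)) (zr f) ?_ ?_ ?_ c0
    (hA.2 ⟨hc0, le_rfl⟩)
  · linarith
  · intro b hb c hc k
    have k1 := (hA.1 hb).1
    have k2 := (hA.1 hc).1
    rcases lt_trichotomy b c with k' | k' | k'
    exacts [absurd k (H.tm_inj k1 k2 k'), k', absurd k.symm (H.tm_inj k2 k1 k')]
  · have key : ∀ b c c', Term f c → Z f b c → tm f c < tm f c' → zr f b c < zr f b c' := by
      intro b c c' k1 k2 k3
      have k4 := cnt_pos (P := fun s => tm f b < s ∧ Dead f s s ∧ ¬ U f s s b) (x := tm f c)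
        ⟨k2.2.1, H.dead_tm k1 (H.tm_spec k1).1, k2.2.2⟩
      have k5 := cnt_mono (P := fun s => tm f b < s ∧ Dead f s s ∧ ¬ U f s s b)
        (show tm f c + 1 ≤ tm f c' from k3)
      rw [zr, zr]
      omega
    intro b c hc c' hc' k1 k2 k3
    have k4 := (hA.1 hc).1
    have k5 := (hA.1 hc').1
    rcases lt_trichotomy (tm f c) (tm f c') with k | k | k
    · exact absurd k3 (key b c c' k4 k1 k).ne
    · rcases lt_trichotomy c c' with k' | k' | k'
      exacts [absurd k (H.tm_inj k4 k5 k'), k', absurd k.symm (H.tm_inj k5 k4 k')]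
    · exact absurd k3.symm (key b c' c k5 k2 k).ne
  intro M hM hφ c hc
  obtain ⟨hc, hc'⟩ := hA.1 hc
  rw [or_iff_not_imp_left]
  intro hn k hk
  have e0 : 0 < 1 + e := by linarith
  have hV := H.V_le hc
  have k0 : 0 ≤ (θ + l) * (1 - a) * tm f c :=
    mul_nonneg (mul_nonneg (add_nonneg W.t0 l0) (by linarith [W.ac])) (Nat.cast_nonneg _)
  replace hn : (θ + l) * (1 - a) * tm f c + M + 3 * K < (1 + e) * (V f c - (m + 2)) := by
    rw [not_le] at hn
    rw [← div_lt_iff₀' e0]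
    refine lt_of_eq_of_lt ?_ (show 3 * K / (1 + e) + 1 / (1 + e) * M +
      (θ + l) * (1 - a) / (1 + e) * tm f c < _ by linarith only [hn])
    ring
  have k1 : (m + 2 : ℝ) < V f c := by
    by_contra k1
    nlinarith
  have k2 : m + 2 < V f c := by exact_mod_cast k1
  obtain ⟨b, k3, k4, k5⟩ := exists_rank (P := fun b => Z f b c) (x := tm f c) (k := k) (by omega)
  have hb : b ∈ (Finset.range (tm f c0)).filter (Sh f (tm f c0)) :=
    hA.2 ⟨k4.1, by have := k4.2.1; omega⟩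
  refine ⟨b, hb, k4, k5, ?_⟩
  have k6 : zr f b c ≤ cnt (fun s => tm f b + 1 ≤ s ∧ s < tm f c) (tm f c) :=
    cnt11 fun s hs k => ⟨k.1, hs⟩
  rw [cnt_Ico, min_self] at k6
  have k7 : (zr f b c : ℝ) + tm f b ≤ tm f c := by
    have := k4.2.1
    exact_mod_cast (by omega)
  have k8 := Nat.cast_nonneg (α := ℝ) (zr f b c)
  have ac := W.ac
  have a0 := W.a0
  rcases lt_trichotomy b c with e' | rfl | e'
  · have hD := H.dead_not_dd (y := b) (H.dead_tm hc (Nat.lt_succ_self c))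
    have hT : ¬ Dead f b (tm f c) := fun e => H.not_dead_tm hc (e.mono e'.le)
    have k9 := cnt_split (fun b => Z f b c) b (tm f c)
    have k10 := cnt11 (P := fun b => Z f b c) (R := fun b' => ¬ U f (tm f c) (tm f c) b') (x := b)
      fun b' _ k => k.2.2
    have k11 : (V f c : ℝ) ≤ cnt (fun b' => ¬ U f (tm f c) (tm f c) b') b + 2 + k := by
      exact_mod_cast (by omega)
    rcases le_total ((1 - a) * (tm f c - tm f b)) (a * tm f b) with e'' | e''
    · have := H.near W k4.1 k4.2.1 hD hT k4.2.2 (H.zr_sk k4.2.1) e''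
      linarith only [k11, this, h1, k7, mul_nonneg_of_nonpos_of_nonpos (le_of_lt (Mathlib.Tactic.Linarith.sub_neg_of_lt h1)) (Mathlib.Tactic.Linarith.sub_nonpos_of_le k7)]
    · have k12 := H.far W hD hT (by have := k4.2.1; omega) l0
        (show (V f b : ℝ) ≤ l * tm f b + M by linarith only [hφ, hb, hφ b hb]) e''
      have k13 : (k : ℝ) ≤ m := by exact_mod_cast hk.le
      nlinarith
  · exact absurd k4.2.1 (lt_irrefl _)
  · have k9 := H.virt hc k4.2.1 e'
    rw [k5] at k9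
    have k10 : (V f c : ℝ) + zr f b c ≤ V f b + k := by exact_mod_cast k9
    linarith only [hK, k10, ac, a0, l0, k7, mul_nonneg_of_nonpos_of_nonpos (Mathlib.Tactic.Linarith.sub_nonpos_of_le (Mathlib.Tactic.Linarith.natCast_nonneg ℝ (zr f b c))) (Mathlib.Tactic.Linarith.sub_nonpos_of_le ac), mul_nonneg_of_nonpos_of_nonpos (Mathlib.Tactic.Linarith.sub_nonpos_of_le (Mathlib.Tactic.Linarith.natCast_nonneg ℝ (zr f b c))) (Mathlib.Tactic.Linarith.sub_nonpos_of_le a0), mul_nonneg_of_nonpos_of_nonpos (Mathlib.Tactic.Linarith.sub_nonpos_of_le l0) (Mathlib.Tactic.Linarith.sub_nonpos_of_le k7)]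

end Mex

end Pool.Agent.Chomp
end

-- merged part: Pool.Agent.Work.MP_ff0f6a_lc.Up
section
/-!
Upper bounds for the values of terminated rows and for the diagonal values.
-/

namespace Pool.Agent.Chomp

variable {f : ℕ → ℕ → ℕ} {b c p q s t x y C : ℕ} {θ μ δ : ℝ}

lemma le_of_freq {u v K : ℝ} (h : ∀ N : ℕ, ∃ n : ℕ, N ≤ n ∧ u * n ≤ v * n + K) : u ≤ v := by
  by_contra k
  obtain ⟨N, hN⟩ := exists_nat_gt (K / (u - v))
  obtain ⟨n, h1, h2⟩ := h N
  rw [div_lt_iff₀ (by linarith only [k])] at hN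
  have : (N : ℝ) ≤ n := by exact_mod_cast h1
  linarith only [hN, h2, k, this, mul_nonneg_of_nonpos_of_nonpos (le_of_lt (Mathlib.Tactic.Linarith.sub_neg_of_lt (lt_of_not_ge k))) (Mathlib.Tactic.Linarith.sub_nonpos_of_le this)]

lemma le_of_small {u v N : ℝ} (h : ∀ η, 0 < η → η ≤ 1 / 20 → u ≤ v + N * η) : u ≤ v := by
  by_contra k
  have k1 : 0 < u - v := by linarith only [k]
  have k2 := h (min (1 / 20) ((u - v) / (2 * (|N| + 1)))) (by positivity) (min_le_left _ _)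
  have k3 : min (1 / 20) ((u - v) / (2 * (|N| + 1))) * (2 * (|N| + 1)) ≤ u - v := by
    rw [← le_div_iff₀ (by positivity)]
    exact min_le_right _ _
  have k4 : 0 < min (1 / 20) ((u - v) / (2 * (|N| + 1))) := by positivity
  linarith only [k, k2, k3, k4, le_abs_self N, abs_nonneg N, mul_nonneg_of_nonpos_of_nonpos (le_of_lt (Mathlib.Tactic.Linarith.sub_neg_of_lt k4)) (Mathlib.Tactic.Linarith.sub_nonpos_of_le (le_abs_self N))]

lemma cnt_le_of_lt {P : ℕ → Prop} (h : ∀ b, P b → b < x) : cnt P y ≤ cnt P x := by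
  rcases le_total x y with k | k
  · exact (cnt_stable k fun b k1 _ k2 => by have := h b k2; omega).le
  · exact cnt_mono k

/-- the terminal values have the density `θ` up to the error `δ` -/
def Den (f : ℕ → ℕ → ℕ) (θ δ : ℝ) : Prop :=
  ∃ K ≥ 0, ∀ y : ℕ, (θ - δ) * y ≤ th f y + K ∧ (th f y : ℝ) ≤ (θ + δ) * y + K

lemma Den.mono {δ' : ℝ} (h : Den f θ δ) (k : δ ≤ δ') : Den f θ δ' :=
  let ⟨K, h0, h1⟩ := h
  ⟨K, h0, fun y => ⟨le_trans (by gcongr) (h1 y).1, (h1 y).2.trans (by gcongr)⟩⟩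

/-- a bound for the values of the terminated rows -/
def HM (f : ℕ → ℕ → ℕ) (μ : ℝ) : Prop :=
  ∃ K ≥ 0, ∀ b q, Term f b → b ≤ q → (f q b : ℝ) ≤ μ * tm f b + K

lemma HM.mono {μ' : ℝ} (h : HM f μ) (k : μ ≤ μ') : HM f μ' :=
  let ⟨K, h0, h1⟩ := h
  ⟨K, h0, fun b q k1 k2 => (h1 b q k1 k2).trans (by gcongr)⟩

namespace Mex

variable (H : Mex f)
include H

lemma not_sh_self : ¬ Sh f C C := fun k => absurd (H.diag C) (not_lt.2 k.2)

lemma not_sh_zero : ¬ Sh f 0 b := fun k => by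
  have h1 := H.pos k.1
  have h2 := k.2
  omega

lemma th_eq' (C : ℕ) : th f C = cnt (Sh f C) C := cnt_neg H.not_sh_self

lemma f_le (h : b ≤ q) : f q b ≤ q + b + 1 := by
  have k1 := cnt_surj (P := fun _ => True) (x := q + b) (Q := fun s => s ≠ 0) (y := f q b)
    (fun i => if i < q then f i (min i b) else f q (i - q)) fun s hs k => by
      rcases H.mex h (by omega) hs with ⟨a, k1, k2⟩ | ⟨q', k1, k2, k3⟩ | ⟨b', k1, k2⟩
      · exact ⟨a, by omega, trivial, by rwa [if_pos (by omega), min_eq_left k1.le]⟩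
      · exact ⟨q', by omega, trivial, by rwa [if_pos k2, min_eq_right k1]⟩
      · exact ⟨q + b', by omega, trivial, by rwa [if_neg (by omega), Nat.add_sub_cancel_left]⟩
  have k2 := cnt_ne (show 0 < f q b from H.pos h)
  have k3 := cnt_le (P := fun _ => True) (x := q + b)
  omega

lemma U_of_term (h : Term f b) (k : b ≤ q) : U f (f q b) (tm f b) b := by
  rcases le_total q (tm f b) with e | e
  · exact ⟨q, k, e, H.alive_mono (H.tm_spec h).2.ge k e, rfl⟩
  · rw [H.sh_eq (H.sh_iff.2 ⟨h, e⟩)]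
    exact H.use_tm h

lemma hm_two : HM f 2 := by
  refine ⟨1, zero_le_one, fun b q h k => ?_⟩
  obtain ⟨q', k1, k2, -, k3⟩ := H.U_of_term h k
  have k4 := H.f_le k1
  exact_mod_cast (show f q b ≤ 2 * tm f b + 1 by omega)

lemma d_ge (C : ℕ) : 2 * C ≤ f C C + th f C := by
  have k1 := cnt_inj (P := fun b => ¬ Sh f C b) (x := C) (Q := fun s => C ≤ s ∧ s < f C C)
    (y := f C C) (f C)
    (fun b hb k => ⟨H.colmax hb, le_of_not_ge fun e => k ⟨hb.le, e⟩, H.colmax hb⟩)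
    fun b hb b' k _ _ => H.col k hb.le
  rw [cnt_Ico, min_self] at k1
  have k2 := cnt_not (Sh f C) C
  have k3 := H.th_eq' C
  have k4 := H.diag C
  omega

lemma le_one (hD : Den f θ δ) : θ - δ ≤ 1 := by
  obtain ⟨K, -, hK⟩ := hD
  exact le_of_freq (K := K) fun N => ⟨N, le_rfl, by
    have k1 : (th f N : ℝ) ≤ N := by exact_mod_cast (by have := H.th_add_de N; omega)
    linarith only [k1, hK, (hK N).1]⟩

lemma upper (hD : Den f θ δ) {α K : ℝ} (h0 : 0 ≤ α) (hK : 0 ≤ K)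
    (h : ∀ C : ℕ, (f C C : ℝ) ≤ α * C + K) : 1 ≤ (1 - θ + δ) * α := by
  have h1 := H.le_one hD
  obtain ⟨K', -, hK'⟩ := hD
  exact le_of_freq (K := (1 - θ + δ) * (K + 1) + K') fun N => by
    refine ⟨N, le_rfl, ?_⟩
    have k1 := Nat.le_ceil (α * N + K)
    have k2 := (Nat.ceil_lt_add_one (show 0 ≤ α * N + K by positivity)).le
    generalize ⌈α * N + K⌉₊ = p at k1 k2
    have k3 := cnt_inj (P := fun _ => True) (x := N) (Q := fun a => f a a ≤ p) (y := p) id
      (fun b hb _ => by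
        have k3 : (b : ℝ) ≤ N := by exact_mod_cast hb.le
        have k4 : f b b ≤ p := by
          exact_mod_cast (show (f b b : ℝ) ≤ p by linarith only [k1, h, h0, k3, h b, mul_nonneg_of_nonpos_of_nonpos (Mathlib.Tactic.Linarith.sub_nonpos_of_le h0) (Mathlib.Tactic.Linarith.sub_nonpos_of_le k3)])
        exact ⟨(H.diag b).trans_le k4, k4⟩)
      fun _ _ _ k _ _ => k.ne
    rw [cnt_true fun _ _ => trivial, ← de] at k3
    have k4 : (N : ℝ) + th f p ≤ p := by exact_mod_cast (by have := H.th_add_de p; omega)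
    linarith only [k4, hK', h1, k2, (hK' p).1, mul_nonneg_of_nonpos_of_nonpos (Mathlib.Tactic.Linarith.sub_nonpos_of_le h1) (Mathlib.Tactic.Linarith.sub_nonpos_of_le k2)]

lemma lower (hD : Den f θ δ) {l K : ℝ} (h0 : 0 ≤ l)
    (h : ∀ C : ℕ, l * C + C ≤ f C C + cnt (fun q => ¬ f q q ≤ f C C) C + K) :
    l * (1 - θ - δ) ≤ θ + δ := by
  classical
  obtain ⟨K', -, hK'⟩ := hD
  exact le_of_freq (K := K + 1 + l + K' + l * K') fun N => by
    have e : ∃ p, ∃ C, N ≤ C ∧ f C C = p := ⟨_, N, le_rfl, rfl⟩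
    obtain ⟨C, k1, k2⟩ := Nat.find_spec e
    have k3 : ∀ a, f a a ≤ f C C → a < C + 1 := fun a k => by
      by_contra k'
      exact Nat.find_min e (k2 ▸ lt_of_le_of_ne k (H.diag_inj (by omega)).symm) ⟨a, by omega, rfl⟩
    have k4 := cnt_le_of_lt (y := f C C) k3
    have k5 := cnt_succ_le (P := fun a => f a a ≤ f C C) (x := C)
    have k6 := cnt_not (fun a => f a a ≤ f C C) C
    have k7 := H.th_add_de (f C C)
    rw [de] at k7
    have k8 : (f C C : ℝ) + cnt (fun q => ¬ f q q ≤ f C C) C ≤ th f (f C C) + C + 1 := by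
      exact_mod_cast (by omega)
    have k9 : (f C C : ℝ) ≤ th f (f C C) + C + 1 := by exact_mod_cast (by omega)
    refine ⟨f C C, k1.trans (H.diag C).le, ?_⟩
    have k10 := (hK' (f C C)).2
    have k11 := h C
    linarith only [k8, k10, k11, h0, mul_nonneg_of_nonpos_of_nonpos (Mathlib.Tactic.Linarith.sub_nonpos_of_le (Mathlib.Tactic.Linarith.natCast_nonneg ℝ (cnt (fun q => ¬f q q ≤ f C C) C))) (Mathlib.Tactic.Linarith.sub_nonpos_of_le h0), mul_nonneg_of_nonpos_of_nonpos (Mathlib.Tactic.Linarith.sub_nonpos_of_le h0) (Mathlib.Tactic.Linarith.sub_nonpos_of_le k8), mul_nonneg_of_nonpos_of_nonpos (Mathlib.Tactic.Linarith.sub_nonpos_of_le h0) (Mathlib.Tactic.Linarith.sub_nonpos_of_le k10)]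

lemma half (hD : Den f θ δ) : θ ≤ 1 / 2 + δ := by
  have := H.upper hD (α := 2) (K := 1) zero_le_two zero_le_one fun C => by
    exact_mod_cast (by have := H.f_le (le_refl C); omega)
  linarith only [this]

lemma third (hD : Den f θ δ) (h : δ ≤ 1 / 120) : 1 + (θ + δ) ^ 2 ≤ 3 * (θ + δ) := by
  have h1 := H.half hD
  have h2 := hD
  obtain ⟨K, -, hK⟩ := h2
  have := H.lower hD (l := 1 - θ - δ) (K := K) (by linarith only [h, h1]) fun C => by
    have k1 : (2 * C : ℝ) ≤ f C C + th f C := by exact_mod_cast H.d_ge C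
    have k2 := (hK C).2
    have k3 := Nat.cast_nonneg (α := ℝ) (cnt (fun q => ¬ f q q ≤ f C C) C)
    linarith only [k1, k2]
  linarith only [this]

lemma third' (hD : Den f θ δ) (h : δ ≤ 1 / 120) : 1 / 3 ≤ θ := by
  have := H.third hD h
  by_contra k
  linarith only [h, this, k, sq_nonneg (θ + δ), mul_nonneg_of_nonpos_of_nonpos (Mathlib.Tactic.Linarith.sub_nonpos_of_le (sq_nonneg (θ + δ))) (Mathlib.Tactic.Linarith.sub_nonpos_of_le (sq_nonneg (θ + δ))), mul_nonneg_of_nonpos_of_nonpos (Mathlib.Tactic.Linarith.sub_nonpos_of_le (sq_nonneg (θ + δ))) (Mathlib.Tactic.Linarith.sub_nonpos_of_le this), mul_nonneg_of_nonpos_of_nonpos (Mathlib.Tactic.Linarith.sub_nonpos_of_le this) (Mathlib.Tactic.Linarith.sub_nonpos_of_le this)]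

variable {a e K l B : ℝ}

lemma mu_step (W : Par f θ a e K) (hV : ∀ b, Term f b → (V f b : ℝ) ≤ l * tm f b + B)
    (ha : a * (1 + θ) ≤ θ) : HM f (1 - a + θ * (2 - a - e) + l) := by
  have hK := W.hK
  refine ⟨|B| + 5 * K + 1, by positivity, fun b q hb hq => ?_⟩
  obtain ⟨p1, -, x1, k1, k2, k3⟩ := H.uchain (H.U_of_term hb hq)
  obtain ⟨y, -, k4, k5⟩ := W.low p1
  have k6 := cnt11 (P := Sh f y) (x := b) fun b _ => k4 b
  have k7 := cnt_not (Sh f (tm f b)) b
  rw [← V] at k7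
  have k8 := H.nu' W x1
  have k9 : (cnt (Sh f (tm f b)) x1 : ℝ) ≤ cnt (Term f) x1 := by
    exact_mod_cast cnt11 (R := Term f) fun b _ k => ⟨_, k⟩
  have k10 : (cnt (Sh f (tm f b)) x1 : ℝ) ≤ th f (tm f b) := by exact_mod_cast cnt_sh_le
  have k11 : (p1 : ℝ) ≤ tm f b + 1 + cnt (Sh f (tm f b)) x1 := by exact_mod_cast k2
  have k12 := W.th (tm f b)
  have k13 := hV b hb
  have k14 := le_abs_self B
  have k15 := mul_le_mul_of_nonneg_left k9 W.c0.le
  have k16 := Nat.cast_nonneg (α := ℝ) (tm f b)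
  have c0 := W.c0
  have a0 := W.a0
  have ac := W.ac
  rcases le_total (tm f b) y with e' | e'
  · have k17 := cnt11 (P := Sh f (tm f b)) (R := Sh f y) (x := b) fun b _ k => (H.sh_mono k e').1
    have k18 : (f q b : ℝ) + cnt (fun b => ¬ Term f b) x1 ≤ p1 + V f b := by
      exact_mod_cast (by omega)
    have k19 := mul_le_mul_of_nonneg_left (k10.trans k12) (show 0 ≤ 1 - e by linarith only [a0, ac])
    have k20 := mul_le_mul_of_nonneg_right ha k16
    linarith only [hK, k8, k11, k13, k14, k15, k18, k19, k20, c0, mul_nonneg_of_nonpos_of_nonpos (Mathlib.Tactic.Linarith.sub_nonpos_of_le hK) (le_of_lt (Mathlib.Tactic.Linarith.sub_neg_of_lt c0))]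
  · have k17 := H.sh_diff e' b
    have k18 : (f q b : ℝ) + cnt (fun b => ¬ Term f b) x1 + th f y ≤
      p1 + V f b + th f (tm f b) := by exact_mod_cast (by omega)
    have k19 := mul_le_mul_of_nonneg_left (k10.trans k12) (show 0 ≤ 1 - a - e by linarith only [ac])
    have k20 := mul_le_mul_of_nonneg_left k11 (show 0 ≤ 1 - a by linarith only [c0, ac])
    linarith only [k5, k8, k12, k13, k14, k15, a0, k18, k19, k20, hK, c0, mul_nonneg_of_nonpos_of_nonpos (Mathlib.Tactic.Linarith.sub_nonpos_of_le hK) (le_of_lt (Mathlib.Tactic.Linarith.sub_neg_of_lt c0)), mul_nonneg_of_nonpos_of_nonpos (Mathlib.Tactic.Linarith.sub_nonpos_of_le hK) (Mathlib.Tactic.Linarith.sub_nonpos_of_le a0)]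

lemma d_le (W : Par f θ a e K) {θ' α : ℝ} (h : ∀ y : ℕ, θ' * y ≤ th f y + K)
    (h1 : 2 - a + (1 - a - e) * θ ≤ α) (h2 : 2 + (1 - e) * θ - θ' ≤ α) (C : ℕ) :
    (f C C : ℝ) ≤ α * C + (4 * K + 1) := by
  have hK := W.hK
  obtain ⟨p1, -, x1, k1, k2, k3⟩ := H.uchain (p := f C C) (C := C) (x := C)
    ⟨C, le_rfl, le_rfl, (H.diag C).le, rfl⟩
  obtain ⟨y, -, k4, k5⟩ := W.low p1
  have k6 := cnt11 (P := Sh f y) (x := C) fun b _ => k4 b
  have k8 := H.nu' W x1
  have k9 : (cnt (Sh f C) x1 : ℝ) ≤ cnt (Term f) x1 := by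
    exact_mod_cast cnt11 (R := Term f) fun b _ k => ⟨_, k⟩
  have k10 : (cnt (Sh f C) x1 : ℝ) ≤ th f C := by exact_mod_cast cnt_sh_le
  have k11 : (p1 : ℝ) ≤ C + 1 + cnt (Sh f C) x1 := by exact_mod_cast k2
  have k12 := W.th C
  have k15 := mul_le_mul_of_nonneg_left k9 W.c0.le
  have k16 := Nat.cast_nonneg (α := ℝ) C
  have c0 := W.c0
  have a0 := W.a0
  have ac := W.ac
  rcases le_total C y with e' | e'
  · have k17 := cnt11 (P := Sh f C) (R := Sh f y) (x := C) fun b _ k => (H.sh_mono k e').1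
    have k18 : (f C C : ℝ) + cnt (fun b => ¬ Term f b) x1 + th f C ≤ p1 + C := by
      exact_mod_cast (by have := H.th_eq' C; omega)
    have k19 := mul_le_mul_of_nonneg_left (k10.trans k12) (show 0 ≤ 1 - e by linarith only [a0, ac])
    have k20 := mul_le_mul_of_nonneg_right h2 k16
    linarith only [k8, k11, k15, k18, k19, k20, h, hK, c0, h C, mul_nonneg_of_nonpos_of_nonpos (Mathlib.Tactic.Linarith.sub_nonpos_of_le hK) (le_of_lt (Mathlib.Tactic.Linarith.sub_neg_of_lt c0))]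
  · have k17 := cnt_mono (P := Sh f y) e'
    have k18 : (f C C : ℝ) + cnt (fun b => ¬ Term f b) x1 + th f y ≤ p1 + C := by
      exact_mod_cast (by have := H.th_eq' y; omega)
    have k19 := mul_le_mul_of_nonneg_left (k10.trans k12) (show 0 ≤ 1 - a - e by linarith only [ac])
    have k20 := mul_le_mul_of_nonneg_left k11 (show 0 ≤ 1 - a by linarith only [c0, ac])
    have k21 := mul_le_mul_of_nonneg_right h1 k16
    linarith only [k5, k8, k15, a0, k18, k19, k20, k21, hK, c0, mul_nonneg_of_nonpos_of_nonpos (Mathlib.Tactic.Linarith.sub_nonpos_of_le hK) (le_of_lt (Mathlib.Tactic.Linarith.sub_neg_of_lt c0)), mul_nonneg_of_nonpos_of_nonpos (Mathlib.Tactic.Linarith.sub_nonpos_of_le hK) (Mathlib.Tactic.Linarith.sub_nonpos_of_le a0)]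

/-- the parameters that belong to a bound `μ = 1 / u` -/
lemma pack {u η : ℝ} (hD : Den f θ (η / 6)) (hM : HM f u⁻¹) (h1 : (1 + θ) * u ≤ 1) (h2 : 1 / 2 ≤ u)
    (h3 : 0 < η) (h4 : η ≤ 1 / 20) : ∃ θ1 a e K B, Par f θ1 a e K ∧ θ ≤ θ1 ∧ θ1 ≤ θ + η ∧
      θ * u - η ≤ a ∧ a ≤ θ * u ∧ u - η ≤ e ∧ e ≤ u ∧ (∀ y : ℕ, (θ - η) * y ≤ th f y + K) ∧
      (θ1 + (1 - u + 8 * η)) * (1 - a) ≤ (1 - u + 8 * η) * (1 + e) ∧ 0 ≤ B ∧
      ∀ b, Term f b → (V f b : ℝ) ≤ (1 - u + 8 * η) * tm f b + B := by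
  have t1 := H.half hD
  have t2 := H.third' hD (by linarith only [h4])
  have u1 : u ≤ 1 := by linarith only [h1, h3, h4, t2, h2, mul_nonneg_of_nonpos_of_nonpos (Mathlib.Tactic.Linarith.sub_nonpos_of_le h2) (Mathlib.Tactic.Linarith.sub_nonpos_of_le t2)]
  obtain ⟨K0, k0, hM⟩ := hM
  obtain ⟨K1, k1, hK⟩ := hD
  have e1 : (θ - η / 6) * u / (θ + η / 6) ≤ u := by
    rw [div_le_iff₀ (by linarith only [h3, h4, t2])]
    linarith only [h3, h2, mul_nonneg_of_nonpos_of_nonpos (Mathlib.Tactic.Linarith.sub_nonpos_of_le h2) (le_of_lt (Mathlib.Tactic.Linarith.sub_neg_of_lt h3))]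
  have e2 : u - η ≤ (θ - η / 6) * u / (θ + η / 6) := by
    rw [le_div_iff₀ (by linarith only [h3, h4, t2])]
    linarith only [h3, t2, u1, mul_pos_of_neg_of_neg (Mathlib.Tactic.Linarith.sub_neg_of_lt h3) (Mathlib.Tactic.Linarith.sub_neg_of_lt h3), mul_nonneg_of_nonpos_of_nonpos (le_of_lt (Mathlib.Tactic.Linarith.sub_neg_of_lt h3)) (Mathlib.Tactic.Linarith.sub_nonpos_of_le t2), mul_nonneg_of_nonpos_of_nonpos (le_of_lt (Mathlib.Tactic.Linarith.sub_neg_of_lt h3)) (Mathlib.Tactic.Linarith.sub_nonpos_of_le u1)]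
  have W : Par f (θ + η / 6) ((θ - η / 6) * u) ((θ - η / 6) * u / (θ + η / 6)) (K1 + K0 + 2) := by
    refine ⟨by linarith only [h3, h4, k0, k1], by linarith only [h3, h4, t2], by linarith only [h2, h3, h4, e2], by linarith only [h2, h3, h4, t2, mul_nonneg_of_nonpos_of_nonpos (Mathlib.Tactic.Linarith.sub_nonpos_of_le h2) (Mathlib.Tactic.Linarith.sub_nonpos_of_le h4), mul_nonneg_of_nonpos_of_nonpos (Mathlib.Tactic.Linarith.sub_nonpos_of_le h2) (Mathlib.Tactic.Linarith.sub_nonpos_of_le t2)], by linarith only [h1, h3, e1, h2, mul_nonneg_of_nonpos_of_nonpos (Mathlib.Tactic.Linarith.sub_nonpos_of_le h2) (le_of_lt (Mathlib.Tactic.Linarith.sub_neg_of_lt h3))],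
      (div_mul_cancel₀ _ (by linarith only [h3, h4, t2])).le, fun y => by linarith only [h3, h4, k0, hK, (hK y).2], fun p => ?_⟩
    have k2 := (Nat.lt_floor_add_one ((p - K0 - 1) * u)).le
    have k3 := (hK ⌊(p - K0 - 1) * u⌋₊).1
    have k4 := Nat.cast_nonneg (α := ℝ) p
    refine ⟨⌊(p - K0 - 1) * u⌋₊, Nat.floor_le_of_le (by linarith only [h2, h3, h4, k0, u1, mul_nonneg_of_nonpos_of_nonpos (Mathlib.Tactic.Linarith.sub_nonpos_of_le (Mathlib.Tactic.Linarith.natCast_nonneg ℝ p)) (Mathlib.Tactic.Linarith.sub_nonpos_of_le u1), mul_nonneg_of_nonpos_of_nonpos (Mathlib.Tactic.Linarith.sub_nonpos_of_le h2) (Mathlib.Tactic.Linarith.sub_nonpos_of_le k0)]), fun b k q hq => ?_, ?_⟩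
    · rcases le_total 0 ((p - K0 - 1) * u) with e | e
      · obtain ⟨k5, k6⟩ := H.sh_iff.1 k
        have k7 : (tm f b : ℝ) ≤ (p - K0 - 1) * u := (Nat.le_floor_iff e).1 k6
        rw [← div_le_iff₀ (by linarith only [h2, h3, h4]), div_eq_inv_mul] at k7
        exact_mod_cast (show (f q b : ℝ) < p by linarith only [h3, h4, k7, hM, k5, hq, hM b q k5 hq])
      · rw [Nat.floor_of_nonpos e] at k
        exact absurd k H.not_sh_zero
    · have k5 := mul_le_mul_of_nonneg_left k2 (show 0 ≤ θ - η / 6 by linarith only [h3, h4, t2])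
      have k6 : (θ - η / 6) * u * (K0 + 1) ≤ K0 + 1 := by
        have : (θ - η / 6) * u ≤ 1 := by linarith only [h1, h2, h3, h4, mul_nonneg_of_nonpos_of_nonpos (Mathlib.Tactic.Linarith.sub_nonpos_of_le h2) (le_of_lt (Mathlib.Tactic.Linarith.sub_neg_of_lt h3))]
        (refine le_of_not_gt fun h_nl => ?_; linarith only [h_nl, h1, h2, h3, h4, u1, k0, this, mul_pos_of_neg_of_neg (Mathlib.Tactic.Linarith.sub_neg_of_lt h3) (Mathlib.Tactic.Linarith.sub_neg_of_lt h3), mul_nonneg_of_nonpos_of_nonpos (le_of_lt (Mathlib.Tactic.Linarith.sub_neg_of_lt h3)) (Mathlib.Tactic.Linarith.sub_nonpos_of_le h4), mul_pos_of_neg_of_neg (Mathlib.Tactic.Linarith.sub_neg_of_lt h3) (Mathlib.Tactic.Linarith.sub_neg_of_lt h_nl), mul_nonneg_of_nonpos_of_nonpos (Mathlib.Tactic.Linarith.sub_nonpos_of_le h4) (Mathlib.Tactic.Linarith.sub_nonpos_of_le u1), mul_nonneg_of_nonpos_of_nonpos (Mathlib.Tactic.Linarith.sub_nonpos_of_le h4) (le_of_lt (Mathlib.Tactic.Linarith.sub_neg_of_lt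 h_nl)), mul_nonneg_of_nonpos_of_nonpos (Mathlib.Tactic.Linarith.sub_nonpos_of_le k0) (Mathlib.Tactic.Linarith.sub_nonpos_of_le this)])
      linarith only [h3, h4, t1, k3, k5, k6]
  have key : (θ + η / 6 + (1 - u + 8 * η)) * (1 - (θ - η / 6) * u) <
      (1 - u + 8 * η) * (1 + (θ - η / 6) * u / (θ + η / 6)) := by
    refine lt_of_lt_of_le ?_ (mul_le_mul_of_nonneg_left (add_le_add_right e2 1) (by linarith only [h3, u1]))
    have := mul_nonneg (sub_nonneg.2 h1) (show 0 ≤ u - θ + η / 6 by linarith only [h2, t1])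
    have := mul_pos h3 (show 0 < u by linarith only [h2, h3, h4])
    have := mul_le_mul_of_nonneg_left h4 h3.le
    nlinarith
  obtain ⟨B, hB⟩ := H.vbound W (by linarith only [h3, e2]) key
  exact ⟨_, _, _, _, max B 0, W, by linarith only [h3], by linarith only [h3], by linarith only [h3, h4, u1, mul_pos_of_neg_of_neg (Mathlib.Tactic.Linarith.sub_neg_of_lt h3) (Mathlib.Tactic.Linarith.sub_neg_of_lt h3), mul_nonneg_of_nonpos_of_nonpos (le_of_lt (Mathlib.Tactic.Linarith.sub_neg_of_lt h3)) (Mathlib.Tactic.Linarith.sub_nonpos_of_le h4), mul_nonneg_of_nonpos_of_nonpos (le_of_lt (Mathlib.Tactic.Linarith.sub_neg_of_lt h3)) (Mathlib.Tactic.Linarith.sub_nonpos_of_le u1)], by linarith only [h3, h2, mul_nonneg_of_nonpos_of_nonpos (Mathlib.Tactic.Linarith.sub_nonpos_of_le h2) (le_of_lt (Mathlib.Tactic.Linarith.sub_neg_of_lt h3))], e2, e1,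
    fun y => by linarith only [h3, h4, k0, hK, (hK y).1, Nat.cast_nonneg (α := ℝ) y, mul_nonneg_of_nonpos_of_nonpos (Mathlib.Tactic.Linarith.sub_nonpos_of_le (Mathlib.Tactic.Linarith.natCast_nonneg ℝ y)) (le_of_lt (Mathlib.Tactic.Linarith.sub_neg_of_lt h3))], key.le, le_max_right _ _,
    fun b hb => (hB b hb).trans (by gcongr; exact le_max_left _ _)⟩

lemma hm_step {η : ℝ} (hD : Den f θ (η / 6)) (hM : HM f μ) (h1 : 1 + θ ≤ μ) (h2 : μ ≤ 2)
    (h3 : 0 < η) (h4 : η ≤ 1 / 20) : HM f (2 * (1 + θ) - (1 + θ) ^ 2 * μ⁻¹ + 13 * η) := by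
  have t1 := H.half hD
  have t2 := H.third' hD (by linarith only [h4])
  have u1 : (1 + θ) * μ⁻¹ ≤ 1 := by rwa [mul_inv_le_iff₀ (by linarith only [h1, h3, h4, t2]), one_mul]
  have u2 : 1 / 2 ≤ μ⁻¹ := by rw [one_div]; exact inv_anti₀ (by linarith only [h1, h3, h4, t2]) h2
  obtain ⟨θ1, a, e, K, B, W, k1, k2, k3, k4, k5, k6, -, -, -, k7⟩ :=
    H.pack hD (u := μ⁻¹) (by rwa [inv_inv]) u1 u2 h3 h4
  have a0 := W.a0
  have c0 := W.c0
  refine (H.mu_step W k7 (by (refine le_of_not_gt fun h_nl => ?_; linarith only [h_nl, u1, k1, k4, h3, h4, t2, u2, mul_pos_of_neg_of_neg (Mathlib.Tactic.Linarith.sub_neg_of_lt h3) (Mathlib.Tactic.Linarith.sub_neg_of_lt h_nl), mul_nonneg_of_nonpos_of_nonpos (Mathlib.Tactic.Linarith.sub_nonpos_of_le h4) (le_of_lt (Mathlib.Tactic.Linarith.sub_neg_of_lt h_nl)), mul_nonneg_of_nonpos_of_nonpos (Mathlib.Tactic.Linarith.sub_nonpos_of_le t2) (Mathlib.Tactic.Linarith.sub_nonpos_of_le u1), mul_nonneg_of_nonpos_of_nonpos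 (Mathlib.Tactic.Linarith.sub_nonpos_of_le t2) (Mathlib.Tactic.Linarith.sub_nonpos_of_le k4), mul_nonneg_of_nonpos_of_nonpos (Mathlib.Tactic.Linarith.sub_nonpos_of_le u1) (Mathlib.Tactic.Linarith.sub_nonpos_of_le k1), mul_nonneg_of_nonpos_of_nonpos (Mathlib.Tactic.Linarith.sub_nonpos_of_le u2) (Mathlib.Tactic.Linarith.sub_nonpos_of_le k1), mul_nonneg_of_nonpos_of_nonpos (Mathlib.Tactic.Linarith.sub_nonpos_of_le k1) (Mathlib.Tactic.Linarith.sub_nonpos_of_le k4)]))).mono ?_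
  have := mul_le_mul k2 (show 2 - a - e ≤ 2 - θ * μ⁻¹ - μ⁻¹ + 2 * η by linarith only [k3, k5])
    (by linarith only [h3, h4, u1, k4, k6, W.ac]) (by linarith only [h3, h4, t2])
  linarith only [k3, this, h3, h4, t1, u2, k4, a0, mul_pos_of_neg_of_neg (Mathlib.Tactic.Linarith.sub_neg_of_lt h3) (Mathlib.Tactic.Linarith.sub_neg_of_lt h3), mul_nonneg_of_nonpos_of_nonpos (le_of_lt (Mathlib.Tactic.Linarith.sub_neg_of_lt h3)) (Mathlib.Tactic.Linarith.sub_nonpos_of_le h4), mul_nonneg_of_nonpos_of_nonpos (le_of_lt (Mathlib.Tactic.Linarith.sub_neg_of_lt h3)) (Mathlib.Tactic.Linarith.sub_nonpos_of_le t1), mul_nonneg_of_nonpos_of_nonpos (le_of_lt (Mathlib.Tactic.Linarith.sub_neg_of_lt h3)) (Mathlib.Tactic.Linarith.sub_nonpos_of_le u2), mul_nonneg_of_nonpos_of_nonpos (le_of_lt (Mathlib.Tactic.Linarith.sub_neg_of_lt h3)) (Mathlib.Tactic.Linarith.sub_nonpos_of_le k4), mul_nonneg_of_nonpos_of_nonpos (le_of_lt (Mathlib.Tactic.Linarith.sub_neg_of_lt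 h3)) (Mathlib.Tactic.Linarith.sub_nonpos_of_le a0)]

theorem hm_lim {η ζ : ℝ} (hD : Den f θ (η / 6)) (h : 0 < η) (h' : η ≤ 1 / 20) (hζ : 0 < ζ)
    (hη : 27 * η ≤ ζ ^ 2) : HM f (1 + θ + ζ) := by
  have t1 := H.half hD
  have t2 := H.third' hD (by linarith only [h'])
  have h2 : (2 : ℝ) ∈ {μ | 1 + θ ≤ μ ∧ HM f μ} := ⟨by linarith only [h, h', t1], H.hm_two⟩
  have hb : BddBelow {μ | 1 + θ ≤ μ ∧ HM f μ} := ⟨1 + θ, fun _ k => k.1⟩
  have h3 : sInf {μ | 1 + θ ≤ μ ∧ HM f μ} < 1 + θ + ζ := by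
    by_contra k
    set m := sInf {μ | 1 + θ ≤ μ ∧ HM f μ}
    have k1 : m ≤ 2 := csInf_le hb h2
    obtain ⟨μ, k3, k4⟩ : ∃ μ ∈ {μ | 1 + θ ≤ μ ∧ HM f μ}, μ ≤ 2 ∧ μ < m + η / 2 := by
      obtain ⟨μ, k3, k4⟩ := exists_lt_of_csInf_lt ⟨2, h2⟩ (show m < m + η / 2 by linarith only [h])
      rcases le_total μ 2 with e | e
      exacts [⟨μ, k3, e, k4⟩, ⟨2, h2, le_rfl, by linarith only [k4, e]⟩]
    have k5 : m ≤ μ := csInf_le hb k3
    have k6 := H.hm_step hD k3.2 k3.1 k4.1 h h'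
    have k7 : m ≤ max (1 + θ) _ := csInf_le hb ⟨le_max_left _ _, k6.mono (le_max_right _ _)⟩
    rw [le_max_iff, or_iff_right (by linarith only [hζ, k])] at k7
    have k8 : μ * μ⁻¹ = 1 := mul_inv_cancel₀ (by linarith only [h, h', hζ, t2, k, k5])
    have k9 : 1 / 2 ≤ μ⁻¹ := by rw [one_div]; exact inv_anti₀ (by linarith only [h, h', hζ, t2, k, k5]) k4.1
    have k10 : 2 * (1 + θ) - (1 + θ) ^ 2 * μ⁻¹ = μ - (μ - (1 + θ)) ^ 2 * μ⁻¹ := by
      linear_combination (μ - 2 * (1 + θ)) * k8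
    have k11 : ζ ^ 2 ≤ (μ - (1 + θ)) ^ 2 := by linarith only [hη, k7, k10, k9, h, hζ, k, k4, h', k5, t2, mul_nonneg_of_nonpos_of_nonpos (Mathlib.Tactic.Linarith.sub_nonpos_of_le (sq_nonneg (μ - ((1 : ℝ) + θ)))) (Mathlib.Tactic.Linarith.sub_nonpos_of_le k9), mul_pos_of_neg_of_neg (Mathlib.Tactic.Linarith.sub_neg_of_lt h) (Mathlib.Tactic.Linarith.sub_neg_of_lt h), mul_pos_of_neg_of_neg (Mathlib.Tactic.Linarith.sub_neg_of_lt h) (Mathlib.Tactic.Linarith.sub_neg_of_lt hζ), mul_nonneg_of_nonpos_of_nonpos (le_of_lt (Mathlib.Tactic.Linarith.sub_neg_of_lt h)) (Mathlib.Tactic.Linarith.sub_nonpos_of_le (le_of_not_gt k)), mul_pos_of_neg_of_neg (Mathlib.Tactic.Linarith.sub_neg_of_lt h) (Mathlib.Tactic.Linarith.sub_neg_of_lt k4.right), mul_nonneg_of_nonpos_of_nonpos (Mathlib.Tactic.Linarith.sub_nonpos_of_le h') (le_of_lt (Mathlib.Tactic.Linarith.sub_neg_of_lt k4.right)), mul_nonneg_of_nonpos_of_nonpos (le_of_lt (Mathlib.Tactic.Linarith.sub_neg_of_lt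 hζ)) (Mathlib.Tactic.Linarith.sub_nonpos_of_le (le_of_not_gt k)), mul_nonneg_of_nonpos_of_nonpos (le_of_lt (Mathlib.Tactic.Linarith.sub_neg_of_lt hζ)) (Mathlib.Tactic.Linarith.sub_nonpos_of_le k5), mul_nonneg_of_nonpos_of_nonpos (Mathlib.Tactic.Linarith.sub_nonpos_of_le t2) (le_of_lt (Mathlib.Tactic.Linarith.sub_neg_of_lt k4.right)), mul_nonneg_of_nonpos_of_nonpos (Mathlib.Tactic.Linarith.sub_nonpos_of_le (le_of_not_gt k)) (Mathlib.Tactic.Linarith.sub_nonpos_of_le (le_of_not_gt k)), mul_nonneg_of_nonpos_of_nonpos (Mathlib.Tactic.Linarith.sub_nonpos_of_le (le_of_not_gt k)) (Mathlib.Tactic.Linarith.sub_nonpos_of_le k5), mul_nonneg_of_nonpos_of_nonpos (Mathlib.Tactic.Linarith.sub_nonpos_of_le k4.left) (le_of_lt (Mathlib.Tactic.Linarith.sub_neg_of_lt k4.right))]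
    linarith only [hη, k4, k7, k10, k11, k9, k4.2, mul_nonneg_of_nonpos_of_nonpos (Mathlib.Tactic.Linarith.sub_nonpos_of_le (sq_nonneg (μ - ((1 : ℝ) + θ)))) (Mathlib.Tactic.Linarith.sub_nonpos_of_le k9)]
  obtain ⟨μ, k3, k4⟩ := exists_lt_of_csInf_lt ⟨2, h2⟩ h3
  exact k3.2.mono k4.le

end Mex

end Pool.Agent.Chomp
end

-- merged part: Pool.Agent.Work.MP_ff0f6a_lc.Bridge
section
/-!
The boards with a winning first move in the last row are counted by the terminal values.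
-/

namespace Pool.Agent.Chomp

theorem exists_count : ∃ f, Mex f ∧
    ∀ N, {n | n < N ∧ ∃ j, WinMove 2 n (2, j)}.ncard = th f N := by
  obtain ⟨f, H, hf⟩ := exists_mex
  refine ⟨f, H, fun N => ?_⟩
  have e : ∀ n, (∃ j, WinMove 2 n (2, j)) ↔ Dead f (n + 1) (n + 1) := fun n => by
    rw [winMove_iff]
    exact ⟨fun ⟨b, k1, k2⟩ => ⟨b, by omega, by omega, (hf _ _ (by omega) (by omega)).2 k2⟩,
      fun ⟨b, k1, k2, k3⟩ => ⟨b, by omega, (hf _ _ k2 (by omega)).1 k3⟩⟩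
  have e1 : ∀ N, cnt (fun p => Dead f p p) (N + 1) = cnt (fun n => Dead f (n + 1) (n + 1)) N := by
    intro N
    induction N with
    | zero => rw [cnt_zero, cnt_false fun b _ ⟨a, k, _⟩ => by omega]
    | succ N ih => rw [cnt_succ, ih, cnt_succ]
  rw [H.th_eq, e1, cnt, ← Set.ncard_coe_finset]
  congr 1
  ext n
  simp [e]

end Pool.Agent.Chomp
end
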