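import Mathlib

/-!
Chomp (Gale's Nim): boards, moves, outcomes.
-/

namespace Pool.Agent.Chomp

/-- the board `B_{m,n}`: the cells `(i, j)` with `i ≤ m`, `j ≤ n`, other than `(0, 0)` -/
def board (m n : ℕ) : Finset (ℕ × ℕ) := (Finset.range (m + 1) ×ˢ Finset.range (n + 1)).erase (0, 0)

/-- the move at the cell `c` deletes `c` and every cell weakly north-east of it -/
def bite (S : Finset (ℕ × ℕ)) (c : ℕ × ℕ) : Finset (ℕ × ℕ) :=
  S.filter fun x => ¬ (c.1 ≤ x.1 ∧ c.2 ≤ x.2)

/-- `Out true S`: the player to move at `S` can force a win; `Out false S`: the other player can.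
A player without a move loses. -/
inductive Out : Bool → Finset (ℕ × ℕ) → Prop
  | win (S : Finset (ℕ × ℕ)) (c : ℕ × ℕ) : c ∈ S → Out false (bite S c) → Out true S
  | lose (S : Finset (ℕ × ℕ)) : (∀ c ∈ S, Out true (bite S c)) → Out false S

/-- `c` is a winning first move on the board `B_{m,n}` -/
def WinMove (m n : ℕ) (c : ℕ × ℕ) : Prop := c ∈ board m n ∧ Out false (bite (board m n) c)

end Pool.Agent.Chomp
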