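import Pool.Agent.Work.MP_ff0f6a_lc.Defs

/-!
Chomp: the input and output conventions of an algorithm, and winning strategies.
-/

namespace Pool.Agent.Chomp

/-- the input of an algorithm at the position `S` of the board `B_{m,n}`: the numbers `m` and `n`
in unary, and the table with `m + 1` rows and `n + 1` columns that marks the cells of `S` -/
def code (m n : ℕ) (S : Finset (ℕ × ℕ)) : List Bool × List Bool :=
  (List.replicate m true ++ List.replicate n false,
    (List.range (m + 1)).flatMap fun i => (List.range (n + 1)).map fun j => decide ((i, j) ∈ S))

/-- the cell named by an output string: its numbers of ones and of zeros -/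
def cell (w : List Bool) : ℕ × ℕ := (w.count true, w.count false)

/-- `Wins σ S`: the player to move at `S` who always plays the cell `σ` of the current position
makes only legal moves and wins every play, whatever the other player answers. -/
inductive Wins (σ : Finset (ℕ × ℕ) → ℕ × ℕ) : Finset (ℕ × ℕ) → Prop
  | mk (S : Finset (ℕ × ℕ)) : σ S ∈ S →
      (∀ c ∈ bite S (σ S), Wins σ (bite (bite S (σ S)) c)) → Wins σ S

end Pool.Agent.Chomp
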