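import Pool.Agent.Work.MP_ff0f6a_lc.Game
import Pool.Agent.Lib.Cx.Iter
import Pool.Agent.Work.MP_ff0f6a_lc.Strat

-- merged part: Pool.Agent.Work.MP_ff0f6a_lc.Hook
section
/-!
Positions made of two rows and two columns, and the recurrence of their outcomes.
-/

namespace Pool.Agent.Chomp

open Finset

/-- rows `0`, `1` of lengths `r0`, `r1` together with columns `0`, `1` of heights `c0`, `c1` -/
def hook (r0 r1 c0 c1 : ℕ) : Finset (ℕ × ℕ) :=
  (range (2 + c0 + c1) ×ˢ range (2 + r0 + r1)).filter fun x => x ≠ (0, 0) ∧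
    ((x.1 = 0 ∧ x.2 < r0) ∨ (x.1 = 1 ∧ x.2 < r1) ∨ (x.2 = 0 ∧ x.1 < c0) ∨ (x.2 = 1 ∧ x.1 < c1))

lemma mem_hook {r0 r1 c0 c1 i j : ℕ} : (i, j) ∈ hook r0 r1 c0 c1 ↔ ¬ (i = 0 ∧ j = 0) ∧
    ((i = 0 ∧ j < r0) ∨ (i = 1 ∧ j < r1) ∨ (j = 0 ∧ i < c0) ∨ (j = 1 ∧ i < c1)) := by
  simp only [hook, mem_filter, mem_product, mem_range, ne_eq, Prod.mk.injEq]
  (clear * -; lia)

lemma mem_bite {S : Finset (ℕ × ℕ)} {i j x y : ℕ} :
    (x, y) ∈ bite S (i, j) ↔ (x, y) ∈ S ∧ ¬ (i ≤ x ∧ j ≤ y) := by
  simp only [bite, mem_filter]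

lemma mem_board {m n i j : ℕ} : (i, j) ∈ board m n ↔ ¬ (i = 0 ∧ j = 0) ∧ i ≤ m ∧ j ≤ n := by
  simp only [board, mem_erase, mem_product, mem_range, ne_eq, Prod.mk.injEq]
  omega

lemma bite_hook (r0 r1 c0 c1 i j : ℕ) : bite (hook r0 r1 c0 c1) (i, j) =
    hook (if i = 0 then min r0 j else r0) (if i ≤ 1 then min r1 j else r1)
      (if j = 0 then min c0 i else c0) (if j ≤ 1 then min c1 i else c1) := by
  ext ⟨x, y⟩
  simp only [mem_bite, mem_hook]
  split_ifs <;> omega

lemma bite_board {m n i j : ℕ} (hi : i ≤ 2) (hj : j ≤ 2) (h : (i, j) ∈ board m n) :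
    bite (board m n) (i, j) = hook (if 1 ≤ i then n + 1 else 0) (if 2 ≤ i then n + 1 else 0)
      (if 1 ≤ j then m + 1 else 0) (if 2 ≤ j then m + 1 else 0) := by
  ext ⟨x, y⟩
  rw [mem_board] at h
  simp only [mem_bite, mem_hook, mem_board]
  split_ifs <;> lia

lemma out_empty : Out false ∅ := .lose _ (by simp)

lemma out_ell (p q : ℕ) : Out false (hook (p + 1) 0 (q + 1) 0) ↔ p = q := by
  induction h : p + q using Nat.strong_induction_on generalizing p q with
  | _ n ih =>
    have e1 : ∀ j < p, bite (hook (p + 1) 0 (q + 1) 0) (0, j + 1) = hook (j + 1) 0 (q + 1) 0 :=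
      fun j hj => by ext ⟨x, y⟩; simp only [mem_bite, mem_hook]; (clear * - h hj; lia)
    have e2 : ∀ i < q, bite (hook (p + 1) 0 (q + 1) 0) (i + 1, 0) = hook (p + 1) 0 (i + 1) 0 :=
      fun j hj => by ext ⟨x, y⟩; simp only [mem_bite, mem_hook]; (clear * - h hj; lia)
    rw [out_false_iff]
    constructor
    · intro k
      rcases lt_trichotomy p q with l | l | l
      · have := k (p + 1, 0) (mem_hook.2 (by omega))
        rw [e2 p l, ih _ (by omega) p p rfl] at this
        exact absurd rfl this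
      · exact l
      · have := k (0, q + 1) (mem_hook.2 (by omega))
        rw [e1 q l, ih _ (by omega) q q rfl] at this
        exact absurd rfl this
    · rintro rfl ⟨i, j⟩ hc
      rw [mem_hook] at hc
      rcases i with _ | i
      · obtain ⟨j, rfl⟩ : ∃ k, j = k + 1 := ⟨j - 1, by omega⟩
        rw [e1 j (by omega), ih _ (by omega) j p rfl]
        omega
      · obtain rfl : j = 0 := by omega
        rw [e2 i (by omega), ih _ (by omega) p i rfl]
        omega

/-- the hook containing the two by two corner with tails `a`, `b`, `c`, `d` is lost -/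
def HP (a b c d : ℕ) : Prop := Out false (hook (a + 2) (b + 2) (c + 2) (d + 2))

lemma hp_iff {a b c d : ℕ} (hb : b ≤ a) (hd : d ≤ c) : HP a b c d ↔ a ≠ c ∧
    (∀ j < a, ¬ HP j (min b j) c d) ∧ (∀ j < b, ¬ HP a j c d) ∧
    (∀ i < c, ¬ HP a b i (min d i)) ∧ ∀ i < d, ¬ HP a b c i := by
  have e0 : bite (hook (a + 2) (b + 2) (c + 2) (d + 2)) (1, 1) =
      hook (a + 1 + 1) 0 (c + 1 + 1) 0 := by
    ext ⟨x, y⟩; simp only [mem_bite, mem_hook]; (clear * - hb hd; lia)
  have e1 : ∀ j < a, bite (hook (a + 2) (b + 2) (c + 2) (d + 2)) (0, j + 2) =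
      hook (j + 2) (min b j + 2) (c + 2) (d + 2) :=
    fun j hj => by ext ⟨x, y⟩; simp only [mem_bite, mem_hook]; (clear * - hd hj; lia)
  have e2 : ∀ j < b, bite (hook (a + 2) (b + 2) (c + 2) (d + 2)) (1, j + 2) =
      hook (a + 2) (j + 2) (c + 2) (d + 2) :=
    fun j hj => by ext ⟨x, y⟩; simp only [mem_bite, mem_hook]; omega
  have e3 : ∀ i < c, bite (hook (a + 2) (b + 2) (c + 2) (d + 2)) (i + 2, 0) =
      hook (a + 2) (b + 2) (i + 2) (min d i + 2) :=
    fun j hj => by ext ⟨x, y⟩; simp only [mem_bite, mem_hook]; omega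
  have e4 : ∀ i < d, bite (hook (a + 2) (b + 2) (c + 2) (d + 2)) (i + 2, 1) =
      hook (a + 2) (b + 2) (c + 2) (i + 2) :=
    fun j hj => by ext ⟨x, y⟩; simp only [mem_bite, mem_hook]; (clear * - hb hd hj; omega)
  have e5 : bite (hook (a + 2) (b + 2) (c + 2) (d + 2)) (0, 1) =
      hook (0 + 1) 0 (c + 1 + 1) 0 := by
    ext ⟨x, y⟩; simp only [mem_bite, mem_hook]; (clear * - hd; lia)
  have e6 : bite (hook (a + 2) (b + 2) (c + 2) (d + 2)) (1, 0) =
      hook (a + 1 + 1) 0 (0 + 1) 0 := by
    ext ⟨x, y⟩; simp only [mem_bite, mem_hook]; (clear * - hb hd; lia)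
  rw [HP, out_false_iff]
  constructor
  · intro h
    refine ⟨fun k => ?_, fun j hj => ?_, fun j hj => ?_, fun j hj => ?_, fun j hj => ?_⟩
    · have := h (1, 1) (mem_hook.2 (by omega))
      rw [e0, out_ell] at this
      omega
    · have := h (0, j + 2) (mem_hook.2 (by omega))
      rwa [e1 j hj] at this
    · have := h (1, j + 2) (mem_hook.2 (by omega))
      rwa [e2 j hj] at this
    · have := h (j + 2, 0) (mem_hook.2 (by omega))
      rwa [e3 j hj] at this
    · have := h (j + 2, 1) (mem_hook.2 (by omega))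
      rwa [e4 j hj] at this
  · rintro ⟨h0, h1, h2, h3, h4⟩ ⟨i, j⟩ hc
    rw [mem_hook] at hc
    rcases i with _ | _ | i <;> rcases j with _ | _ | j
    · omega
    · rw [e5, out_ell]; omega
    · rw [e1 j (by omega)]; exact h1 j (by omega)
    · rw [e6, out_ell]; omega
    · rw [e0, out_ell]; omega
    · rw [e2 j (by omega)]; exact h2 j (by omega)
    · rw [e3 i (by omega)]; exact h3 i (by omega)
    · rw [e4 i (by omega)]; exact h4 i (by omega)
    · omega

lemma hp_symm {a b c d : ℕ} (hb : b ≤ a) (hd : d ≤ c) : HP a b c d ↔ HP c d a b := by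
  induction h : a + b + c + d using Nat.strong_induction_on generalizing a b c d with
  | _ n ih =>
    rw [hp_iff hb hd, hp_iff hd hb]
    have e1 : ∀ j < a, (HP j (min b j) c d ↔ HP c d j (min b j)) :=
      fun j hj => ih _ (by omega) (by omega) hd rfl
    have e2 : ∀ j < b, (HP a j c d ↔ HP c d a j) := fun j hj => ih _ (by omega) (by omega) hd rfl
    have e3 : ∀ j < c, (HP a b j (min d j) ↔ HP j (min d j) a b) :=
      fun j hj => ih _ (by omega) hb (by omega) rfl
    have e4 : ∀ j < d, (HP a b c j ↔ HP c j a b) := fun j hj => ih _ (by omega) hb (by omega) rfl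
    constructor
    · rintro ⟨h0, h1, h2, h3, h4⟩
      exact ⟨h0.symm, fun j hj => (e3 j hj).not.1 (h3 j hj), fun j hj => (e4 j hj).not.1 (h4 j hj),
        fun j hj => (e1 j hj).not.1 (h1 j hj), fun j hj => (e2 j hj).not.1 (h2 j hj)⟩
    · rintro ⟨h0, h1, h2, h3, h4⟩
      exact ⟨h0.symm, fun j hj => (e1 j hj).not.2 (h3 j hj), fun j hj => (e2 j hj).not.2 (h4 j hj),
        fun j hj => (e3 j hj).not.2 (h1 j hj), fun j hj => (e4 j hj).not.2 (h2 j hj)⟩

/-- the properties of the set of lost hooks used in the counting argument -/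
structure HookRule (Q : ℕ → ℕ → ℕ → ℕ → Prop) : Prop where
  le : ∀ {a b c d}, Q a b c d → b ≤ a
  symm : ∀ {a b c d}, Q a b c d → Q c d a b
  ne : ∀ {a b c d}, Q a b c d → a ≠ c
  row : ∀ {a b c d j}, Q a b c d → j < a → ¬ Q j (min b j) c d
  snd : ∀ {a b b' c d}, Q a b c d → Q a b' c d → b = b'
  opt : ∀ {a b c d}, b ≤ a → d ≤ c → a ≠ c → ¬ Q a b c d → (∃ j < a, Q j (min b j) c d) ∨
    (∃ j < b, Q a j c d) ∨ (∃ i < c, Q a b i (min d i)) ∨ ∃ i < d, Q a b c i

theorem hookRule : HookRule fun a b c d => b ≤ a ∧ d ≤ c ∧ HP a b c d where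
  le h := h.1
  symm h := ⟨h.2.1, h.1, (hp_symm h.1 h.2.1).1 h.2.2⟩
  ne h := ((hp_iff h.1 h.2.1).1 h.2.2).1
  row h hj k := ((hp_iff h.1 h.2.1).1 h.2.2).2.1 _ hj k.2.2
  snd := by
    intro a b b' c d h h'
    rcases lt_trichotomy b b' with l | l | l
    · exact absurd h.2.2 (((hp_iff h'.1 h'.2.1).1 h'.2.2).2.2.1 _ l)
    · exact l
    · exact absurd h'.2.2 (((hp_iff h.1 h.2.1).1 h.2.2).2.2.1 _ l)
  opt := by
    intro a b c d hb hd hne h
    by_contra k
    push Not at k
    obtain ⟨k1, k2, k3, k4⟩ := k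
    exact h ⟨hb, hd, (hp_iff hb hd).2 ⟨hne, fun j hj => k1 j hj (by omega) hd,
      fun j hj => k2 j hj (by omega) hd, fun j hj => k3 j hj hb (by omega),
      fun j hj => k4 j hj hb (by omega)⟩⟩

lemma winMove_two {k m : ℕ} (hk : 1 ≤ k) (hm : 1 ≤ m) (h : HP k k m m) :
    WinMove (m + 1) (k + 1) (2, 2) := by
  have hc : (2, 2) ∈ board (m + 1) (k + 1) := mem_board.2 (by omega)
  refine ⟨hc, ?_⟩
  rw [bite_board le_rfl le_rfl hc]
  exact h

end Pool.Agent.Chomp
end

-- merged part: Pool.Agent.Work.MP_ff0f6a_lc.IterF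
section
/-!
Polynomially many iterations of an `LS` step, with a string as the answer.
-/

namespace Pool.Agent.Chomp

open Pool.Agent.Lib.Cx Function Prog Obj N487b59b3 N68a2faeb Turing

variable {α : Type} [Obj α]

theorem exists_iter_str {init : List Bool → α} {step : α → α} {done : α → Bool}
    {ans : α → List Bool} (hi : LS init) (hs : LS step) (hd : LS done) (ha : LS ans) :
    ∃ (P : SP) (q : Polynomial ℕ), ∀ x T B, (∀ t < T, done (step^[t] (init x)) = false) →
      done (step^[T] (init x)) = true → (∀ t ≤ T, sz (step^[t] (init x)) ≤ B) → x.length ≤ B →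
      RunLe ssem (SInv (q.eval B)) P (Env.one x) (Env.one (ans (step^[T] (init x))))
        ((T + 3) * (q.eval B + 1)) := by
  have h1 : LS (fun s : Str => Str.mk (done (init s.val) :: flat (init s.val))) := by fun_prop
  obtain ⟨P1, q1, e1⟩ := h1.exists_sp Str.val (fun _ => rfl)
  obtain ⟨P2, q2, e2⟩ := LS.exists_sp_flag
    (f := fun a => done (step a) :: flat (step a)) (by fun_prop) done
  obtain ⟨P3, q3, e3⟩ := LS.exists_sp_flag ha done
  let r : Polynomial ℕ := 2 * Polynomial.X + Polynomial.C (ar α) + 1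
  have hr : ∀ B, r.eval B = 2 * B + ar α + 1 := fun B => by simp [r]
  refine ⟨.seq P1 (.seq (.loop (SP.top 0 (· == some false)) P2) P3),
    r + q1 + q2.comp r + q3.comp r, fun x T B h1 h2 h3 h4 => ?_⟩
  set S := (r + q1 + q2.comp r + q3.comp r).eval B with hS
  have hS' : S = 2 * B + ar α + 1 + q1.eval B + q2.eval (2 * B + ar α + 1) +
      q3.eval (2 * B + ar α + 1) := by
    simp only [hS, Polynomial.eval_add, Polynomial.eval_comp, hr]
  have l1 := (e1 (Str.mk x)).bounded (S := S) (by
    have := peval_mono q1 h4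
    simp only [Str.val_mk]; omega)
  have l2 := RunLe.loop_seq (M := ssem) (I := SInv S) (t := SP.top 0 (· == some false)) (P := P2)
    (fun t => Env.one (done (step^[t] (init x)) :: flat (step^[t] (init x)))) T S
    (fun t ht => ⟨by simp [ssem, SP.top, h1 t ht], by
      rw [Function.iterate_succ_apply']
      refine (e2 _).bounded ?_
      have := h3 t ht.le
      have := peval_mono q2 (a := 2 * sz (step^[t] (init x)) + ar α + 1) (b := 2 * B + ar α + 1)
        (by omega)
      rw [List.length_cons, length_flat]; omega⟩)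
    (by simp [ssem, SP.top, h2])
  have l3 := (e3 (step^[T] (init x))).bounded (S := S) (by
    have := h3 T le_rfl
    have := peval_mono q3 (a := 2 * sz (step^[T] (init x)) + ar α + 1) (b := 2 * B + ar α + 1)
      (by omega)
    rw [List.length_cons, length_flat]; omega)
  exact (l1.seq (l2.seq l3)).mono (by ring_nf; omega)

theorem isPolyTime_of_iter {β γ : Type} [N487b59b3 β] [N487b59b3 γ] (f : β → γ)
    {init : List Bool → α} {step : α → α} {ans : α → List Bool} {N : List Bool → ℕ}
    (hi : LS init) (hs : LS step) (ha : LS ans) (hN : LS N) (B : List Bool → ℕ) (hB : LS B)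
    (h : ∀ x, ∀ t ≤ N x, sz (step^[t] (init x)) ≤ B x)
    (hf : ∀ b, ans (step^[N (bitEncode b)] (init (bitEncode b))) = bitEncode (f b)) :
    IsPolyTime f := by
  obtain ⟨P, q, e⟩ := exists_iter_str (α := α × ℕ) (init := fun x => (init x, N x))
    (step := fun p => (step p.1, p.2 - 1)) (done := fun p => decide (p.2 = 0))
    (ans := fun p => ans p.1) (by fun_prop) (by fun_prop) (by fun_prop) (by fun_prop)
  have h0 : LS (fun s : Str => B s.val + N s.val + s.val.length) := by fun_prop
  obtain ⟨r, hr⟩ := h0.bound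
  have key : ∀ x, SComp P x (ans (step^[N x] (init x)))
      (((r + 3) * (q.comp r + 1)).eval x.length) := fun x => by
    have hr' : B x + N x + x.length ≤ r.eval x.length := by simpa using hr (Str.mk x)
    have it : ∀ t, (fun p : α × ℕ => (step p.1, p.2 - 1))^[t] (init x, N x) =
        (step^[t] (init x), N x - t) := by
      intro t
      induction t with
      | zero => rfl
      | succ t ih => simp only [Function.iterate_succ_apply', ih, Nat.sub_sub]
    have := e x (N x) (r.eval x.length) (fun t ht => by simp [it]; omega) (by simp [it])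
      (fun t ht => by have := h x t ht; simp only [it, sz_prod, sz_nat]; omega) (by omega)
    rw [it] at this
    refine (this.imp fun _ _ => trivial).mono ?_
    simp only [Polynomial.eval_mul, Polynomial.eval_add, Polynomial.eval_comp, Polynomial.eval_one,
      Polynomial.eval_ofNat]
    exact Nat.mul_le_mul_right _ (by omega)
  refine SP.polyTime _ _ f P ((r + 3) * (q.comp r + 1)) fun b => ?_
  have := key (bitEncode b)
  rw [hf] at this
  exact this

theorem sz_cons' (a : α) (l : List α) : sz (a :: l) = sz l + (2 * sz a + ar α + 1) := by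
  have e : ∀ l : List α, sz l = ∑ j ∈ Finset.range (ar α),
      (l.flatMap fun a => dl (enc a j)).length + l.length := fun l => by
    simp only [sz, ar_list, Finset.sum_range_succ', enc_list_zero]
    rw [Finset.sum_congr rfl fun j hj => by rw [enc_list_succ _ (Finset.mem_range.1 hj)]]
    simp
  rw [e, e]
  simp only [List.flatMap_cons, List.length_append, length_dl, Finset.sum_add_distrib,
    List.length_cons, sz, ← Finset.mul_sum, Finset.sum_const, Finset.card_range, smul_eq_mul]
  omega

theorem sz_sublist {l l' : List α} (h : l.Sublist l') : sz l ≤ sz l' := by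
  induction h with
  | slnil => exact le_rfl
  | cons a _ ih => rw [sz_cons']; omega
  | cons_cons a _ ih => rw [sz_cons', sz_cons']; omega

end Pool.Agent.Chomp
end

-- merged part: Pool.Agent.Work.MP_ff0f6a_lc.HookAlg
section
/-!
A polynomial-time algorithm that finds a move to a lost hook whenever there is one.
-/

namespace Pool.Agent.Chomp

open Pool.Agent.Lib.Cx N487b59b3 N68a2faeb

/-- the four lengths of a hook -/
abbrev Q4 : Type := ℕ × ℕ × ℕ × ℕ

/-- the hook with the given lengths -/
def hk (q : Q4) : Finset (ℕ × ℕ) := hook q.1 q.2.1 q.2.2.1 q.2.2.2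

/-- membership in a hook -/
def inH (q : Q4) (x : ℕ × ℕ) : Bool :=
  !(decide (x.1 = 0) && decide (x.2 = 0)) && ((decide (x.1 = 0) && decide (x.2 < q.1)) ||
    (decide (x.1 = 1) && decide (x.2 < q.2.1)) || (decide (x.2 = 0) && decide (x.1 < q.2.2.1)) ||
    (decide (x.2 = 1) && decide (x.1 < q.2.2.2)))

/-- the lengths after a move -/
def nxt (q : Q4) (x : ℕ × ℕ) : Q4 :=
  (if x.1 = 0 then min q.1 x.2 else q.1, if x.1 ≤ 1 then min q.2.1 x.2 else q.2.1,
    if x.2 = 0 then min q.2.2.1 x.1 else q.2.2.1, if x.2 ≤ 1 then min q.2.2.2 x.1 else q.2.2.2)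

/-- all cells with coordinates below `L` -/
def cells (L : ℕ) : List (ℕ × ℕ) := (List.range L).flatMap fun i => (List.range L).map fun j => (i, j)

/-- all quadruples with entries below `L` -/
def quads (L : ℕ) : List Q4 :=
  (cells L).flatMap fun p => (cells L).map fun r => (p.1, p.2, r.1, r.2)

/-- one round of the backward analysis -/
def upd (L : ℕ) (lost : List Q4) : List Q4 :=
  (quads L).filter fun q => (cells L).all fun x => !inH q x || !lost.contains (nxt q x)

/-- the table lookup -/
def look (s : List Bool × List Bool) (x : ℕ × ℕ) : Bool :=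
  decide (x.1 ≤ s.1.count true) && decide (x.2 ≤ s.1.count false) &&
    s.2.getD (x.1 * (s.1.count false + 1) + x.2) false

/-- the move at `c` is legal and leads to a hook of the list -/
def good (s : List Bool × List Bool) (lost : List Q4) (c : ℕ × ℕ) : Bool :=
  look s c && lost.any fun q => (cells (s.1.length + 2)).all fun x =>
    decide (inH q x = (look s x && !(decide (c.1 ≤ x.1) && decide (c.2 ≤ x.2))))

/-- the output: the first good move, the cell `(2, 2)` being tried first -/
def pick (s : List Bool × List Bool) (lost : List Q4) : List Bool :=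
  List.replicate ((((2, 2) :: cells (s.1.length + 2)).find? (good s lost)).getD (0, 0)).1 true ++
    List.replicate ((((2, 2) :: cells (s.1.length + 2)).find? (good s lost)).getD (0, 0)).2 false

/-- the algorithm -/
def alg (s : List Bool × List Bool) : List Bool :=
  pick s ((upd (s.1.length + 2))^[4 * (s.1.length + 2)] [])

section ls

variable {α : Type} [Obj α]

@[fun_prop] lemma ls_inH {f : α → Q4} {g : α → ℕ × ℕ} (hf : LS f) (hg : LS g) :
    LS fun a => inH (f a) (g a) := by unfold inH; fun_prop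

@[fun_prop] lemma ls_nxt {f : α → Q4} {g : α → ℕ × ℕ} (hf : LS f) (hg : LS g) :
    LS fun a => nxt (f a) (g a) := by unfold nxt; fun_prop

@[fun_prop] lemma ls_cells {f : α → ℕ} (hf : LS f) : LS fun a => cells (f a) := by
  unfold cells; fun_prop

@[fun_prop] lemma ls_quads {f : α → ℕ} (hf : LS f) : LS fun a => quads (f a) := by
  unfold quads; fun_prop

@[fun_prop] lemma ls_upd {f : α → ℕ} {g : α → List Q4} (hf : LS f) (hg : LS g) :
    LS fun a => upd (f a) (g a) := by unfold upd; fun_prop

@[fun_prop] lemma ls_look {f : α → List Bool × List Bool} {g : α → ℕ × ℕ} (hf : LS f)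
    (hg : LS g) : LS fun a => look (f a) (g a) := by unfold look; fun_prop

@[fun_prop] lemma ls_good {f : α → List Bool × List Bool} {g : α → List Q4} {k : α → ℕ × ℕ}
    (hf : LS f) (hg : LS g) (hk : LS k) : LS fun a => good (f a) (g a) (k a) := by
  unfold good; fun_prop

@[fun_prop] lemma ls_pick {f : α → List Bool × List Bool} {g : α → List Q4} (hf : LS f)
    (hg : LS g) : LS fun a => pick (f a) (g a) := by unfold pick; fun_prop

end ls

theorem alg_poly : IsPolyTime alg := by
  have it : ∀ (s : List Bool × List Bool) t,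
      (fun p : (List Bool × List Bool) × List Q4 => (p.1, upd (p.1.1.length + 2) p.2))^[t] (s, []) =
        (s, (upd (s.1.length + 2))^[t] []) := by
    intro s t
    induction t with
    | zero => rfl
    | succ t ih => simp only [Function.iterate_succ_apply', ih]
  refine isPolyTime_of_iter alg (init := fun x => (unPair x, ([] : List Q4)))
    (step := fun p => (p.1, upd (p.1.1.length + 2) p.2)) (ans := fun p => bitEncode (pick p.1 p.2))
    (N := fun x => 4 * ((unPair x).1.length + 2)) (by fun_prop) (by fun_prop) (by fun_prop)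
    (by fun_prop) (fun x => sz (unPair x, quads ((unPair x).1.length + 2)))
    (LS.comp sz (fun x => (unPair x, quads ((unPair x).1.length + 2))) LS.size (by fun_prop))
    (fun x t _ => ?_) fun b => ?_
  · have : ((upd ((unPair x).1.length + 2))^[t] []).Sublist (quads ((unPair x).1.length + 2)) := by
      rcases t with _ | t
      · exact List.nil_sublist _
      · rw [Function.iterate_succ_apply']
        exact List.filter_sublist
    have := sz_sublist this
    simp only [it, sz_prod]
    omega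
  · simp only [it, unPair_bitEncode, alg]

lemma inH_iff {q : Q4} {x : ℕ × ℕ} : inH q x = true ↔ x ∈ hk q := by
  obtain ⟨i, j⟩ := x
  simp only [inH, hk, mem_hook, Bool.and_eq_true, Bool.or_eq_true, Bool.not_eq_true',
    Bool.and_eq_false_iff, decide_eq_true_eq, decide_eq_false_iff_not]
  (clear * -; lia)

lemma bite_hk (q : Q4) (x : ℕ × ℕ) : bite (hk q) x = hk (nxt q x) := bite_hook _ _ _ _ _ _

lemma mem_cells {L : ℕ} {x : ℕ × ℕ} : x ∈ cells L ↔ x.1 < L ∧ x.2 < L := by
  obtain ⟨i, j⟩ := x
  simp [cells]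

lemma mem_quads {L : ℕ} {q : Q4} :
    q ∈ quads L ↔ q.1 < L ∧ q.2.1 < L ∧ q.2.2.1 < L ∧ q.2.2.2 < L := by
  obtain ⟨a, b, c, d⟩ := q
  simp [quads, mem_cells, and_assoc]

lemma nxt_mem {L : ℕ} {q : Q4} (h : q ∈ quads L) (x : ℕ × ℕ) : nxt q x ∈ quads L := by
  rw [mem_quads] at h ⊢
  simp only [nxt]
  split_ifs <;> omega

lemma hk_cells {L : ℕ} (hL : 2 ≤ L) {q : Q4} (h : q ∈ quads L) {x : ℕ × ℕ} (hx : x ∈ hk q) :
    x ∈ cells L := by
  obtain ⟨i, j⟩ := x
  rw [mem_quads] at h
  rw [hk, mem_hook] at hx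
  rw [mem_cells]
  dsimp only
  omega

lemma mem_iter {L : ℕ} (hL : 2 ≤ L) (t : ℕ) {q : Q4} (h : q ∈ quads L)
    (ht : q.1 + q.2.1 + q.2.2.1 + q.2.2.2 < t) : q ∈ (upd L)^[t] [] ↔ Out false (hk q) := by
  induction t generalizing q with
  | zero => omega
  | succ t ih =>
    have e : ∀ x ∈ hk q, (nxt q x ∈ (upd L)^[t] [] ↔ Out false (bite (hk q) x)) := by
      rintro ⟨i, j⟩ hx
      rw [bite_hk]
      refine ih (nxt_mem h _) ?_
      rw [hk, mem_hook] at hx
      simp only [nxt]
      split_ifs <;> lia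
    rw [Function.iterate_succ_apply', upd, List.mem_filter, out_false_iff]
    simp only [List.all_eq_true, Bool.or_eq_true, Bool.not_eq_true', ← Bool.not_eq_true, inH_iff,
      List.contains_iff_mem]
    constructor
    · exact fun k x hx => (e x hx).not.1 ((k.2 x (hk_cells hL h hx)).resolve_left fun l => l hx)
    · refine fun k => ⟨h, fun x _ => ?_⟩
      by_cases hx : x ∈ hk q
      · exact .inr ((e x hx).not.2 (k x hx))
      · exact .inl hx

lemma mem_lost {L : ℕ} (hL : 2 ≤ L) {q : Q4} :
    q ∈ (upd L)^[4 * L] [] ↔ q ∈ quads L ∧ Out false (hk q) := by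
  have e : q ∈ quads L → (q ∈ (upd L)^[4 * L] [] ↔ Out false (hk q)) := fun h =>
    mem_iter hL _ h (by have := mem_quads.1 h; omega)
  refine ⟨fun h => ?_, fun h => (e h.1).2 h.2⟩
  have h' : q ∈ quads L := by
    rw [show 4 * L = (4 * L - 1) + 1 by omega, Function.iterate_succ_apply'] at h
    exact (List.mem_filter.1 h).1
  exact ⟨h', (e h').1 h⟩

lemma look_code {m n : ℕ} {S : Finset (ℕ × ℕ)} (hS : S ⊆ board m n) {x : ℕ × ℕ} :
    look (code m n S) x = true ↔ x ∈ S := by
  obtain ⟨i, j⟩ := x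
  have e1 : (code m n S).1.count true = m := by simp [code, List.count_replicate]
  have e2 : (code m n S).1.count false = n := by simp [code, List.count_replicate]
  simp only [look, e1, e2, Bool.and_eq_true, decide_eq_true_eq]
  by_cases h : i ≤ m ∧ j ≤ n
  · rw [code, getD_matrix (m + 1) (n + 1) (fun i j => decide ((i, j) ∈ S)) false (by omega)
      (by omega)]
    simp [h]
  · exact ⟨fun k => absurd k.1 h, fun k => absurd (mem_board.1 (hS k)).2 h⟩

lemma good_iff {m n : ℕ} {S : Finset (ℕ × ℕ)} (hS : S ⊆ board m n) {c : ℕ × ℕ} :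
    good (code m n S) ((upd (m + n + 2))^[4 * (m + n + 2)] []) c = true ↔
      c ∈ S ∧ ∃ q ∈ quads (m + n + 2), Out false (hk q) ∧ bite S c = hk q := by
  have e : (code m n S).1.length = m + n := by simp [code]
  have e' : ∀ (q : Q4) (x : ℕ × ℕ), (inH q x = (look (code m n S) x &&
      !(decide (c.1 ≤ x.1) && decide (c.2 ≤ x.2)))) ↔ (x ∈ hk q ↔ x ∈ bite S c) := by
    intro q x
    rw [Bool.eq_iff_iff, inH_iff]
    simp only [bite, Finset.mem_filter, Bool.and_eq_true, look_code hS, Bool.not_eq_true',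
      ← Bool.not_eq_true, decide_eq_true_eq]
  simp only [good, e, Bool.and_eq_true, look_code hS, List.any_eq_true, List.all_eq_true,
    decide_eq_true_eq, e', mem_lost (show 2 ≤ m + n + 2 by omega), and_assoc]
  refine and_congr_right fun _ => exists_congr fun q => and_congr_right fun hq =>
    and_congr_right fun _ => ⟨fun k => ?_, fun k x _ => by rw [k]⟩
  ext ⟨i, j⟩
  refine ⟨fun l => (k _ ?_).2 l, fun l => (k _ (hk_cells (by omega) hq l)).1 l⟩
  have := mem_board.1 (hS (mem_bite.1 l).1)
  rw [mem_cells]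
  dsimp only
  omega

lemma cell_alg {m n : ℕ} {S : Finset (ℕ × ℕ)} {c : ℕ × ℕ}
    (h : ((2, 2) :: cells (m + n + 2)).find?
      (good (code m n S) ((upd (m + n + 2))^[4 * (m + n + 2)] [])) = some c) :
    cell (alg (code m n S)) = c := by
  have e : (code m n S).1.length = m + n := by simp [code]
  rw [cell, alg, pick, e, h]
  simp [List.count_replicate]

lemma alg_wins {m n : ℕ} (S : Finset (ℕ × ℕ)) (hS : S ⊆ board m n)
    (h : ∃ c ∈ S, ∃ q ∈ quads (m + n + 2), Out false (hk q) ∧ bite S c = hk q) :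
    Wins (fun S => cell (alg (code m n S))) S := by
  induction hc : S.card using Nat.strong_induction_on generalizing S with
  | _ k ih =>
    obtain ⟨c, hc'⟩ : ∃ c, ((2, 2) :: cells (m + n + 2)).find?
        (good (code m n S) ((upd (m + n + 2))^[4 * (m + n + 2)] [])) = some c := by
      rw [← Option.isSome_iff_exists, List.find?_isSome]
      obtain ⟨⟨i, j⟩, h1, h2⟩ := h
      have := mem_board.1 (hS h1)
      exact ⟨(i, j), List.mem_cons_of_mem _ (mem_cells.2 (by dsimp only; omega)),
        (good_iff hS).2 ⟨h1, h2⟩⟩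
    have e1 := cell_alg hc'
    obtain ⟨h1, q, h2, h3, h4⟩ := (good_iff hS).1 (List.find?_some hc')
    refine .mk S (by rwa [e1]) ?_
    rw [e1]
    intro d hd
    have l1 := card_bite_lt h1
    have l2 := card_bite_lt hd
    refine ih _ (by omega) _ (((Finset.filter_subset _ _).trans (Finset.filter_subset _ _)).trans hS)
      ?_ rfl
    rw [h4] at hd ⊢
    have h5 := (out_false_iff _).1 h3 d hd
    rw [out_false_iff] at h5
    push Not at h5
    obtain ⟨c', h6, h7⟩ := h5
    refine ⟨c', h6, nxt (nxt q d) c', nxt_mem (nxt_mem h2 _) _, ?_, ?_⟩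
    · rwa [bite_hk, bite_hk] at h7
    · rw [bite_hk, bite_hk]

theorem alg_wins_board (m n : ℕ) (h : WinMove m n (2, 2)) :
    cell (alg (code m n (board m n))) = (2, 2) ∧
      Wins (fun S => cell (alg (code m n S))) (board m n) := by
  have e := bite_board le_rfl le_rfl h.1
  have e' := h.2
  rw [e] at e'
  have k : ∃ q ∈ quads (m + n + 2), Out false (hk q) ∧ bite (board m n) (2, 2) = hk q :=
    ⟨(n + 1, n + 1, m + 1, m + 1), mem_quads.2 (by dsimp only; omega), e', e⟩
  exact ⟨cell_alg (List.find?_cons_of_pos ((good_iff subset_rfl).2 ⟨h.1, k⟩)),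
    alg_wins _ subset_rfl ⟨_, h.1, k⟩⟩

end Pool.Agent.Chomp
end
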