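import Pool.Agent.Work.MP_ff0f6a_lc.Bridge

/-!
Lower bounds for the diagonal values, and the value of the density.
-/

namespace Pool.Agent.Chomp

variable {f : ℕ → ℕ → ℕ} {b c p q s t x y C : ℕ} {θ : ℝ}

/-- values above `C` that can still be used in a column `≤ C` -/
def Al (f : ℕ → ℕ → ℕ) (C x s : ℕ) : Prop :=
  C < s ∧ ¬ DD f x s ∧ ∃ q, x ≤ q ∧ q ≤ C ∧ ¬ Fl f s x q

lemma Al.mono (h : Al f C (x + 1) s) : Al f C x s :=
  let ⟨h1, h2, q, h3, h4, h5⟩ := h
  ⟨h1, fun k => h2 (k.mono (by omega)), q, by omega, h4,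
    fun ⟨k1, b, k2, k3⟩ => h5 ⟨k1, b, by omega, k3⟩⟩

namespace Mex

variable (H : Mex f)
include H

lemma sh_sk (h : C < p) : cnt (Sh f C) x ≤ cnt (Sk f C x) p :=
  cnt_inj (tm f)
    (fun b k k' => by
      obtain ⟨k2, k3⟩ := H.sh_iff.1 k'
      have := (H.tm_spec k2).1
      exact ⟨by omega, by omega, H.dead_not_dd (H.dead_tm k2 k), H.dead_not_U (H.dead_tm k2 k)⟩)
    fun _ _ _ k k1 k2 => H.tm_inj ⟨_, k2⟩ ⟨_, k1⟩ k

lemma al_not_dead (h : Al f C x s) : ¬ Dead f x s := fun ⟨b, k1, k2, k3⟩ => by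
  obtain ⟨h1, -, q, h3, h4, h5⟩ := h
  obtain ⟨k4, c, k5, k6⟩ := H.sat k2 k3 (show b ≤ q by omega) (by omega)
  exact h5 ⟨k4, c, by omega, k6⟩

lemma lstep (h0 : ∀ b, x ≤ b → ¬ Sh f C b ∧ C < f b b) (h : Al f C (x + 1) p) :
    ∃ s, Al f C x s ∧ s + cnt (U f s C) x + 1 ≤ p + cnt (U f p C) (x + 1) := by
  classical
  by_cases hU : U f p C x
  · exact ⟨p, h.mono, by rw [cnt_pos hU]; omega⟩
  have e : ∃ s, Al f C x s := ⟨p, h.mono⟩
  obtain ⟨h1, h2, q, h3, h4, h5⟩ := Nat.find_spec e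
  have h6 : Nat.find e ≤ p := Nat.find_min' e h.mono
  have h7 : ∀ v < Nat.find e, ¬ Al f C x v := fun v k => Nat.find_min e k
  generalize Nat.find e = s at *
  refine ⟨s, ⟨h1, h2, q, h3, h4, h5⟩, ?_⟩
  have hx : x ≤ C := by omega
  have k1 := H.miss hx h.1.le (le_of_not_ge fun k => (h0 x le_rfl).1 ⟨hx, k⟩)
    ⟨by have := h.1; omega, h.mono.2.1, hU⟩
  have k2 := cnt12 (P := fun v => v ≠ 0) (R := Sk f C x) (S := DD f x) (x := s) fun v hv k => by
    by_cases hD : DD f x v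
    · exact .inr hD
    refine .inl ⟨by omega, hD, fun ⟨q', k1, k2, k3, k4⟩ => ?_⟩
    rcases le_or_gt v C with e' | e'
    · rcases H.dd_or_dead (show 1 ≤ v by omega) with ⟨a, -, k5⟩ | ⟨a, -, k5, k6⟩
      · exact hD ⟨a, lt_of_not_ge fun k6 => by have := (h0 a k6).2; omega, k5⟩
      · obtain ⟨k7, k8⟩ := H.tm_eq k5 k6
        exact H.dead_ne ⟨a, lt_of_not_ge fun k9 => (h0 a k9).1 (H.sh_iff.2 ⟨k7, by omega⟩), k5, k6⟩
          k1 k4
    · exact h7 v hv ⟨e', hD, q', k1, k2, fun ⟨_, c, k5, _, k6⟩ => H.col k5 k1 (k6.trans k4.symm)⟩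
  have k3 := cnt_ne (show 0 < s by omega)
  have k4 := cnt_mono (P := Sk f C x) h6
  have k5 := cnt_surj (P := fun a => a < x ∧ f a a < s) (x := C + 1) (Q := DD f x) (y := s)
    (fun a => f a a) fun v hv ⟨a, k, k'⟩ => ⟨a, by omega, ⟨k, by omega⟩, k'⟩
  have k6 := cnt21 (P := Fl f s x) (Q := fun a => a < x ∧ f a a < s) (R := fun a => a ≠ q)
    (x := C + 1) fun a _ => ⟨fun k e => h5 (e ▸ k), fun k => by omega,
      fun k k' => by have := H.fl_lt k h2; omega⟩
  have k7 := cnt_ne (show q < C + 1 by omega)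
  rw [cnt_neg hU, H.kfill s]
  omega

lemma lchain (h0 : ∀ b, x ≤ b → ¬ Sh f C b ∧ C < f b b) (hy : x ≤ y) (h : Al f C y p) :
    ∃ s, Al f C x s ∧ s + cnt (U f s C) x + y ≤ p + cnt (U f p C) y + x := by
  induction y, hy using Nat.le_induction generalizing p with
  | base => exact ⟨p, h, le_rfl⟩
  | succ y hy ih =>
    obtain ⟨s, k1, k2⟩ := H.lstep (fun b k => h0 b (hy.trans k)) h
    obtain ⟨s', k3, k4⟩ := ih k1
    exact ⟨s', k3, by omega⟩

lemma lend (h0 : ∀ b, x ≤ b → ¬ Sh f C b ∧ C < f b b) (hx : x ≤ C) :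
    ∃ s, Al f C x s ∧
      s + cnt (U f s C) x + C ≤ f C C + cnt (fun q => ¬ f q q ≤ f C C) C + x := by
  have hD : ¬ DD f C (f C C) := fun ⟨a, k1, k2⟩ => H.diag_inj k1 k2
  have hF : ¬ Fl f (f C C) C C := fun ⟨_, c, k1, _, k2⟩ => H.col k1 le_rfl k2
  obtain ⟨s, k1, k2⟩ := H.lchain h0 hx ⟨H.diag C, hD, C, le_rfl, le_rfl, hF⟩
  rw [H.kfill (f C C), cnt_neg hF] at k2
  have := cnt11 (P := Fl f (f C C) C) (x := C) fun q _ k => not_le.2 (H.fl_lt k hD)
  exact ⟨s, k1, by omega⟩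

variable {θ1 θ' a e K l B : ℝ} (W : Par f θ1 a e K)
  (hV : ∀ b, Term f b → (V f b : ℝ) ≤ l * tm f b + B) (hB : 0 ≤ B) (hl : 1 - e ≤ l)
include W hV hB hl

lemma skip_le (hf : (θ1 + l) * (1 - a) ≤ l * (1 + e)) (h1 : 1 ≤ s) (hD : ¬ DD f x s)
    (hT : ¬ Dead f x s) : (cnt (fun b => ¬ U f s s b) x : ℝ) ≤ l * s + (B + 3 * K + 1) := by
  have hK := W.hK
  have c0 := W.c0
  have l0 : 0 ≤ l := by linarith only [hl, W, W.ac, W.a0]
  have s0 : 0 ≤ l * s := by positivity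
  rcases Nat.eq_zero_or_pos (cnt (fun b => ¬ U f s s b) x) with k | k
  · rw [k, Nat.cast_zero]
    positivity
  obtain ⟨b, k1, k2, k3⟩ := exists_last k
  replace hD : ¬ DD f b s := fun e => hD (e.mono k1.le)
  replace hT : ¬ Dead f b s := fun e => hT (e.mono k1.le)
  obtain ⟨k4, k5⟩ := H.sh_iff.1 (H.sh_of_not_U h1 hD hT k2)
  have k6 : tm f b < s := lt_of_le_of_ne k5 fun e => k2 (e ▸ H.use_tm k4)
  have k7 : (tm f b : ℝ) ≤ s := by exact_mod_cast k5
  have k8 := hV b k4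
  rw [k3]
  push_cast
  rcases le_total ((1 - a) * (s - tm f b)) (a * tm f b) with e' | e'
  · have := H.near W (E := 0) k4 k6 hD hT k2 (H.sh_sk k6) e'
    rw [Nat.cast_zero] at this
    linarith only [k8, this, hl, k7, mul_nonneg_of_nonpos_of_nonpos (Mathlib.Tactic.Linarith.sub_nonpos_of_le hl) (Mathlib.Tactic.Linarith.sub_nonpos_of_le k7)]
  · have k9 := H.far W hD hT h1 l0 k8 e'
    have k10 := mul_le_mul_of_nonneg_right hf (Nat.cast_nonneg (α := ℝ) s)
    by_contra k11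
    linarith only [k9, k10, k11, hB, c0, hK, mul_nonneg_of_nonpos_of_nonpos (Mathlib.Tactic.Linarith.sub_nonpos_of_le hB) (le_of_lt (Mathlib.Tactic.Linarith.sub_neg_of_lt c0)), mul_nonneg_of_nonpos_of_nonpos (Mathlib.Tactic.Linarith.sub_nonpos_of_le hK) (le_of_lt (Mathlib.Tactic.Linarith.sub_neg_of_lt c0)), mul_pos_of_neg_of_neg (Mathlib.Tactic.Linarith.sub_neg_of_lt c0) (Mathlib.Tactic.Linarith.sub_neg_of_lt (lt_of_not_ge k11))]

lemma exists_x0 (h1 : ∀ y : ℕ, θ' * y ≤ th f y + K) (h2 : 1 ≤ (θ' + l) * (2 - θ1)) (h3 : θ1 ≤ 1)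
    (C : ℕ) : ∃ x ≤ C, (∀ b, x ≤ b → ¬ Sh f C b ∧ C < f b b) ∧
      (x : ℝ) ≤ th f C + l * C + (B + 2 * K + l + 1) := by
  classical
  have hK := W.hK
  have l0 : 0 ≤ l := by linarith [W.ac, W.a0]
  have hC : ∀ b, C ≤ b → ¬ Sh f C b ∧ C < f b b := fun b k =>
    ⟨fun k' => H.not_sh_self (le_antisymm k'.1 k ▸ k'), k.trans_lt (H.diag b)⟩
  have e : ∃ x, ∀ b, x ≤ b → ¬ Sh f C b ∧ C < f b b := ⟨C, hC⟩
  refine ⟨Nat.find e, Nat.find_min' e hC, Nat.find_spec e, ?_⟩
  have k0 := Nat.find_spec e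
  have k1 : ∀ v < Nat.find e, ¬ _ := fun v k => Nat.find_min e k
  generalize Nat.find e = x at *
  rcases x with _ | b
  · rw [Nat.cast_zero]
    positivity
  have k2 : Sh f C b ∨ f b b ≤ C := by
    by_contra k
    refine k1 b (by omega) fun b' k' => ?_
    rcases k'.lt_or_eq with k3 | rfl
    · exact k0 b' k3
    · exact ⟨fun e => k (.inl e), lt_of_not_ge fun e => k (.inr e)⟩
  push_cast
  rcases k2 with k | k
  · obtain ⟨k3, k4⟩ := H.sh_iff.1 k
    have k5 := cnt_not (Sh f (tm f b)) b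
    rw [← V] at k5
    have k6 := (cnt_sh_le (f := f) (y := tm f b) (x := b)).trans (H.th_mono k4)
    have k7 : (b : ℝ) ≤ th f C + V f b := by exact_mod_cast (by omega)
    have k8 : (tm f b : ℝ) ≤ C := by exact_mod_cast k4
    linarith only [hK, l0, k7, hV, k3, k8, hV b k3, mul_nonneg_of_nonpos_of_nonpos (Mathlib.Tactic.Linarith.sub_nonpos_of_le l0) (Mathlib.Tactic.Linarith.sub_nonpos_of_le k8)]
  · have k3 : (2 * b : ℝ) ≤ C + th f b := by exact_mod_cast (by have := H.d_ge b; omega)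
    have k4 := W.th b
    have k5 := h1 C
    have k6 := mul_le_mul_of_nonneg_right h2 (Nat.cast_nonneg (α := ℝ) C)
    have k7 : (b : ℝ) ≤ (θ' + l) * C + K := by
      by_contra k8
      linarith only [k3, k4, k6, k8, h3, hK, mul_nonneg_of_nonpos_of_nonpos (Mathlib.Tactic.Linarith.sub_nonpos_of_le h3) (Mathlib.Tactic.Linarith.sub_nonpos_of_le hK), mul_nonneg_of_nonpos_of_nonpos (Mathlib.Tactic.Linarith.sub_nonpos_of_le h3) (le_of_lt (Mathlib.Tactic.Linarith.sub_neg_of_lt (lt_of_not_ge k8)))]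
    linarith only [hB, l0, k5, k7]

omit hB in
lemma window {x1 : ℕ} (h1 : x1 < x) (h2 : ¬ Sh f C x1)
    (h3 : (x : ℝ) ≤ th f C + l * C + (B + 2 * K + l + 1)) :
    ∃ y ≤ C, (∀ b, Sh f y b → b < x1) ∧
      (cnt (fun b => ¬ Sh f C b) (x1 + 1) : ℝ) ≤ l * y + (B + 2 * K + l + 1) := by
  classical
  have hK := W.hK
  have l0 : 0 ≤ l := by linarith only [hl, W, W.ac, W.a0]
  have k1 := Nat.findGreatest_spec (P := fun y => ∀ b, Sh f y b → b < x1) (Nat.zero_le C)
    fun b k => absurd k H.not_sh_zero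
  have k2 := Nat.findGreatest_le (P := fun y => ∀ b, Sh f y b → b < x1) C
  have k3 := fun v => Nat.findGreatest_is_greatest (P := fun y => ∀ b, Sh f y b → b < x1) (n := C)
    (k := v)
  generalize Nat.findGreatest (fun y => ∀ b, Sh f y b → b < x1) C = y at *
  refine ⟨y, k2, k1, ?_⟩
  rcases k2.lt_or_eq with k | rfl
  · have k4 := k3 (y + 1) (by omega) k
    push Not at k4
    obtain ⟨b, k5, k6⟩ := k4
    obtain ⟨k7, k8⟩ := H.sh_iff.1 k5
    have k9 : x1 < b := lt_of_le_of_ne k6 fun e => h2 (e ▸ (H.sh_mono k5 k).1)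
    have k10 := (cnt_mono (P := fun b => ¬ Sh f C b) (show x1 + 1 ≤ b from k9)).trans
      (cnt11 (R := fun b' => ¬ Sh f (tm f b) b') fun b' _ k11 k12 =>
        k11 (H.sh_mono k12 (by omega)).1)
    rw [← V] at k10
    have k11 : (cnt (fun b => ¬ Sh f C b) (x1 + 1) : ℝ) ≤ V f b := by exact_mod_cast k10
    have k12 : (tm f b : ℝ) ≤ y + 1 := by exact_mod_cast k8
    linarith only [hK, k11, hV, k7, l0, k12, hV b k7, mul_nonneg_of_nonpos_of_nonpos (Mathlib.Tactic.Linarith.sub_nonpos_of_le l0) (Mathlib.Tactic.Linarith.sub_nonpos_of_le k12)]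
  · have k4 := cnt_le_of_lt (y := y + 1) (x := x1 + 1) fun b k => (k1 b k).trans (by omega)
    have k5 := cnt_not (Sh f y) (x1 + 1)
    rw [← th] at k4
    have k6 : (cnt (fun b => ¬ Sh f y b) (x1 + 1) : ℝ) + th f y ≤ x := by exact_mod_cast (by omega)
    linarith only [h3, k6]

lemma fill_le {w η : ℝ} (h1 : ∀ y : ℕ, (θ - η) * y ≤ th f y + K) (hx : x ≤ C)
    (h3 : (x : ℝ) ≤ th f C + l * C + (B + 2 * K + l + 1)) (hs : C < s) (hs' : s ≤ 2 * C)
    (hD : ¬ DD f x s) (w0 : 0 ≤ w) (w1 : w ≤ 1) (hw : θ * w = 1 - w) (η0 : 0 ≤ η)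
    (h4 : l ≤ 1 - w + 9 * η) (h5 : 1 - w - 2 * η ≤ a) :
    (cnt (fun b => U f s s b ∧ ¬ U f s C b) x : ℝ) ≤
      w * (s - C) + 13 * η * C + (B + 3 * K + l + 1) := by
  have hK := W.hK
  have l0 : 0 ≤ l := by linarith only [hl, W, W.ac, W.a0]
  have s1 : (C : ℝ) ≤ s := by exact_mod_cast hs.le
  have s2 : (s : ℝ) ≤ 2 * C := by exact_mod_cast hs'
  have s3 : 0 ≤ w * (s - C) := mul_nonneg w0 (by linarith only [s1])
  have s4 : 0 ≤ η * C := by positivity
  rcases Nat.eq_zero_or_pos (cnt (fun b => U f s s b ∧ ¬ U f s C b) x) with k | k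
  · rw [k, Nat.cast_zero]
    linarith only [hB, hK, l0, s3, s4]
  obtain ⟨x1, k1, k2, k3⟩ := exists_last k
  have hS : ∀ b, U f s s b ∧ ¬ U f s C b → ¬ Sh f C b := fun b ⟨⟨q, e1, e2, _, e3⟩, e4⟩ e5 => by
    rcases le_total q C with e | e
    · exact e4 ⟨q, e1, e, e2, e3⟩
    · have := (H.sh_mono e5 e).2
      have := e5.2
      omega
  obtain ⟨y0, k4, k5, k6⟩ := H.window W hV hl k1 (hS _ k2) h3
  have k7 := cnt11 (x := x1 + 1) fun b _ => hS b
  rw [cnt_pos (P := fun b => U f s s b ∧ ¬ U f s C b) k2, ← k3] at k7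
  have k8 := H.miss (show x1 ≤ C by omega) hs.le
    (le_of_not_ge fun e => hS _ k2 ⟨by omega, e⟩) ⟨by omega, fun e => hD (e.mono k1.le), k2.2⟩
  have k9 := H.sh_sk (x := x1) hs
  have k10 := cnt21 (P := U f s C) (Q := fun b => U f s s b ∧ ¬ U f s C b) (R := U f s s) (x := x1)
    fun b _ => ⟨fun e => e.top, fun e => e.1, fun e e' => e'.2 e⟩
  obtain ⟨y, -, k11, k12⟩ := W.low s
  have k13 := cnt_disj (P := U f s s) (Q := Sh f y) (x := x1) fun b _ e e' =>
    e.not_low le_rfl (k11 b e')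
  have k14 := cnt_not (Sh f C) x1
  have k15 := cnt_mono (P := fun b => ¬ Sh f C b) (show x1 ≤ x1 + 1 by omega)
  have k16 : (cnt (fun b => U f s s b ∧ ¬ U f s C b) x : ℝ) ≤ cnt (fun b => ¬ Sh f C b) (x1 + 1) := by
    exact_mod_cast k7
  have k17 : (cnt (fun b => U f s s b ∧ ¬ U f s C b) x : ℝ) + cnt (Sh f y) x1 + C ≤
    cnt (fun b => ¬ Sh f C b) (x1 + 1) + s := by exact_mod_cast (by omega)
  have k18 : (y0 : ℝ) ≤ C := by exact_mod_cast k4
  have k19 := Nat.cast_nonneg (α := ℝ) y0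
  have k20 := mul_le_mul_of_nonneg_right h4 k19
  have k21 := mul_le_mul_of_nonneg_left k18 η0
  rcases le_total (θ * y0) (s - C) with e | e
  · have := mul_le_mul_of_nonneg_left e w0
    have : w * (θ * y0) = (1 - w) * y0 := by rw [← hw]; ring
    linarith
  rcases le_total y0 y with e' | e'
  · have k22 := (cnt_le_of_lt (y := y0 + 1) k5).trans
      (cnt11 (R := Sh f y) fun b _ k => (H.sh_mono k e').1)
    rw [← th] at k22
    have k23 : (th f y0 : ℝ) ≤ cnt (Sh f y) x1 := by exact_mod_cast k22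
    have := mul_le_mul_of_nonneg_left e (sub_nonneg.2 w1)
    have : w * (θ * y0) = (1 - w) * y0 := by rw [← hw]; ring
    linarith [h1 y0]
  · have k22 := cnt_le_of_lt (y := y + 1) fun b k => k5 b (H.sh_mono k e').1
    rw [← th] at k22
    have k23 : (th f y : ℝ) ≤ cnt (Sh f y) x1 := by exact_mod_cast k22
    have := mul_le_mul_of_nonneg_right h5 (Nat.cast_nonneg (α := ℝ) s)
    have := mul_le_mul_of_nonneg_left k18 (sub_nonneg.2 w1)
    have := mul_le_mul_of_nonneg_left s2 η0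
    linarith

omit W hV hB hl

/-- the only possible density of the terminal values -/
theorem den_eq {δ η : ℝ} (hD : Den f θ δ) (h0 : 0 < δ) (h1 : 0 < η) (h2 : η ≤ 1 / 20)
    (h3 : 162 * δ ≤ η ^ 2) : |θ ^ 2 + 2 * θ - 1| ≤ 32 * η := by
  have q0 := mul_le_mul_of_nonneg_left h2 h1.le
  have d1 : 3240 * δ ≤ η := by linarith only [q0, h3]
  have hD' : Den f θ (η / 6) := hD.mono (by linarith only [d1, h0])
  have t1 := H.half hD
  have t3 := H.third hD (by linarith only [d1, h2])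
  have t2 := H.third' hD (by linarith only [d1, h2])
  have tb : θ ≤ 51 / 100 := by linarith only [t1, d1, h2]
  have t0 : 0 ≤ θ := by linarith only [t2]
  have p0 : 0 < 1 + θ := by linarith only [t2]
  have q1 := mul_le_mul_of_nonneg_left tb h1.le
  have q2 := mul_nonneg h1.le t0
  obtain ⟨w, hw⟩ : ∃ w, θ * w = 1 - w := ⟨(1 + θ)⁻¹, by field_simp; ring⟩
  have w1 : 13 / 20 ≤ w := le_of_not_gt fun k => by
    linarith only [mul_lt_mul_of_pos_left k p0, hw, tb]
  have w2 : w ≤ 3 / 4 := le_of_not_gt fun k => by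
    linarith only [mul_lt_mul_of_pos_left k p0, hw, t2]
  have q3 := mul_le_mul_of_nonneg_left w1 h1.le
  have key : 1 ≤ (1 - θ + δ) * (1 + w + 5 * η) ∧ (w - 31 * η) * (1 - θ - δ) ≤ θ + δ := by
    have u0 : (1 + θ + η) * (1 + θ + η)⁻¹ = 1 := mul_inv_cancel₀ (by linarith only [p0, h1])
    have hM := H.hm_lim (η := 6 * δ) (hD.mono (by linarith only)) (by linarith only [h0])
      (by linarith only [d1, h2]) h1 (by linarith only [h3])
    rw [← inv_inv (1 + θ + η)] at hM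
    generalize (1 + θ + η)⁻¹ = u at u0 hM
    have u1 : 0 < u := lt_of_not_ge fun k => by
      linarith only [mul_le_mul_of_nonneg_left k (add_pos p0 h1).le, u0]
    have u4 := mul_pos h1 u1
    have u2 : u ≤ w := le_of_not_gt fun k => by
      linarith only [mul_lt_mul_of_pos_left k p0, u4, hw, u0]
    have u3 : w - η ≤ u := le_of_not_gt fun k => by
      linarith only [mul_lt_mul_of_pos_left k p0, mul_le_mul_of_nonneg_left (u2.trans w2) h1.le,
        q2, hw, u0, h1]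
    obtain ⟨θ1, a, e, K, B, W, k1, k2, k3, k4, k5, k6, k7, k8, hB, hV⟩ :=
      H.pack hD' hM (by linarith only [u0, u4]) (by linarith only [u3, w1, h2]) h1 h2
    have hK := W.hK
    have s0 : 0 ≤ θ1 := t0.trans k1
    have s1 : θ1 ≤ 3 / 5 := by linarith only [k2, tb, h2]
    have hl : 1 - e ≤ 1 - u + 8 * η := by linarith only [k5, h1]
    have a1 : 1 - w - 2 * η ≤ a := by
      linarith only [mul_le_mul_of_nonneg_left u3 t0, q1, k3, hw, h1]
    refine ⟨H.upper hD (by linarith only [w1, h1]) (by linarith only [hK]) (H.d_le W k7 ?_ ?_), ?_⟩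
    · linarith only [mul_le_mul_of_nonneg_right
        (show 1 - a - e ≤ 4 * η by linarith only [a1, k5, u3]) s0,
        mul_le_mul_of_nonneg_left s1 h1.le, a1, h1]
    · linarith only [mul_le_mul_of_nonneg_right
        (show 1 - e ≤ 1 - w + 2 * η by linarith only [k5, u3]) s0,
        mul_le_mul_of_nonneg_left k2 (show 0 ≤ 1 - w + 2 * η by linarith only [w2, h1]),
        hw, q0, q1, q3, h1]
    rcases le_total (w - 31 * η) 0 with e' | e'
    · linarith only [mul_le_mul_of_nonneg_right e'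
        (show 0 ≤ 1 - θ - δ by linarith only [tb, d1, h2]), t0, h0]
    have a2 : 1 ≤ (θ - η + (1 - u + 8 * η)) * (2 - θ1) := by
      have b1 : 1 - δ ≤ (θ + 1 - w) * (2 - θ) := le_of_not_gt fun k => by
        have c1 := mul_lt_mul_of_pos_left k p0
        have c2 : (1 + θ) * ((θ + 1 - w) * (2 - θ)) = θ * (4 - θ ^ 2) := by
          linear_combination (-(2 - θ)) * hw
        rw [c2] at c1
        linarith only [c1, t3, mul_le_mul_of_nonneg_left tb (sq_nonneg θ),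
          mul_le_mul_of_nonneg_left t2 t0, mul_nonneg t0 h0.le, sq_nonneg δ, t2, d1, h2]
      have b2 := mul_le_mul
        (show θ + 1 - w + 7 * η ≤ θ - η + (1 - u + 8 * η) by linarith only [u2])
        (show 2 - θ - η ≤ 2 - θ1 by linarith only [k2]) (by linarith only [tb, h2])
        (by linarith only [u2, w2, t0, h1])
      linarith only [b1, b2, q0, q1, q3, d1, h1, h0]
    refine H.lower hD e' (K := 2 * B + 6 * K + 4) fun C => ?_
    obtain ⟨x, m1, m2, m3⟩ := H.exists_x0 W hV hB hl k7 a2 (by linarith only [s1]) C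
    obtain ⟨s, m4, m5⟩ := H.lend m2 m1
    have m6 := Nat.cast_nonneg (α := ℝ) C
    have m7 := mul_nonneg h1.le m6
    rcases le_or_gt s (2 * C) with e'' | e''
    · have m8 := H.skip_le W hV hB hl k8 (by have := m4.1; omega) m4.2.1
        (H.al_not_dead m4)
      have m9 := H.fill_le W hV hB hl k7 m1 m3 m4.1 e'' m4.2.1 (by linarith only [w1])
        (by linarith only [w2]) hw h1.le (by linarith only [u3]) a1
      have m10 := cnt12 (P := fun b => ¬ U f s C b) (R := fun b => ¬ U f s s b)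
        (S := fun b => U f s s b ∧ ¬ U f s C b) (x := x) fun b _ k =>
          (em (U f s s b)).elim (fun k' => .inr ⟨k', k⟩) .inl
      have m11 := cnt_not (U f s C) x
      have m12 : (s : ℝ) + C ≤ f C C + cnt (fun q => ¬ f q q ≤ f C C) C +
        cnt (fun b => ¬ U f s s b) x + cnt (fun b => U f s s b ∧ ¬ U f s C b) x := by
        exact_mod_cast (by omega)
      have m13 : (s : ℝ) ≤ 2 * C := by exact_mod_cast e''
      have m14 := mul_le_mul_of_nonneg_left m13 h1.le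
      have m15 := mul_le_mul_of_nonneg_right u3 (Nat.cast_nonneg (α := ℝ) s)
      linarith only [m8, m9, m12, m14, m15, m7, u1, h2]
    · have m8 : (2 * C : ℝ) ≤ f C C + cnt (fun q => ¬ f q q ≤ f C C) C := by
        exact_mod_cast (by omega)
      linarith only [m8, mul_le_mul_of_nonneg_right w2 m6, m6, m7, hB, hK]
  have k1 := mul_le_mul_of_nonneg_left key.1 p0.le
  have k2 := mul_le_mul_of_nonneg_left key.2 p0.le
  have k3 : (1 + θ) * ((1 - θ + δ) * (1 + w + 5 * η)) =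
      (1 - θ + δ) * (2 + θ + 5 * η * (1 + θ)) := by linear_combination (1 - θ + δ) * hw
  have k4 : (1 + θ) * ((w - 31 * η) * (1 - θ - δ)) =
      (1 - 31 * η * (1 + θ)) * (1 - θ - δ) := by linear_combination (1 - θ - δ) * hw
  have k5 : 0 ≤ η * θ ^ 2 := by positivity
  have k6 : 0 ≤ η * δ := by positivity
  have k7 : 0 ≤ η * δ * θ := by positivity
  have r1 := mul_le_mul_of_nonneg_left tb h0.le
  have r2 := mul_le_mul_of_nonneg_left (show δ ≤ 1 by linarith only [d1, h2]) h1.le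
  have r3 := mul_le_mul_of_nonneg_left tb k6
  rw [k3] at k1
  rw [k4] at k2
  rw [abs_le]
  constructor
  · linarith only [k2, k5, k6, k7, r1, d1, h0]
  · linarith only [k1, k5, r1, r2, r3, d1, h0, h1]

end Mex

end Pool.Agent.Chomp
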