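import Pool.Agent.Work.MP_ff0f6a_lc.Bridge

/-!
Chomp on three rows: at least a third of the boards have a winning first move in the last row.
-/

namespace Pool.Agent.Chomp.ThreeRowThirdOld

open Pool.Agent.Chomp

theorem result (N : ℕ) : N ≤ 3 * {n | n < N ∧ ∃ j, WinMove 2 n (2, j)}.ncard + 2 := by
  obtain ⟨f, H, hf⟩ := exists_count
  rw [hf]
  have h1 := H.th_add_de N
  rcases Nat.eq_zero_or_pos (de f N) with k | k
  · omega
  obtain ⟨m, k1, k2, k3⟩ := exists_last k
  have k4 := cnt_le (P := fun a => f a a ≤ N) (x := m)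
  have k5 := H.d_ge m
  have k6 := H.th_mono k1.le
  rw [de] at h1
  omega

end Pool.Agent.Chomp.ThreeRowThirdOld
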